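import Mathlib

/-!
Edge sums, connectivity of vertex sets, splitting at a cut vertex and an induction principle.
-/

open Finset

namespace Pool.Agent.P.MP_e55f1b_co

variable {V : Type*} [DecidableEq V] (G : SimpleGraph V) [DecidableRel G.Adj]

/-- Sum of `φ` over the ordered adjacent pairs inside `S`. -/
noncomputable def F (S : Finset V) (φ : V → V → ℝ) : ℝ :=
  ∑ u ∈ S, ∑ v ∈ S, if G.Adj u v then φ u v else 0

/-- Connectivity of the subgraph induced on `S`. -/
def Conn (S : Finset V) : Prop :=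
  S.Nonempty ∧ ∀ T ⊆ S, T.Nonempty → T ≠ S → ∃ a ∈ T, ∃ b ∈ S, b ∉ T ∧ G.Adj a b

/-- `S` is a clique. -/
def Clq (S : Finset V) : Prop := ∀ a ∈ S, ∀ b ∈ S, a ≠ b → G.Adj a b

/-- `S` splits at the cut vertex `v` into `T₁` and `T₂`. -/
structure Split (S : Finset V) (v : V) (T₁ T₂ : Finset V) : Prop where
  n1 : v ∉ T₁
  n2 : v ∉ T₂
  disj : ∀ a ∈ T₁, a ∉ T₂
  mem : ∀ x, x ∈ S ↔ x = v ∨ x ∈ T₁ ∨ x ∈ T₂
  ne1 : T₁.Nonempty
  ne2 : T₂.Nonempty
  noadj : ∀ a ∈ T₁, ∀ b ∈ T₂, ¬ G.Adj a b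

variable {G}

omit [DecidableEq V] [DecidableRel G.Adj] in
lemma Split.symm {S : Finset V} {v : V} {T₁ T₂ : Finset V} (h : Split G S v T₁ T₂) :
    Split G S v T₂ T₁ where
  n1 := h.n2
  n2 := h.n1
  disj := fun a ha hb => h.disj a hb ha
  mem := fun x => by rw [h.mem x]; tauto
  ne1 := h.ne2
  ne2 := h.ne1
  noadj := fun a ha b hb hab => h.noadj b hb a ha hab.symm

omit [DecidableRel G.Adj] in
lemma Split.sub {S : Finset V} {v : V} {T₁ T₂ : Finset V} (h : Split G S v T₁ T₂) :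
    insert v T₁ ⊆ S := by
  intro x hx
  rw [h.mem]
  rcases mem_insert.1 hx with hx | hx <;> tauto

omit [DecidableRel G.Adj] in
lemma Split.eq {S : Finset V} {v : V} {T₁ T₂ : Finset V} (h : Split G S v T₁ T₂) :
    S = insert v (T₁ ∪ T₂) := by
  ext x
  simp [h.mem]

omit [DecidableRel G.Adj] in
lemma Split.sum {S : Finset V} {v : V} {T₁ T₂ : Finset V} (h : Split G S v T₁ T₂)
    (φ : V → ℝ) : ∑ x ∈ S, φ x = φ v + ∑ x ∈ T₁, φ x + ∑ x ∈ T₂, φ x := by
  rw [h.eq, sum_insert (by simp [h.n1, h.n2]), sum_union (disjoint_left.2 h.disj), add_assoc]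

omit [DecidableRel G.Adj] in
lemma Split.card {S : Finset V} {v : V} {T₁ T₂ : Finset V} (h : Split G S v T₁ T₂) :
    (S.card : ℝ) + 1 = (insert v T₁).card + (insert v T₂).card := by
  have := h.sum fun _ => 1
  simp only [sum_const, nsmul_eq_mul, mul_one] at this
  rw [this, card_insert_of_notMem h.n1, card_insert_of_notMem h.n2]
  push_cast
  ring

omit [DecidableRel G.Adj] in
lemma Split.card_lt {S : Finset V} {v : V} {T₁ T₂ : Finset V} (h : Split G S v T₁ T₂) :
    (insert v T₁).card < S.card := by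
  refine card_lt_card ⟨h.sub, fun hc => ?_⟩
  obtain ⟨b, hb⟩ := h.ne2
  have : b ∈ insert v T₁ := hc ((h.mem b).2 (Or.inr (Or.inr hb)))
  rcases mem_insert.1 this with rfl | h1
  · exact h.n2 hb
  · exact h.disj b h1 hb

omit [DecidableRel G.Adj] in
lemma Split.two_le {S : Finset V} {v : V} {T₁ T₂ : Finset V} (h : Split G S v T₁ T₂) :
    2 ≤ (insert v T₁).card := by
  rw [card_insert_of_notMem h.n1]
  have := h.ne1.card_pos
  omega

lemma Split.F_eq {S : Finset V} {v : V} {T₁ T₂ : Finset V} (h : Split G S v T₁ T₂)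
    (φ : V → V → ℝ) : F G S φ = F G (insert v T₁) φ + F G (insert v T₂) φ := by
  have h12 : ∑ u ∈ T₁, ∑ x ∈ T₂, (if G.Adj u x then φ u x else 0) = 0 :=
    sum_eq_zero fun u hu => sum_eq_zero fun x hx => if_neg (h.noadj u hu x hx)
  have h21 : ∑ u ∈ T₂, ∑ x ∈ T₁, (if G.Adj u x then φ u x else 0) = 0 :=
    sum_eq_zero fun u hu => sum_eq_zero fun x hx => if_neg (h.symm.noadj u hu x hx)
  unfold F
  rw [h.sum]
  simp only [h.sum, sum_insert h.n1, sum_insert h.n2, sum_add_distrib, h12, h21, G.irrefl,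
    if_false]
  ring

omit [DecidableRel G.Adj] in
lemma Split.conn {S : Finset V} {v : V} {T₁ T₂ : Finset V} (h : Split G S v T₁ T₂)
    (hS : Conn G S) : Conn G (insert v T₁) := by
  have key : ∀ T ⊆ T₁, T.Nonempty → ∃ a ∈ T, ∃ b ∈ insert v T₁, b ∉ T ∧ G.Adj a b := by
    intro T hT hne
    obtain ⟨a, ha, b, hb, hbT, hab⟩ := hS.2 T (hT.trans ((subset_insert _ _).trans h.sub)) hne
      (fun hTS => h.n1 (hT (hTS ▸ (h.mem v).2 (Or.inl rfl))))
    refine ⟨a, ha, b, ?_, hbT, hab⟩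
    rcases (h.mem b).1 hb with rfl | hb | hb
    · exact mem_insert_self _ _
    · exact mem_insert_of_mem hb
    · exact (h.noadj a (hT ha) b hb hab).elim
  refine ⟨insert_nonempty _ _, fun T hT hne hTS => ?_⟩
  by_cases hv : v ∈ T
  · obtain ⟨a, ha, b, hb, hbT, hab⟩ := key (T₁ \ T) sdiff_subset (by
      by_contra hc
      rw [not_nonempty_iff_eq_empty, sdiff_eq_empty_iff_subset] at hc
      exact hTS (Subset.antisymm hT (insert_subset hv hc)))
    refine ⟨b, ?_, a, mem_insert_of_mem (mem_sdiff.1 ha).1, (mem_sdiff.1 ha).2, hab.symm⟩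
    rcases mem_insert.1 hb with rfl | hb
    · exact hv
    · by_contra hc
      exact hbT (mem_sdiff.2 ⟨hb, hc⟩)
  · exact key T (fun x hx => (mem_insert.1 (hT hx)).resolve_left fun hxv => hv (hxv ▸ hx)) hne

omit [DecidableRel G.Adj] in
lemma exists_split {S : Finset V} {v : V} (hv : v ∈ S) (h2 : 2 ≤ S.card)
    (hn : ¬ Conn G (S.erase v)) : ∃ T₁ T₂, Split G S v T₁ T₂ := by
  have hne : (S.erase v).Nonempty := by
    rw [← card_pos, card_erase_of_mem hv]; omega
  unfold Conn at hn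
  push Not at hn
  obtain ⟨T, hT, hTne, hTS, hno⟩ := hn hne
  refine ⟨T, S.erase v \ T, ⟨fun h => notMem_erase v S (hT h),
    fun h => notMem_erase v S (mem_sdiff.1 h).1, fun a ha h => (mem_sdiff.1 h).2 ha, fun x => ?_,
    hTne, ?_, fun a ha b hb => hno a ha b (mem_sdiff.1 hb).1 (mem_sdiff.1 hb).2⟩⟩
  · constructor
    · intro hx
      by_cases hxv : x = v
      · exact Or.inl hxv
      · by_cases hxT : x ∈ T
        · exact Or.inr (Or.inl hxT)
        · exact Or.inr (Or.inr (mem_sdiff.2 ⟨mem_erase.2 ⟨hxv, hx⟩, hxT⟩))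
    · rintro (rfl | hx | hx)
      · exact hv
      · exact mem_of_mem_erase (hT hx)
      · exact mem_of_mem_erase (mem_sdiff.1 hx).1
  · by_contra hc
    rw [not_nonempty_iff_eq_empty, sdiff_eq_empty_iff_subset] at hc
    exact hTS (Subset.antisymm hT hc)

omit [DecidableRel G.Adj] in
/-- Induction over connected vertex sets. -/
lemma conn_induction {P : Finset V → Prop}
    (hclq : ∀ S, S.Nonempty → Clq G S → P S)
    (hsplit : ∀ S v T₁ T₂, Split G S v T₁ T₂ → Conn G (insert v T₁) → Conn G (insert v T₂) →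
      P (insert v T₁) → P (insert v T₂) → P S)
    (h2 : ∀ S, Conn G S → ¬ Clq G S → 3 ≤ S.card →
      (∀ v ∈ S, Conn G (S.erase v) ∧ P (S.erase v)) → P S) :
    ∀ S, Conn G S → P S := by
  intro S
  induction S using Finset.strongInductionOn with
  | _ S ih =>
  intro hS
  by_cases hc : Clq G S
  · exact hclq S hS.1 hc
  have h3 : 3 ≤ S.card := by
    unfold Clq at hc
    push Not at hc
    obtain ⟨a, ha, b, hb, hab, hn⟩ := hc
    obtain ⟨a', ha', c, hc, hca, hac⟩ := hS.2 {a} (by simpa using ha) (singleton_nonempty _)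
      (fun h => hab (mem_singleton.1 (h ▸ hb)).symm)
    rw [mem_singleton] at ha' hca
    subst ha'
    have hcb : c ≠ b := fun h => hn (h ▸ hac)
    have hsub : ({a', b, c} : Finset V) ⊆ S := by
      intro x hx
      simp only [mem_insert, mem_singleton] at hx
      rcases hx with rfl | rfl | rfl <;> assumption
    have := card_le_card hsub
    rwa [card_eq_three.2 ⟨a', b, c, hab, Ne.symm hca, hcb.symm, rfl⟩] at this
  by_cases hall : ∀ v ∈ S, Conn G (S.erase v)
  · exact h2 S hS hc h3 fun v hv => ⟨hall v hv, ih _ (erase_ssubset hv) (hall v hv)⟩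
  · push Not at hall
    obtain ⟨v, hv, hn⟩ := hall
    obtain ⟨T₁, T₂, hsp⟩ := exists_split hv (by omega) hn
    exact hsplit S v T₁ T₂ hsp (hsp.conn hS) (hsp.symm.conn hS)
      (ih _ (Finset.ssubset_iff_subset_ne.2 ⟨hsp.sub, fun h => hsp.card_lt.ne (by rw [h])⟩) (hsp.conn hS))
      (ih _ (Finset.ssubset_iff_subset_ne.2 ⟨hsp.symm.sub, fun h => hsp.symm.card_lt.ne (by rw [h])⟩)
        (hsp.symm.conn hS))

omit [DecidableEq V] in
lemma F_congr {S : Finset V} {φ ψ : V → V → ℝ}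
    (h : ∀ u ∈ S, ∀ v ∈ S, G.Adj u v → φ u v = ψ u v) : F G S φ = F G S ψ :=
  sum_congr rfl fun u hu => sum_congr rfl fun v hv => by
    split_ifs with hh
    · exact h u hu v hv hh
    · rfl

omit [DecidableEq V] in
lemma F_nonneg {S : Finset V} {φ : V → V → ℝ}
    (h : ∀ u ∈ S, ∀ v ∈ S, G.Adj u v → 0 ≤ φ u v) : 0 ≤ F G S φ :=
  sum_nonneg fun u hu => sum_nonneg fun v hv => by
    split_ifs with hh
    · exact h u hu v hv hh
    · rfl

omit [DecidableEq V] in
lemma F_add (S : Finset V) (φ ψ : V → V → ℝ) :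
    F G S (fun u v => φ u v + ψ u v) = F G S φ + F G S ψ := by
  unfold F
  rw [← sum_add_distrib]
  refine sum_congr rfl fun u _ => ?_
  rw [← sum_add_distrib]
  refine sum_congr rfl fun v _ => ?_
  split_ifs <;> simp

omit [DecidableEq V] in
lemma F_mul (S : Finset V) (c : ℝ) (φ : V → V → ℝ) :
    F G S (fun u v => c * φ u v) = c * F G S φ := by
  unfold F
  rw [mul_sum]
  refine sum_congr rfl fun u _ => ?_
  rw [mul_sum]
  refine sum_congr rfl fun v _ => ?_
  split_ifs <;> simp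

omit [DecidableEq V] in
lemma F_eq_zero {S : Finset V} {φ : V → V → ℝ}
    (h : ∀ u ∈ S, ∀ v ∈ S, G.Adj u v → 0 ≤ φ u v) (h0 : F G S φ = 0) :
    ∀ u ∈ S, ∀ v ∈ S, G.Adj u v → φ u v = 0 := by
  intro u hu v hv huv
  have hnn : ∀ u ∈ S, ∀ v ∈ S, 0 ≤ (if G.Adj u v then φ u v else 0) := fun u hu v hv => by
    split_ifs with hh
    · exact h u hu v hv hh
    · rfl
  have h1 := (sum_eq_zero_iff_of_nonneg fun u hu => sum_nonneg (hnn u hu)).1 h0 u hu
  have h2 := (sum_eq_zero_iff_of_nonneg (hnn u hu)).1 h1 v hv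
  rwa [if_pos huv] at h2

lemma F_erase (S : Finset V) (φ : V → V → ℝ) {v : V} (hv : v ∈ S) :
    F G (S.erase v) φ = F G S φ - ∑ x ∈ S, (if G.Adj v x then φ v x else 0)
      - ∑ u ∈ S, (if G.Adj u v then φ u v else 0) := by
  unfold F
  rw [sum_erase_eq_sub hv]
  simp only [sum_erase_eq_sub hv, sum_sub_distrib, G.irrefl, if_false]
  ring

lemma F_sum_erase (S : Finset V) (φ : V → V → ℝ) :
    ∑ v ∈ S, F G (S.erase v) φ = ((S.card : ℝ) - 2) * F G S φ := by
  rw [sum_congr rfl fun v hv => F_erase S φ hv, sum_sub_distrib, sum_sub_distrib, sum_const,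
    nsmul_eq_mul, sum_comm (s := S) (t := S) (f := fun v u => if G.Adj u v then φ u v else 0)]
  unfold F
  ring

omit [DecidableEq V] in
/-- Cauchy-Schwarz over the edges. -/
lemma F_sq_le (S : Finset V) (φ : V → V → ℝ) :
    F G S φ ^ 2 ≤ F G S (fun _ _ => 1) * F G S (fun u v => φ u v ^ 2) := by
  unfold F
  rw [← sum_product', ← sum_product', ← sum_product']
  refine sum_sq_le_sum_mul_sum_of_sq_le_mul _ (fun p _ => ?_) (fun p _ => ?_) (fun p _ => ?_)
  · split_ifs <;> norm_num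
  · split_ifs <;> positivity
  · split_ifs <;> simp

lemma F_one_le (S : Finset V) :
    ∀ u ∈ S, ∑ v ∈ S, (if G.Adj u v then (1 : ℝ) else 0) ≤ S.card - 1 := by
  intro u hu
  rw [← add_sum_erase _ _ hu, if_neg G.irrefl, zero_add]
  refine (sum_le_card_nsmul _ _ 1 fun v _ => by split_ifs <;> norm_num).trans ?_
  rw [card_erase_of_mem hu, nsmul_eq_mul, mul_one, Nat.cast_sub (card_pos.2 ⟨u, hu⟩)]
  simp

lemma F_one_clq {S : Finset V} (hS : Clq G S) :
    F G S (fun _ _ => 1) = S.card * (S.card - 1) := by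
  unfold F
  rw [sum_congr rfl (g := fun _ => (S.card : ℝ) - 1)]
  · rw [sum_const, nsmul_eq_mul]
  · intro u hu
    rw [← add_sum_erase _ _ hu, if_neg G.irrefl, zero_add,
      sum_congr rfl (g := fun _ => (1 : ℝ)) fun v hv =>
        if_pos (hS u hu v (mem_of_mem_erase hv) (ne_of_mem_erase hv).symm)]
    rw [sum_const, card_erase_of_mem hu, nsmul_eq_mul, mul_one, Nat.cast_sub (card_pos.2 ⟨u, hu⟩)]
    simp

lemma F_one_lt {S : Finset V} (hS : ¬ Clq G S) :
    F G S (fun _ _ => 1) < S.card * (S.card - 1) := by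
  unfold Clq at hS
  push Not at hS
  obtain ⟨a, ha, b, hb, hab, hn⟩ := hS
  have : ∑ _u ∈ S, ((S.card : ℝ) - 1) = S.card * (S.card - 1) := by
    rw [sum_const, nsmul_eq_mul]
  rw [← this]
  refine sum_lt_sum (F_one_le S) ⟨a, ha, ?_⟩
  rw [← add_sum_erase _ _ ha, if_neg G.irrefl, zero_add]
  have h1 : ∑ _v ∈ S.erase a, (1 : ℝ) = S.card - 1 := by
    rw [sum_const, card_erase_of_mem ha, nsmul_eq_mul, mul_one, Nat.cast_sub (card_pos.2 ⟨a, ha⟩)]
    simp
  rw [← h1]
  refine sum_lt_sum (fun v _ => by split_ifs <;> norm_num) ⟨b, mem_erase.2 ⟨hab.symm, hb⟩, ?_⟩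
  rw [if_neg hn]
  norm_num

omit [DecidableEq V] in
lemma card_le_F_one {S : Finset V} (hS : Conn G S) (h2 : 2 ≤ S.card) :
    (S.card : ℝ) ≤ F G S (fun _ _ => 1) := by
  have : ∑ _u ∈ S, (1 : ℝ) = S.card := by simp
  rw [← this]
  refine sum_le_sum fun u hu => ?_
  obtain ⟨a', ha', c, hc, -, hac⟩ := hS.2 {u} (by simpa using hu) (singleton_nonempty _)
      (fun h => by rw [← h] at h2; simp at h2)
  rw [mem_singleton] at ha'
  subst ha'
  have := single_le_sum (f := fun v => if G.Adj a' v then (1 : ℝ) else 0)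
    (fun v _ => by split_ifs <;> norm_num) hc
  simpa [hac] using this

end Pool.Agent.P.MP_e55f1b_co
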