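import Pool.Agent.P.MP_e55f1b_co.Equality

/-!
Block-like vertex sets: two non-adjacent neighbours of a vertex are separated by it.
A counting lemma for 2-connected sets that are not cliques.
-/

open Finset

namespace Pool.Agent.P.MP_e55f1b_co

variable {V : Type*} [DecidableEq V] (G : SimpleGraph V) [DecidableRel G.Adj]

/-- Any two distinct non-adjacent neighbours of a vertex `u` are separated by `u` inside `S`. -/
def Blk (S : Finset V) : Prop :=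
  ∀ u ∈ S, ∀ a ∈ S, ∀ b ∈ S, G.Adj u a → G.Adj u b → a ≠ b → ¬ G.Adj a b →
    ∃ P : V → Prop, P a ∧ ¬ P b ∧ ∀ x ∈ S, ∀ y ∈ S, x ≠ u → y ≠ u → G.Adj x y → P x → P y

variable {G}

omit [DecidableEq V] [DecidableRel G.Adj] in
lemma Blk.mono {S T : Finset V} (h : Blk G S) (hT : T ⊆ S) : Blk G T := by
  intro u hu a ha b hb hua hub hab hn
  obtain ⟨P, h1, h2, h3⟩ := h u (hT hu) a (hT ha) b (hT hb) hua hub hab hn
  exact ⟨P, h1, h2, fun x hx y hy => h3 x (hT hx) y (hT hy)⟩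

omit [DecidableEq V] [DecidableRel G.Adj] in
lemma Clq.blk {S : Finset V} (h : Clq G S) : Blk G S :=
  fun _ _ a ha b hb _ _ hab hn => (hn (h a ha b hb hab)).elim

omit [DecidableEq V] [DecidableRel G.Adj] in
/-- No induced diamond or four-cycle. -/
lemma Blk.dia {S : Finset V} (h : Blk G S) {u a b c : V} (hu : u ∈ S) (ha : a ∈ S) (hb : b ∈ S)
    (hc : c ∈ S) (hua : G.Adj u a) (hub : G.Adj u b) (hab : a ≠ b) (hcu : c ≠ u)
    (hac : G.Adj a c) (hcb : G.Adj c b) : G.Adj a b := by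
  by_contra hn
  obtain ⟨P, h1, h2, h3⟩ := h u hu a ha b hb hua hub hab hn
  exact h2 (h3 c hc b hb hcu hub.ne' hcb (h3 a ha c hc hua.ne' hcu hac h1))

omit [DecidableRel G.Adj] in
lemma Split.blk_aux' {S : Finset V} {v : V} {T₁ T₂ : Finset V} (h : Split G S v T₁ T₂)
    (g1 : Blk G (insert v T₁)) {u x y : V}
    (hu : u ∈ insert v T₁) (hx : x ∈ insert v T₁) (hy : y ∈ insert v T₁)
    (hux : G.Adj u x) (huy : G.Adj u y) (hxy : x ≠ y) (hn : ¬ G.Adj x y) :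
    ∃ P : V → Prop, P x ∧ ¬ P y ∧ ∀ s ∈ S, ∀ t ∈ S, s ≠ u → t ≠ u → G.Adj s t → P s → P t := by
  obtain ⟨P, h1, h2, h3⟩ := g1 u hu x hx y hy hux huy hxy hn
  have hnot : ∀ s ∈ insert v T₁, s ∉ T₂ := by
    intro s hs
    rcases mem_insert.1 hs with rfl | hs
    · exact h.n2
    · exact h.disj s hs
  refine ⟨fun s => if s ∈ T₂ then P v else P s, by simpa [hnot x hx] using h1,
    by simpa [hnot y hy] using h2, fun s hs t ht hsu htu hst => ?_⟩
  rcases h.cases hs with hs1 | hs2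
  · rcases h.cases ht with ht1 | ht2
    · simpa [hnot s hs1, hnot t ht1] using h3 s hs1 t ht1 hsu htu hst
    · rcases mem_insert.1 hs1 with rfl | hs1
      · simp [h.n2, ht2]
      · exact (h.noadj s hs1 t ht2 hst).elim
  · rcases mem_insert.1 (h.symm.adj_mem hs2 ht hst) with rfl | ht2
    · simp [h.n2, hs2]
    · simp [ht2, hs2]

omit [DecidableRel G.Adj] in
lemma Split.blk {S : Finset V} {v : V} {T₁ T₂ : Finset V} (h : Split G S v T₁ T₂)
    (g1 : Blk G (insert v T₁)) (g2 : Blk G (insert v T₂)) : Blk G S := by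
  intro u hu x hx y hy hux huy hxy hn
  rcases (h.mem u).1 hu with rfl | hu1 | hu2
  · have hx' := ((h.mem x).1 hx).resolve_left hux.ne'
    have hy' := ((h.mem y).1 hy).resolve_left huy.ne'
    rcases hx' with hx1 | hx2 <;> rcases hy' with hy1 | hy2
    · exact h.blk_aux' g1 (mem_insert_self _ _) (mem_insert_of_mem hx1) (mem_insert_of_mem hy1)
        hux huy hxy hn
    · exact ⟨(· ∈ T₁), hx1, h.symm.disj y hy2, fun s _ t ht _ htu hst hs =>
        (mem_insert.1 (h.adj_mem hs ht hst)).resolve_left htu⟩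
    · exact ⟨(· ∈ T₂), hx2, h.disj y hy1, fun s _ t ht _ htu hst hs =>
        (mem_insert.1 (h.symm.adj_mem hs ht hst)).resolve_left htu⟩
    · exact h.symm.blk_aux' g2 (mem_insert_self _ _) (mem_insert_of_mem hx2)
        (mem_insert_of_mem hy2) hux huy hxy hn
  · exact h.blk_aux' g1 (mem_insert_of_mem hu1) (h.adj_mem hu1 hx hux) (h.adj_mem hu1 hy huy)
      hux huy hxy hn
  · exact h.symm.blk_aux' g2 (mem_insert_of_mem hu2) (h.symm.adj_mem hu2 hx hux)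
      (h.symm.adj_mem hu2 hy huy) hux huy hxy hn

omit [DecidableRel G.Adj] in
/-- A 2-connected set that is not a clique is not block-like. -/
lemma not_blk {S : Finset V} (hS : Conn G S) (hc : ¬ Clq G S)
    (h2 : ∀ v ∈ S, Conn G (S.erase v)) : ¬ Blk G S := by
  classical
  intro hb
  unfold Clq at hc
  push Not at hc
  obtain ⟨a, ha, b, hb', hab, hn⟩ := hc
  obtain ⟨s, hs, t, ht, htn, hst⟩ := hS.2 (S.filter fun x => x = a ∨ G.Adj a x)
    (filter_subset _ _) ⟨a, mem_filter.2 ⟨ha, Or.inl rfl⟩⟩ (fun h => by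
      have : b ∈ S.filter fun x => x = a ∨ G.Adj a x := by rw [h]; exact hb'
      rcases (mem_filter.1 this).2 with h | h
      · exact hab h.symm
      · exact hn h)
  have ht' : ¬ (t = a ∨ G.Adj a t) := fun h => htn (mem_filter.2 ⟨ht, h⟩)
  push Not at ht'
  obtain ⟨hsS, hs'⟩ := mem_filter.1 hs
  have has : G.Adj a s := hs'.resolve_left fun h => ht'.2 (h ▸ hst)
  obtain ⟨P, h1, h3, h4⟩ := hb s hsS a ha t ht has.symm hst (Ne.symm ht'.1) ht'.2
  obtain ⟨x, hx, y, hy, hyn, hxy⟩ := (h2 s hsS).2 ((S.erase s).filter P) (filter_subset _ _)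
    ⟨a, mem_filter.2 ⟨mem_erase.2 ⟨has.ne, ha⟩, h1⟩⟩ (fun h => by
      have : t ∈ (S.erase s).filter P := by rw [h]; exact mem_erase.2 ⟨hst.ne', ht⟩
      exact h3 (mem_filter.1 this).2)
  obtain ⟨hx1, hx2⟩ := mem_filter.1 hx
  exact hyn (mem_filter.2 ⟨hy, h4 x (mem_of_mem_erase hx1) y (mem_of_mem_erase hy)
    (ne_of_mem_erase hx1) (ne_of_mem_erase hy) hxy hx2⟩)

omit [DecidableRel G.Adj] in
/-- A clique `K` with three vertices whose deletion leaves a block-like set, and two further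
vertices, is everything. -/
lemma clq_absorb {S K R : Finset V} (h2 : ∀ v ∈ S, Conn G (S.erase v)) (hK : Clq G K)
    (hKS : K ⊆ S) (hRK : R ⊆ K) (hR3 : 2 < R.card) (hR : ∀ w ∈ R, Blk G (S.erase w))
    {x y : V} (hx : x ∈ K) (hy : y ∈ K) (hxy : x ≠ y) (hxR : x ∉ R) (hyR : y ∉ R)
    {b q : V} (hb : b ∈ S) (hbK : b ∉ K) (hq : q ∈ K) (hbq : G.Adj b q) :
    ∀ z ∈ K, G.Adj b z := by
  classical
  have hne : ∀ z ∈ K, b ≠ z := fun z hz h => hbK (h ▸ hz)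
  have me : ∀ {w z : V}, z ∈ S → z ≠ w → z ∈ S.erase w := fun hz h => mem_erase.2 ⟨h, hz⟩
  -- a second neighbour in `K`
  have hsec : ∃ q' ∈ K, q' ≠ q ∧ G.Adj b q' := by
    by_contra hno
    push Not at hno
    have hP : ∀ w ∈ R, w ≠ q → ∃ P : V → Prop, P b ∧ (∀ z ∈ K, z ≠ q → z ≠ w → ¬ P z) ∧
        ∀ s ∈ S, ∀ t ∈ S, s ≠ w → t ≠ w → s ≠ q → t ≠ q → G.Adj s t → P s → P t := by
      intro w hw hwq
      obtain ⟨z, hz, hzq, hzw⟩ : ∃ z ∈ K, z ≠ q ∧ z ≠ w := by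
        by_cases hxq : x = q
        · exact ⟨y, hy, fun h => hxy (hxq.trans h.symm), fun h => hyR (h ▸ hw)⟩
        · exact ⟨x, hx, hxq, fun h => hxR (h ▸ hw)⟩
      obtain ⟨P, h1, h3, h4⟩ := hR w hw q (me (hKS hq) hwq.symm) b (me hb (hne w (hRK hw))) z
        (me (hKS hz) hzw) hbq.symm (hK q hq z hz hzq.symm) (hne z hz) (hno z hz hzq)
      refine ⟨P, h1, fun z' hz' hz'q hz'w hPz => h3 ?_,
        fun s hs t ht hsw htw hsq htq => h4 s (me hs hsw) t (me ht htw) hsq htq⟩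
      by_cases hzz : z' = z
      · exact hzz ▸ hPz
      · exact h4 z' (me (hKS hz') hz'w) z (me (hKS hz) hzw) hz'q hzq (hK z' hz' z hz hzz) hPz
    obtain ⟨w, hw, w', hw', hww⟩ := one_lt_card.1
      (show 1 < (R.erase q).card by have := pred_card_le_card_erase (s := R) (a := q); omega)
    obtain ⟨P, p1, p2, p3⟩ := hP w (mem_of_mem_erase hw) (ne_of_mem_erase hw)
    obtain ⟨P', p1', p2', p3'⟩ := hP w' (mem_of_mem_erase hw') (ne_of_mem_erase hw')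
    have hwK := hRK (mem_of_mem_erase hw)
    have hwK' := hRK (mem_of_mem_erase hw')
    obtain ⟨a, ha, z, hz, hzn, haz⟩ := (h2 q (hKS hq)).2
      ((S.erase q).filter fun s => s ∉ K ∧ P s ∧ P' s) (filter_subset _ _)
      ⟨b, mem_filter.2 ⟨me hb (hne q hq), hbK, p1, p1'⟩⟩ (fun h => by
        have : w ∈ (S.erase q).filter fun s => s ∉ K ∧ P s ∧ P' s := by
          rw [h]; exact me (hKS hwK) (ne_of_mem_erase hw)
        exact (mem_filter.1 this).2.1 hwK)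
    obtain ⟨ha1, haK, hPa, hPa'⟩ := mem_filter.1 ha
    have k1 : z ≠ w → P z := fun h => p3 a (mem_of_mem_erase ha1) z (mem_of_mem_erase hz)
      (fun h => haK (h ▸ hwK)) h (ne_of_mem_erase ha1) (ne_of_mem_erase hz) haz hPa
    have k2 : z ≠ w' → P' z := fun h => p3' a (mem_of_mem_erase ha1) z (mem_of_mem_erase hz)
      (fun h => haK (h ▸ hwK')) h (ne_of_mem_erase ha1) (ne_of_mem_erase hz) haz hPa'
    by_cases hzK : z ∈ K
    · by_cases hzw : z = w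
      · have hzw' : z ≠ w' := fun h => hww (hzw.symm.trans h)
        exact p2' z hzK (ne_of_mem_erase hz) hzw' (k2 hzw')
      · exact p2 z hzK (ne_of_mem_erase hz) hzw (k1 hzw)
    · exact hzn (mem_filter.2 ⟨hz, hzK, k1 fun h => hzK (h ▸ hwK), k2 fun h => hzK (h ▸ hwK')⟩)
  -- two neighbours in `K` give all vertices of `K` but one
  have hall : ∀ w ∈ R, ∀ q₁ ∈ K, ∀ q₂ ∈ K, q₁ ≠ q₂ → q₁ ≠ w → q₂ ≠ w → G.Adj b q₁ → G.Adj b q₂ →
      ∀ z ∈ K, z ≠ w → G.Adj b z := by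
    intro w hw q₁ h1 q₂ h2' h12 h1w h2w a1 a2 z hz hzw
    by_cases hz1 : z = q₁
    · exact hz1 ▸ a1
    by_cases hz2 : z = q₂
    · exact hz2 ▸ a2
    exact (hR w hw).dia (me (hKS h1) h1w) (me hb (hne w (hRK hw))) (me (hKS hz) hzw)
      (me (hKS h2') h2w) a1.symm (hK q₁ h1 z hz (Ne.symm hz1)) (hne z hz) h12.symm a2
      (hK q₂ h2' z hz (Ne.symm hz2))
  obtain ⟨q', hq', hq'q, hbq'⟩ := hsec
  obtain ⟨w, hw⟩ : ((R.erase q).erase q').Nonempty := by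
    have h1 := pred_card_le_card_erase (s := R) (a := q)
    have h3 := pred_card_le_card_erase (s := R.erase q) (a := q')
    exact card_pos.1 (by omega)
  have hwR := mem_of_mem_erase (mem_of_mem_erase hw)
  have h1 := hall w hwR q hq q' hq' hq'q.symm (ne_of_mem_erase (mem_of_mem_erase hw)).symm
    (ne_of_mem_erase hw).symm hbq hbq'
  obtain ⟨w', hw', hww⟩ := exists_mem_ne (show 1 < R.card by omega) w
  have h3 := hall w' hw' x hx y hy hxy (fun h => hxR (h ▸ hw')) (fun h => hyR (h ▸ hw'))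
    (h1 x hx fun h => hxR (h ▸ hwR)) (h1 y hy fun h => hyR (h ▸ hwR))
  intro z hz
  by_cases hzw : z = w
  · exact h3 z hz (hzw ▸ hww.symm)
  · exact h1 z hz hzw

omit [DecidableRel G.Adj] in
/-- Three vertices whose deletion leaves a block-like set have at most one common neighbour. -/
lemma clq_of_three {S : Finset V} (hS : Conn G S) (h2 : ∀ v ∈ S, Conn G (S.erase v))
    {v₁ v₂ v₃ x y : V} (m1 : v₁ ∈ S) (m2 : v₂ ∈ S) (m3 : v₃ ∈ S) (h12 : v₁ ≠ v₂) (h13 : v₁ ≠ v₃)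
    (h23 : v₂ ≠ v₃) (b1 : Blk G (S.erase v₁)) (b2 : Blk G (S.erase v₂))
    (b3 : Blk G (S.erase v₃)) (hx : x ∈ S) (hy : y ∈ S) (hxy : x ≠ y)
    (x1 : G.Adj v₁ x) (x2 : G.Adj v₂ x) (x3 : G.Adj v₃ x)
    (y1 : G.Adj v₁ y) (y2 : G.Adj v₂ y) (y3 : G.Adj v₃ y) : Clq G S := by
  classical
  have me : ∀ {w z : V}, z ∈ S → z ≠ w → z ∈ S.erase w := fun hz h => mem_erase.2 ⟨h, hz⟩
  have a12 : G.Adj v₁ v₂ := b3.dia (me hx x3.ne') (me m1 h13) (me m2 h23) (me hy y3.ne')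
    x1.symm x2.symm h12 hxy.symm y1 y2.symm
  have a13 : G.Adj v₁ v₃ := b2.dia (me hx x2.ne') (me m1 h12) (me m3 h23.symm) (me hy y2.ne')
    x1.symm x3.symm h13 hxy.symm y1 y3.symm
  have a23 : G.Adj v₂ v₃ := b1.dia (me hx x1.ne') (me m2 h12.symm) (me m3 h13.symm)
    (me hy y1.ne') x2.symm x3.symm h23 hxy.symm y2 y3.symm
  have c1 : ∀ z ∈ S, ∀ z' ∈ S, z ≠ z' → z ≠ v₃ → z' ≠ v₃ → G.Adj v₁ z → G.Adj v₂ z →
      G.Adj v₁ z' → G.Adj v₂ z' → G.Adj z z' := fun z hz z' hz' hzz n1 n2 p1 p2 p3 p4 =>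
    b3.dia (me m1 h13) (me hz n1) (me hz' n2) (me m2 h23) p1 p3 hzz h12.symm p2.symm p4
  have c2 : ∀ z ∈ S, z ≠ v₃ → G.Adj v₁ z → G.Adj v₂ z → G.Adj z v₃ := by
    intro z hz n1 p1 p2
    by_cases hzx : z = x
    · exact hzx ▸ x3.symm
    exact b1.dia (me m2 h12.symm) (me hz p1.ne') (me m3 h13.symm) (me hx x1.ne') p2 a23 n1
      x2.ne' (c1 z hz x hx hzx n1 x3.ne' p1 p2 x1 x2) x3.symm
  set K := S.filter fun z => z = v₁ ∨ z = v₂ ∨ (G.Adj v₁ z ∧ G.Adj v₂ z) with hKdef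
  have hK : Clq G K := by
    intro z hz z' hz' hzz
    obtain ⟨hzS, hz1⟩ := mem_filter.1 hz
    obtain ⟨hzS', hz1'⟩ := mem_filter.1 hz'
    rcases hz1 with rfl | rfl | ⟨p1, p2⟩ <;> rcases hz1' with rfl | rfl | ⟨p3, p4⟩
    · exact (hzz rfl).elim
    · exact a12
    · exact p3
    · exact a12.symm
    · exact (hzz rfl).elim
    · exact p4
    · exact p1.symm
    · exact p2.symm
    · by_cases n1 : z = v₃
      · have n2 : z' ≠ v₃ := fun h => hzz (n1.trans h.symm)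
        exact n1 ▸ (c2 z' hzS' n2 p3 p4).symm
      by_cases n2 : z' = v₃
      · exact n2 ▸ c2 z hzS n1 p1 p2
      exact c1 z hzS z' hzS' hzz n1 n2 p1 p2 p3 p4
  have k1 : v₁ ∈ K := mem_filter.2 ⟨m1, Or.inl rfl⟩
  have k2 : v₂ ∈ K := mem_filter.2 ⟨m2, Or.inr (Or.inl rfl)⟩
  have k3 : v₃ ∈ K := mem_filter.2 ⟨m3, Or.inr (Or.inr ⟨a13, a23⟩)⟩
  by_cases hKS : K = S
  · exact hKS ▸ hK
  obtain ⟨q, hq, b, hb, hbK, hqb⟩ := hS.2 K (filter_subset _ _) ⟨v₁, k1⟩ hKS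
  have := clq_absorb (R := {v₁, v₂, v₃}) h2 hK (filter_subset _ _)
    (by intro z hz; simp only [mem_insert, mem_singleton] at hz; rcases hz with rfl | rfl | rfl <;>
      assumption)
    (by rw [card_eq_three.2 ⟨v₁, v₂, v₃, h12, h13, h23, rfl⟩]; norm_num)
    (by intro z hz; simp only [mem_insert, mem_singleton] at hz; rcases hz with rfl | rfl | rfl <;>
      assumption)
    (mem_filter.2 ⟨hx, Or.inr (Or.inr ⟨x1, x2⟩)⟩) (mem_filter.2 ⟨hy, Or.inr (Or.inr ⟨y1, y2⟩)⟩)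
    hxy (by simp [x1.ne', x2.ne', x3.ne']) (by simp [y1.ne', y2.ne', y3.ne']) hb hbK hq hqb.symm
  exact (hbK (mem_filter.2 ⟨hb, Or.inr (Or.inr ⟨(this v₁ k1).symm, (this v₂ k2).symm⟩)⟩)).elim

variable (G) in
/-- The number of non-neighbours of `v` in `S`. -/
def nd (S : Finset V) (v : V) : ℕ := (S.filter fun x => x ≠ v ∧ ¬ G.Adj v x).card

lemma sum_nd (S : Finset V) :
    (∑ v ∈ S, (nd G S v : ℝ)) = S.card * (S.card - 1) - F G S (fun _ _ => 1) := by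
  have h1 : ∑ _u ∈ S, ((S.card : ℝ) - 1) = S.card * (S.card - 1) := by
    rw [sum_const, nsmul_eq_mul]
  rw [← h1]
  unfold F
  rw [← sum_sub_distrib]
  refine sum_congr rfl fun v hv => ?_
  have h2 : (S.card : ℝ) - 1 = ∑ x ∈ S, if x ≠ v then (1 : ℝ) else 0 := by
    rw [sum_boole, filter_ne' S v, card_erase_of_mem hv, Nat.cast_sub (card_pos.2 ⟨v, hv⟩)]
    simp
  rw [h2, ← sum_sub_distrib, nd, ← sum_boole]
  refine sum_congr rfl fun x _ => ?_
  by_cases hxv : x = v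
  · simp [hxv]
  · by_cases hh : G.Adj v x <;> simp [hxv, hh]

lemma nd_three {S : Finset V} (hS : Conn G S) (hc : ¬ Clq G S) (h2 : ∀ v ∈ S, Conn G (S.erase v))
    {v₁ v₂ v₃ : V} (m1 : v₁ ∈ S) (m2 : v₂ ∈ S) (m3 : v₃ ∈ S) (h12 : v₁ ≠ v₂) (h13 : v₁ ≠ v₃)
    (h23 : v₂ ≠ v₃) (b1 : Blk G (S.erase v₁)) (b2 : Blk G (S.erase v₂))
    (b3 : Blk G (S.erase v₃)) : S.card ≤ nd G S v₁ + nd G S v₂ + nd G S v₃ + 4 := by
  have hcom : (S.filter fun x => G.Adj v₁ x ∧ G.Adj v₂ x ∧ G.Adj v₃ x).card ≤ 1 := by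
    rw [card_le_one]
    intro x hx y hy
    by_contra hxy
    obtain ⟨hx, x1, x2, x3⟩ := mem_filter.1 hx
    obtain ⟨hy, y1, y2, y3⟩ := mem_filter.1 hy
    exact hc (clq_of_three hS h2 m1 m2 m3 h12 h13 h23 b1 b2 b3 hx hy hxy x1 x2 x3 y1 y2 y3)
  have hsub : S ⊆ (((S.filter fun x => x ≠ v₁ ∧ ¬ G.Adj v₁ x) ∪
      (S.filter fun x => x ≠ v₂ ∧ ¬ G.Adj v₂ x)) ∪ (S.filter fun x => x ≠ v₃ ∧ ¬ G.Adj v₃ x)) ∪
      ((S.filter fun x => G.Adj v₁ x ∧ G.Adj v₂ x ∧ G.Adj v₃ x) ∪ {v₁, v₂, v₃}) := by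
    intro x hx
    simp only [mem_union, mem_filter, mem_insert, mem_singleton]
    tauto
  have h3 : ({v₁, v₂, v₃} : Finset V).card ≤ 3 := card_le_three
  have i1 := card_le_card hsub
  have i2 := card_union_le (((S.filter fun x => x ≠ v₁ ∧ ¬ G.Adj v₁ x) ∪
      (S.filter fun x => x ≠ v₂ ∧ ¬ G.Adj v₂ x)) ∪ (S.filter fun x => x ≠ v₃ ∧ ¬ G.Adj v₃ x))
      ((S.filter fun x => G.Adj v₁ x ∧ G.Adj v₂ x ∧ G.Adj v₃ x) ∪ {v₁, v₂, v₃})
  have i3 := card_union_le ((S.filter fun x => x ≠ v₁ ∧ ¬ G.Adj v₁ x) ∪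
      (S.filter fun x => x ≠ v₂ ∧ ¬ G.Adj v₂ x)) (S.filter fun x => x ≠ v₃ ∧ ¬ G.Adj v₃ x)
  have i4 := card_union_le (S.filter fun x => x ≠ v₁ ∧ ¬ G.Adj v₁ x)
      (S.filter fun x => x ≠ v₂ ∧ ¬ G.Adj v₂ x)
  have i5 := card_union_le (S.filter fun x => G.Adj v₁ x ∧ G.Adj v₂ x ∧ G.Adj v₃ x)
    ({v₁, v₂, v₃} : Finset V)
  unfold nd
  omega

/-- The counting lemma: many good deletions force many non-edges. -/
lemma count_lemma {S R : Finset V} (hS : Conn G S) (hc : ¬ Clq G S)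
    (h2 : ∀ v ∈ S, Conn G (S.erase v)) (h3 : 3 ≤ S.card) (hRS : R ⊆ S)
    (hR : ∀ v ∈ R, Blk G (S.erase v)) :
    ((R.card : ℝ) - 2) * F G S (fun _ _ => 1) ≤
      20 * (S.card - 2) * (S.card * (S.card - 1) - F G S (fun _ _ => 1)) := by
  have hN := sum_nd (G := G) S
  have hlt := F_one_lt hc
  have hN1 : (1 : ℝ) ≤ S.card * (S.card - 1) - F G S (fun _ _ => 1) := by
    rw [← hN, ← Nat.cast_sum]
    have : (0 : ℝ) < ((∑ v ∈ S, nd G S v : ℕ) : ℝ) := by rw [Nat.cast_sum, hN]; linarith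
    have h0 : 0 < ∑ v ∈ S, nd G S v := by exact_mod_cast this
    exact_mod_cast h0
  have hM0 : 0 ≤ F G S (fun _ _ => 1) := F_nonneg fun _ _ _ _ _ => zero_le_one
  have hk : (3 : ℝ) ≤ S.card := by exact_mod_cast h3
  have hRk : (R.card : ℝ) ≤ S.card := by exact_mod_cast card_le_card hRS
  set L := R.filter fun v => 3 * nd G S v + 4 < S.card with hL
  have hL2 : L.card ≤ 2 := by
    by_contra hcon
    obtain ⟨a, ha, b, hb, c, hc', hab, hac, hbc⟩ := two_lt_card.1 (not_le.1 hcon)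
    obtain ⟨ha, ha'⟩ := mem_filter.1 ha
    obtain ⟨hb, hb'⟩ := mem_filter.1 hb
    obtain ⟨hc', hc''⟩ := mem_filter.1 hc'
    have := nd_three hS hc h2 (hRS ha) (hRS hb) (hRS hc') hab hac hbc (hR a ha) (hR b hb)
      (hR c hc')
    omega
  have hlow : ((R \ L).card : ℝ) * (S.card - 4) ≤ 3 * ∑ v ∈ S, (nd G S v : ℝ) := by
    have h4 : ∑ v ∈ R \ L, (nd G S v : ℝ) ≤ ∑ v ∈ S, (nd G S v : ℝ) :=
      sum_le_sum_of_subset_of_nonneg (sdiff_subset.trans hRS) fun _ _ _ => by positivity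
    have h5 : ∑ _v ∈ R \ L, ((S.card : ℝ) - 4) ≤ ∑ v ∈ R \ L, 3 * (nd G S v : ℝ) := by
      refine sum_le_sum fun v hv => ?_
      obtain ⟨hv1, hv2⟩ := mem_sdiff.1 hv
      have : S.card ≤ 3 * nd G S v + 4 := not_lt.1 fun h => hv2 (mem_filter.2 ⟨hv1, h⟩)
      have h6 : (S.card : ℝ) ≤ 3 * nd G S v + 4 := by exact_mod_cast this
      linarith
    rw [sum_const, nsmul_eq_mul, ← mul_sum] at h5
    linarith
  have hRL : (R.card : ℝ) - 2 ≤ (R \ L).card := by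
    have : R.card ≤ (R \ L).card + L.card := card_le_card_sdiff_add_card
    have h6 : R.card ≤ (R \ L).card + 2 := by omega
    have h7 : (R.card : ℝ) ≤ (R \ L).card + 2 := by exact_mod_cast h6
    linarith
  rw [hN] at hlow
  have hj : (0 : ℝ) ≤ (R \ L).card := by positivity
  rcases le_or_gt S.card 5 with h5 | h5
  · have h6 : (S.card : ℝ) ≤ 5 := by exact_mod_cast h5
    generalize F G S (fun _ _ => 1) = M at *
    generalize (S.card : ℝ) = k at *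
    have h7 : M ≤ 20 := by nlinarith
    have h8 : ((R.card : ℝ) - 2) * M ≤ (k - 2) * 20 :=
      (mul_le_mul_of_nonneg_right (by linarith) hM0).trans
        (mul_le_mul_of_nonneg_left h7 (by linarith))
    nlinarith
  · have h6 : (6 : ℝ) ≤ S.card := by exact_mod_cast h5
    generalize F G S (fun _ _ => 1) = M at *
    generalize (S.card : ℝ) = k at *
    generalize ((R \ L).card : ℝ) = j at *
    have h7 : ((R.card : ℝ) - 2) * M ≤ j * (k * (k - 1)) :=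
      (mul_le_mul_of_nonneg_right hRL hM0).trans (mul_le_mul_of_nonneg_left (by linarith) hj)
    have h8 : 3 * (k * (k - 1)) ≤ 20 * (k - 2) * (k - 4) := by nlinarith
    have h9 := mul_le_mul_of_nonneg_left h8 hj
    have h10 := mul_le_mul_of_nonneg_left hlow (show 0 ≤ 20 * (k - 2) by linarith)
    nlinarith

end Pool.Agent.P.MP_e55f1b_co
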