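import Pool.Agent.P.MP_e55f1b_co.Ineq

/-!
The equality case of the main inequality.
-/

open Finset

namespace Pool.Agent.P.MP_e55f1b_co

variable {V : Type*} [DecidableEq V] (G : SimpleGraph V) [DecidableRel G.Adj] (w : V → V → ℝ)

/-- Consequences of equality in the main inequality. -/
structure Good (S : Finset V) (d : V → ℝ) : Prop where
  ext : ∀ u ∈ S, ∃ g : V → ℝ, Q G w S d g = 0 ∧ g u = 1
  sep : ∀ P : V → Prop,
    (∀ a ∈ S, ∀ b ∈ S, G.Adj a b → (P a ↔ ¬ P b) → ∃ c ∈ S, G.Adj a c ∧ G.Adj b c) →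
    ∀ y ∈ S, ∀ z ∈ S, P y → ¬ P z → ∃ g : V → ℝ, Q G w S d g = 0 ∧ g y = 1 ∧ g z = 0
  blk : ∀ u ∈ S, ∀ a ∈ S, ∀ b ∈ S, G.Adj u a → G.Adj u b → a ≠ b → ¬ G.Adj a b →
    ∃ P : V → Prop, P a ∧ ¬ P b ∧ ∀ x ∈ S, ∀ y ∈ S, x ≠ u → y ≠ u → G.Adj x y → P x → P y
  tri : (∀ a ∈ S, ∀ b ∈ S, ∀ c ∈ S, G.Adj a b → G.Adj a c → ¬ G.Adj b c) →
    F G S (fun _ _ => 1) = 2 * (S.card - 1)
  val : ∀ a ∈ S, ∀ b ∈ S, G.Adj a b → 0 < w a b ∧ w a b < 1

variable {G w}

lemma good_clq {S : Finset V} (h2 : 2 ≤ S.card) (hS : Clq G S) {d : V → ℝ}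
    (hd : PSD G w S d) (heq : 2 * F G S w = qq G S + sg G w S d) : Good G w S d := by
  have hk : (2 : ℝ) ≤ S.card := by exact_mod_cast h2
  have hkpos : (0 : ℝ) < S.card := by linarith
  have hA : 0 ≤ F G S (fun a b => Q G w S d (pv a b)) := F_nonneg fun _ _ _ _ _ => hd _
  have hB : 0 ≤ F G S (fun a b => (S.card * w a b - (S.card - 1)) ^ 2) :=
    F_nonneg fun _ _ _ _ _ => sq_nonneg _
  have hB' : F G S (fun a b => (S.card * w a b - (S.card - 1)) ^ 2)
      = S.card ^ 2 * F G S (fun u v => w u v ^ 2) + (-2 * S.card * (S.card - 1)) * F G S w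
        + (S.card - 1) ^ 2 * (S.card * (S.card - 1)) := by
    rw [← F_one_clq hS, ← F_mul, ← F_mul, ← F_mul, ← F_add, ← F_add]
    exact F_congr fun _ _ _ _ _ => by ring
  have hA' := F_pv_clq (w := w) hS d
  unfold qq sg at heq
  rw [F_one_clq hS] at heq
  have hsum : S.card * F G S (fun a b => Q G w S d (pv a b))
      + 2 * F G S (fun a b => (S.card * w a b - (S.card - 1)) ^ 2) = 0 := by
    rw [hA', hB']
    have : F G S w = (S.card * (S.card - 1) - S.card + 1
      + (∑ u ∈ S, d u + F G S fun u v => w u v ^ 2)) / 2 := by linarith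
    rw [this]
    ring
  have hA0 : F G S (fun a b => Q G w S d (pv a b)) = 0 := by
    have := mul_nonneg hkpos.le hA
    have h1 : S.card * F G S (fun a b => Q G w S d (pv a b)) = 0 := by linarith
    exact (mul_eq_zero.1 h1).resolve_left hkpos.ne'
  have hB0 : F G S (fun a b => (S.card * w a b - (S.card - 1)) ^ 2) = 0 := by
    rw [hA0] at hsum; linarith
  have hker := F_eq_zero (fun _ _ _ _ _ => hd _) hA0
  have hval := F_eq_zero (fun _ _ _ _ _ => sq_nonneg _) hB0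
  refine ⟨fun u hu => ?_, fun P hP y hy z hz hPy hPz => ?_,
    fun u _ a ha b hb _ _ hab hn => (hn (hS a ha b hb hab)).elim, fun htri => ?_,
    fun a ha b hb hab => ?_⟩
  · obtain ⟨v, hv, hvu⟩ := exists_mem_ne (by omega : 1 < S.card) u
    exact ⟨pv u v, hker u hu v hv (hS u hu v hv hvu.symm), by simp [pv]⟩
  · have hyz : y ≠ z := fun h => hPz (h ▸ hPy)
    obtain ⟨c, hc, hyc, hzc⟩ := hP y hy z hz (hS y hy z hz hyz) (by tauto)
    exact ⟨pv y c, hker y hy c hc hyc, by simp [pv], by simp [pv, hyz.symm, hzc.ne]⟩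
  · have h3 : S.card = 2 := by
      by_contra hc
      obtain ⟨a, ha, b, hb, c, hc, hab, hac, hbc⟩ := two_lt_card.1 (by omega : 2 < S.card)
      exact htri a ha b hb c hc (hS a ha b hb hab) (hS a ha c hc hac) (hS b hb c hc hbc)
    rw [F_one_clq hS, h3]
    norm_num
  · have h1 := pow_eq_zero_iff (two_ne_zero) |>.1 (hval a ha b hb hab)
    constructor
    · by_contra hc
      have := mul_nonneg hkpos.le (neg_nonneg.2 (not_lt.1 hc))
      nlinarith
    · by_contra hc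
      have := mul_nonneg hkpos.le (sub_nonneg.2 (not_lt.1 hc))
      nlinarith

section Split

variable {S : Finset V} {v : V} {T₁ T₂ : Finset V} {d : V → ℝ} {a b : ℝ}

omit [DecidableRel G.Adj] in
lemma Split.cases (h : Split G S v T₁ T₂) {x : V} (hx : x ∈ S) :
    x ∈ insert v T₁ ∨ x ∈ T₂ := by
  rcases (h.mem x).1 hx with rfl | hx | hx
  · exact Or.inl (mem_insert_self _ _)
  · exact Or.inl (mem_insert_of_mem hx)
  · exact Or.inr hx

omit [DecidableRel G.Adj] in
lemma Split.adj_mem (h : Split G S v T₁ T₂) {x y : V} (hx : x ∈ T₁) (hy : y ∈ S)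
    (hxy : G.Adj x y) : y ∈ insert v T₁ :=
  (h.cases hy).resolve_right fun hy2 => h.noadj x hx y hy2 hxy

lemma Split.extend (h : Split G S v T₁ T₂) (hab : a + b = d v)
    (g2 : Good G w (insert v T₂) (Function.update d v b)) {g : V → ℝ}
    (hg : Q G w (insert v T₁) (Function.update d v a) g = 0) :
    ∃ g' : V → ℝ, Q G w S d g' = 0 ∧ ∀ u ∈ insert v T₁, g' u = g u := by
  obtain ⟨g₂, h1, h2⟩ := g2.ext v (mem_insert_self _ _)
  obtain ⟨g', h3, h4, -⟩ := h.glue (w := w) d hab (x := g) (y := fun u => g v * g₂ u)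
    (by simp [h2])
  refine ⟨g', ?_, h4⟩
  rw [h3, hg, Q_smul, h1]
  simp

omit [DecidableRel G.Adj] in
lemma Split.hyp_restrict (h : Split G S v T₁ T₂) {P : V → Prop}
    (hP : ∀ a ∈ S, ∀ b ∈ S, G.Adj a b → (P a ↔ ¬ P b) → ∃ c ∈ S, G.Adj a c ∧ G.Adj b c) :
    ∀ a ∈ insert v T₁, ∀ b ∈ insert v T₁, G.Adj a b → (P a ↔ ¬ P b) →
      ∃ c ∈ insert v T₁, G.Adj a c ∧ G.Adj b c := by
  intro x hx y hy hxy hPxy
  obtain ⟨c, hc, hxc, hyc⟩ := hP x (h.sub hx) y (h.sub hy) hxy hPxy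
  refine ⟨c, ?_, hxc, hyc⟩
  rcases mem_insert.1 hx with rfl | hx
  · rcases mem_insert.1 hy with rfl | hy
    · exact (G.irrefl hxy).elim
    · exact h.adj_mem hy hc hyc
  · exact h.adj_mem hx hc hxc

lemma Split.sep_aux (h : Split G S v T₁ T₂) (hab : a + b = d v)
    (g1 : Good G w (insert v T₁) (Function.update d v a))
    (g2 : Good G w (insert v T₂) (Function.update d v b)) (P : V → Prop)
    (hP : ∀ a ∈ S, ∀ b ∈ S, G.Adj a b → (P a ↔ ¬ P b) → ∃ c ∈ S, G.Adj a c ∧ G.Adj b c)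
    {y z : V} (hy : y ∈ insert v T₁) (hz : z ∈ S) (hPy : P y) (hPz : ¬ P z) :
    ∃ g : V → ℝ, Q G w S d g = 0 ∧ g y = 1 ∧ g z = 0 := by
  rcases h.cases hz with hz1 | hz2
  · obtain ⟨g, h1, h2, h3⟩ := g1.sep P (h.hyp_restrict hP) y hy z hz1 hPy hPz
    obtain ⟨g', h4, h5⟩ := h.extend hab g2 h1
    exact ⟨g', h4, by rw [h5 y hy, h2], by rw [h5 z hz1, h3]⟩
  · by_cases hPv : P v
    · obtain ⟨g₂, h1, h2, h3⟩ := g2.sep P (h.symm.hyp_restrict hP) v (mem_insert_self _ _) z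
        (mem_insert_of_mem hz2) hPv hPz
      obtain ⟨g₁, h4, h5⟩ := g1.ext y hy
      obtain ⟨g', h6, h7, h8⟩ := h.glue (w := w) d hab (x := g₁) (y := fun u => g₁ v * g₂ u)
        (by simp [h2])
      refine ⟨g', ?_, by rw [h7 y hy, h5], by rw [h8 z (mem_insert_of_mem hz2), h3, mul_zero]⟩
      rw [h6, h4, Q_smul, h1]
      simp
    · obtain ⟨g₁, h1, h2, h3⟩ := g1.sep P (h.hyp_restrict hP) y hy v (mem_insert_self _ _) hPy hPv
      obtain ⟨g', h6, h7, h8⟩ := h.glue (w := w) d hab (x := g₁) (y := fun _ => 0) h3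
      refine ⟨g', ?_, by rw [h7 y hy, h2], by rw [h8 z (mem_insert_of_mem hz2)]⟩
      rw [h6, h1, Q_zero]
      simp

lemma Split.blk_aux (h : Split G S v T₁ T₂)
    (g1 : Good G w (insert v T₁) (Function.update d v a)) {u x y : V}
    (hu : u ∈ insert v T₁) (hx : x ∈ insert v T₁) (hy : y ∈ insert v T₁)
    (hux : G.Adj u x) (huy : G.Adj u y) (hxy : x ≠ y) (hn : ¬ G.Adj x y) :
    ∃ P : V → Prop, P x ∧ ¬ P y ∧ ∀ s ∈ S, ∀ t ∈ S, s ≠ u → t ≠ u → G.Adj s t → P s → P t := by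
  obtain ⟨P, h1, h2, h3⟩ := g1.blk u hu x hx y hy hux huy hxy hn
  have hnot : ∀ s ∈ insert v T₁, s ∉ T₂ := by
    intro s hs
    rcases mem_insert.1 hs with rfl | hs
    · exact h.n2
    · exact h.disj s hs
  refine ⟨fun s => if s ∈ T₂ then P v else P s, by simpa [hnot x hx] using h1,
    by simpa [hnot y hy] using h2, fun s hs t ht hsu htu hst => ?_⟩
  rcases h.cases hs with hs1 | hs2
  · rcases h.cases ht with ht1 | ht2
    · simpa [hnot s hs1, hnot t ht1] using h3 s hs1 t ht1 hsu htu hst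
    · rcases mem_insert.1 hs1 with rfl | hs1
      · simp [h.n2, ht2]
      · exact (h.noadj s hs1 t ht2 hst).elim
  · rcases mem_insert.1 (h.symm.adj_mem hs2 ht hst) with rfl | ht2
    · simp [h.n2, hs2]
    · simp [ht2, hs2]

lemma Split.good (h : Split G S v T₁ T₂) (hab : a + b = d v)
    (g1 : Good G w (insert v T₁) (Function.update d v a))
    (g2 : Good G w (insert v T₂) (Function.update d v b)) : Good G w S d := by
  have hba : b + a = d v := by rw [add_comm, hab]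
  refine ⟨fun u hu => ?_, fun P hP y hy z hz hPy hPz => ?_,
    fun u hu x hx y hy hux huy hxy hn => ?_, fun htri => ?_, fun x hx y hy hxy => ?_⟩
  · rcases h.cases hu with hu1 | hu2
    · obtain ⟨g, h1, h2⟩ := g1.ext u hu1
      obtain ⟨g', h3, h4⟩ := h.extend hab g2 h1
      exact ⟨g', h3, by rw [h4 u hu1, h2]⟩
    · obtain ⟨g, h1, h2⟩ := g2.ext u (mem_insert_of_mem hu2)
      obtain ⟨g', h3, h4⟩ := h.symm.extend hba g1 h1
      exact ⟨g', h3, by rw [h4 u (mem_insert_of_mem hu2), h2]⟩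
  · rcases h.cases hy with hy1 | hy2
    · exact h.sep_aux hab g1 g2 P hP hy1 hz hPy hPz
    · exact h.symm.sep_aux hba g2 g1 P hP (mem_insert_of_mem hy2) hz hPy hPz
  · rcases (h.mem u).1 hu with rfl | hu1 | hu2
    · have hx' := ((h.mem x).1 hx).resolve_left hux.ne'
      have hy' := ((h.mem y).1 hy).resolve_left huy.ne'
      rcases hx' with hx1 | hx2 <;> rcases hy' with hy1 | hy2
      · exact h.blk_aux g1 (mem_insert_self _ _) (mem_insert_of_mem hx1) (mem_insert_of_mem hy1)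
          hux huy hxy hn
      · exact ⟨(· ∈ T₁), hx1, h.symm.disj y hy2, fun s _ t ht _ htu hst hs =>
          (mem_insert.1 (h.adj_mem hs ht hst)).resolve_left htu⟩
      · exact ⟨(· ∈ T₂), hx2, h.disj y hy1, fun s _ t ht _ htu hst hs =>
          (mem_insert.1 (h.symm.adj_mem hs ht hst)).resolve_left htu⟩
      · exact h.symm.blk_aux g2 (mem_insert_self _ _) (mem_insert_of_mem hx2)
          (mem_insert_of_mem hy2) hux huy hxy hn
    · exact h.blk_aux g1 (mem_insert_of_mem hu1) (h.adj_mem hu1 hx hux) (h.adj_mem hu1 hy huy)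
        hux huy hxy hn
    · exact h.symm.blk_aux g2 (mem_insert_of_mem hu2) (h.symm.adj_mem hu2 hx hux)
        (h.symm.adj_mem hu2 hy huy) hux huy hxy hn
  · rw [h.F_eq, g1.tri fun x hx y hy z hz => htri x (h.sub hx) y (h.sub hy) z (h.sub hz),
      g2.tri fun x hx y hy z hz => htri x (h.symm.sub hx) y (h.symm.sub hy) z (h.symm.sub hz)]
    linarith [h.card]
  · rcases (h.mem x).1 hx with rfl | hx1 | hx2
    · rcases h.cases hy with hy1 | hy2
      · exact g1.val x (mem_insert_self _ _) y hy1 hxy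
      · exact g2.val x (mem_insert_self _ _) y (mem_insert_of_mem hy2) hxy
    · exact g1.val x (mem_insert_of_mem hx1) y (h.adj_mem hx1 hy hxy) hxy
    · exact g2.val x (mem_insert_of_mem hx2) y (h.symm.adj_mem hx2 hy hxy) hxy

end Split

/-- The equality case. -/
theorem good_of_eq : ∀ S, Conn G S → ∀ d, PSD G w S d → 2 ≤ S.card →
    2 * F G S w = qq G S + sg G w S d → Good G w S d := by
  refine conn_induction (fun S _ hS d hd h2 heq => good_clq h2 hS hd heq) ?_ ?_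
  · intro S v T₁ T₂ h c1 c2 ih1 ih2 d hd _ heq
    obtain ⟨a, b, hab, h1, h2⟩ := h.psd hd
    have i1 := ineq_add c1 h1
    have i2 := ineq_add c2 h2
    rw [h.F_eq, h.qq_eq, h.sg_eq d hab] at heq
    exact h.good hab (ih1 _ h1 h.two_le (by linarith)) (ih2 _ h2 h.symm.two_le (by linarith))
  · intro S hS hc h3 ih d hd _ heq
    exfalso
    obtain ⟨D, hD, h⟩ := ineq_avg hS h3 hd fun v hv =>
      ⟨(ih v hv).1, ineq _ (ih v hv).1 d (hd.mono (erase_subset _ _))⟩
    have h1 := F_one_lt hc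
    have h2 := ineq S hS d hd
    have h4 := hS.one_le_qq (by omega)
    have h5 : qq G S = sg G w S d := by
      have h7 : (qq G S + sg G w S d) ^ 2 = 4 * F G S w ^ 2 := by rw [← heq]; ring
      have : (qq G S - sg G w S d) ^ 2 ≤ 0 := by nlinarith
      have := pow_eq_zero_iff two_ne_zero |>.1 (le_antisymm this (sq_nonneg _))
      linarith
    have h6 : F G S w = qq G S := by linarith
    rw [h6, ← h5] at h
    nlinarith

end Pool.Agent.P.MP_e55f1b_co
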