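import Pool.Agent.P.MP_e55f1b_co.GapA

/-!
Stability of the main inequality on block-like sets: the edge weights are close to their optimal
values and there are families of almost null vectors.
-/

open Finset

namespace Pool.Agent.P.MP_e55f1b_co

variable {V : Type} [DecidableEq V] (G : SimpleGraph V) [DecidableRel G.Adj] (w : V → V → ℝ)

/-- The deficit in the additive inequality. -/
noncomputable def df (S : Finset V) (d : V → ℝ) : ℝ := qq G S + sg G w S d - 2 * F G S w

/-- The number of common neighbours inside `S`. -/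
def cn (S : Finset V) (a b : V) : ℕ := (S.filter fun c => G.Adj a c ∧ G.Adj b c).card

/-- The optimal weight of an edge. -/
noncomputable def cv (S : Finset V) (a b : V) : ℝ :=
  ((cn G S a b : ℝ) + 1) / ((cn G S a b : ℝ) + 2)

/-- A finite family of vectors with total energy at most `B` and prescribed variances `ν`. -/
def Fam (S : Finset V) (d ν : V → ℝ) (B : ℝ) : Prop :=
  ∃ (ι : Type) (_ : Fintype ι) (g : ι → V → ℝ),
    ∑ i, Q G w S d (g i) ≤ B ∧ ∀ u ∈ S, ∑ i, g i u ^ 2 = ν u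

variable {G w}

lemma df_nonneg {S : Finset V} (hS : Conn G S) {d : V → ℝ} (hd : PSD G w S d) :
    0 ≤ df G w S d := by
  have := ineq_add hS hd
  unfold df
  linarith

lemma Split.df_eq {S : Finset V} {v : V} {T₁ T₂ : Finset V} (h : Split G S v T₁ T₂)
    (d : V → ℝ) {a b : ℝ} (hab : a + b = d v) :
    df G w S d = df G w (insert v T₁) (Function.update d v a)
      + df G w (insert v T₂) (Function.update d v b) := by
  unfold df
  rw [h.F_eq, h.qq_eq, h.sg_eq d hab]
  ring

lemma clq_identity {S : Finset V} (hS : Clq G S) (d : V → ℝ) :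
    S.card * F G S (fun a b => Q G w S d (pv a b))
      + 2 * F G S (fun a b => (S.card * w a b - (S.card - 1)) ^ 2)
      = 2 * S.card * (S.card - 1) * df G w S d := by
  have hB' : F G S (fun a b => (S.card * w a b - (S.card - 1)) ^ 2)
      = S.card ^ 2 * F G S (fun u v => w u v ^ 2) + (-2 * S.card * (S.card - 1)) * F G S w
        + (S.card - 1) ^ 2 * (S.card * (S.card - 1)) := by
    rw [← F_one_clq hS, ← F_mul, ← F_mul, ← F_mul, ← F_add, ← F_add]
    exact F_congr fun _ _ _ _ _ => by ring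
  rw [F_pv_clq hS, hB']
  unfold df qq sg
  rw [F_one_clq hS]
  ring

lemma clq_pv_le {S : Finset V} (hne : S.Nonempty) (hS : Clq G S) (d : V → ℝ) :
    F G S (fun a b => Q G w S d (pv a b)) ≤ 2 * (S.card - 1) * df G w S d := by
  have hk : (0 : ℝ) < S.card := by exact_mod_cast hne.card_pos
  have h1 := clq_identity (w := w) hS d
  have hB : 0 ≤ F G S (fun a b => (S.card * w a b - (S.card - 1)) ^ 2) :=
    F_nonneg fun _ _ _ _ _ => sq_nonneg _
  refine le_of_mul_le_mul_left ?_ hk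
  linarith

lemma cn_clq {S : Finset V} (hS : Clq G S) {a b : V} (ha : a ∈ S) (hb : b ∈ S) (hab : G.Adj a b) :
    cn G S a b + 2 = S.card := by
  have : (S.filter fun c => G.Adj a c ∧ G.Adj b c) = (S.erase a).erase b := by
    ext c
    simp only [mem_filter, mem_erase]
    exact ⟨fun ⟨h1, h2, h3⟩ => ⟨h3.ne', h2.ne', h1⟩,
      fun ⟨h1, h2, h3⟩ => ⟨h3, hS a ha c h3 (Ne.symm h2), hS b hb c h3 (Ne.symm h1)⟩⟩
  have hb' : b ∈ S.erase a := mem_erase.2 ⟨hab.ne', hb⟩
  have h1 := card_erase_add_one hb'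
  have h2 := card_erase_add_one ha
  unfold cn
  rw [this]
  omega

lemma val_clq {S : Finset V} (hne : S.Nonempty) (hS : Clq G S) {d : V → ℝ} (hd : PSD G w S d) :
    F G S (fun a b => (w a b - cv G S a b) ^ 2) ≤ df G w S d := by
  have hk : (0 : ℝ) < S.card := by exact_mod_cast hne.card_pos
  have h1 := clq_identity (w := w) hS d
  have hA : 0 ≤ F G S (fun a b => Q G w S d (pv a b)) := F_nonneg fun _ _ _ _ _ => hd _
  have h2 : F G S (fun a b => (S.card * w a b - (S.card - 1)) ^ 2)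
      = S.card ^ 2 * F G S (fun a b => (w a b - cv G S a b) ^ 2) := by
    rw [← F_mul]
    refine F_congr fun a ha b hb hab => ?_
    have h3 : (cn G S a b : ℝ) + 2 = S.card := by exact_mod_cast cn_clq hS ha hb hab
    unfold cv
    rw [← h3]
    field_simp
    ring
  have hc : Conn G S := ⟨hne, fun T hT ⟨a, ha⟩ hTS => by
    obtain ⟨b, hb, hbT⟩ := exists_of_ssubset (Finset.ssubset_iff_subset_ne.2 ⟨hT, hTS⟩)
    exact ⟨a, ha, b, hb, hbT, hS a (hT ha) b hb fun h => hbT (h ▸ ha)⟩⟩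
  have h4 := df_nonneg hc hd
  have h5 := mul_nonneg hk.le hA
  have h6 := mul_nonneg hk.le h4
  rw [h2] at h1
  refine le_of_mul_le_mul_left ?_ (pow_pos hk 2)
  nlinarith

lemma Split.cn_eq {S : Finset V} {v : V} {T₁ T₂ : Finset V} (h : Split G S v T₁ T₂) {a b : V}
    (ha : a ∈ insert v T₁) (hb : b ∈ insert v T₁) (hab : G.Adj a b) :
    cn G (insert v T₁) a b = cn G S a b := by
  unfold cn
  congr 1
  ext c
  simp only [mem_filter]
  refine ⟨fun ⟨h1, h2⟩ => ⟨h.sub h1, h2⟩, fun ⟨h1, h2, h3⟩ => ⟨?_, h2, h3⟩⟩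
  rcases mem_insert.1 ha with rfl | ha
  · rcases mem_insert.1 hb with rfl | hb
    · exact (G.irrefl hab).elim
    · exact h.adj_mem hb h1 h3
  · exact h.adj_mem ha h1 h2

/-- The edge weights are close to the optimal ones. -/
theorem val_blk : ∀ S, Conn G S → Blk G S → ∀ d, PSD G w S d →
    F G S (fun a b => (w a b - cv G S a b) ^ 2) ≤ df G w S d := by
  refine conn_induction (fun S hne hS _ d hd => val_clq hne hS hd) ?_ ?_
  · intro S v T₁ T₂ h _ _ ih1 ih2 hb d hd
    obtain ⟨a, b, hab, h1, h2⟩ := h.psd hd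
    rw [h.F_eq, h.df_eq d hab]
    refine add_le_add (le_of_eq_of_le ?_ (ih1 (hb.mono h.sub) _ h1))
      (le_of_eq_of_le ?_ (ih2 (hb.mono h.symm.sub) _ h2))
    · exact F_congr fun x hx y hy hxy => by unfold cv; rw [h.cn_eq hx hy hxy]
    · exact F_congr fun x hx y hy hxy => by unfold cv; rw [h.symm.cn_eq hx hy hxy]
  · intro S hS hc _ ih hb
    exact (not_blk hS hc (fun v hv => (ih v hv).1) hb).elim

omit [DecidableRel G.Adj] in
/-- A block-like connected set without triangles spans a tree. -/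
theorem tri_blk [DecidableRel G.Adj] : ∀ S, Conn G S → Blk G S →
    (∀ a ∈ S, ∀ b ∈ S, ∀ c ∈ S, G.Adj a b → G.Adj a c → ¬ G.Adj b c) →
    F G S (fun _ _ => 1) = 2 * (S.card - 1) := by
  refine conn_induction (fun S hne hS _ htri => ?_) ?_ ?_
  · have h3 : S.card ≤ 2 := by
      by_contra hc
      obtain ⟨a, ha, b, hb, c, hc, hab, hac, hbc⟩ := two_lt_card.1 (by omega : 2 < S.card)
      exact htri a ha b hb c hc (hS a ha b hb hab) (hS a ha c hc hac) (hS b hb c hc hbc)
    have h1 := hne.card_pos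
    rw [F_one_clq hS]
    obtain h | h : S.card = 1 ∨ S.card = 2 := by omega
    all_goals rw [h]; norm_num
  · intro S v T₁ T₂ h _ _ ih1 ih2 hb htri
    rw [h.F_eq, ih1 (hb.mono h.sub) fun x hx y hy z hz => htri x (h.sub hx) y (h.sub hy) z (h.sub hz),
      ih2 (hb.mono h.symm.sub)
        fun x hx y hy z hz => htri x (h.symm.sub hx) y (h.symm.sub hy) z (h.symm.sub hz)]
    linarith [h.card]
  · intro S hS hc _ ih hb
    exact (not_blk hS hc (fun v hv => (ih v hv).1) hb).elim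

omit [DecidableEq V] in
lemma Fam.mono {S : Finset V} {d ν ν' : V → ℝ} {B B' : ℝ} (h : Fam G w S d ν B) (hB : B ≤ B')
    (hν : ∀ u ∈ S, ν u = ν' u) : Fam G w S d ν' B' := by
  obtain ⟨ι, _, g, h1, h2⟩ := h
  exact ⟨ι, _, g, h1.trans hB, fun u hu => (h2 u hu).trans (hν u hu)⟩

lemma pv_sq {a b : V} (hab : a ≠ b) (u : V) :
    pv a b u ^ 2 = (if u = a then 1 else 0) + if u = b then 1 else 0 := by
  unfold pv
  by_cases h1 : u = a
  · subst h1; simp [hab]
  · by_cases h2 : u = b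
    · subst h2; simp [h1]
    · simp [h1, h2]

/-- The family of differences of two vertices of a sub-clique. -/
lemma fam_clq {S S' : Finset V} (hS : Clq G S) (hsub : S' ⊆ S) (h2 : 2 ≤ S'.card) {d : V → ℝ}
    (hd : PSD G w S d) : Fam G w S d (fun u => if u ∈ S' then 1 else 0)
      (F G S (fun a b => Q G w S d (pv a b)) / (2 * ((S'.card : ℝ) - 1))) := by
  have hk : (2 : ℝ) ≤ S'.card := by exact_mod_cast h2
  have hpos : 0 < 2 * ((S'.card : ℝ) - 1) := by linarith
  obtain ⟨c, hc⟩ : ∃ c : ℝ, c ^ 2 = 1 / (2 * ((S'.card : ℝ) - 1)) :=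
    ⟨_, Real.sq_sqrt (by positivity)⟩
  refine ⟨S'.offDiag, inferInstance, fun p u => c * pv p.1.1 p.1.2 u, ?_, fun u _ => ?_⟩
  · rw [sum_coe_sort S'.offDiag fun p => Q G w S d fun u => c * pv p.1 p.2 u]
    simp only [Q_smul]
    rw [← mul_sum, hc, one_div_mul_eq_div]
    refine div_le_div_of_nonneg_right ?_ hpos.le
    unfold F
    rw [← sum_product', ← sum_filter]
    refine sum_le_sum_of_subset_of_nonneg (fun p hp => ?_) fun _ _ _ => hd _
    obtain ⟨h1, h3, h4⟩ := mem_offDiag.1 hp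
    exact mem_filter.2 ⟨mem_product.2 ⟨hsub h1, hsub h3⟩, hS _ (hsub h1) _ (hsub h3) h4⟩
  · rw [sum_coe_sort S'.offDiag fun p => (c * pv p.1 p.2 u) ^ 2]
    simp only [mul_pow]
    rw [← mul_sum, sum_congr rfl fun p hp => pv_sq (mem_offDiag.1 hp).2.2 u, sum_add_distrib,
      sum_boole, sum_boole, hc]
    by_cases hu : u ∈ S'
    · have e1 : (S'.offDiag.filter fun p => u = p.1) = (S'.erase u).image fun b => (u, b) := by
        ext ⟨a, b⟩
        simp only [mem_filter, mem_offDiag, mem_image, mem_erase, Prod.mk.injEq]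
        constructor
        · rintro ⟨⟨h1, h3, h4⟩, rfl⟩
          exact ⟨b, ⟨Ne.symm h4, h3⟩, rfl, rfl⟩
        · rintro ⟨x, ⟨h1, h3⟩, rfl, rfl⟩
          exact ⟨⟨hu, h3, Ne.symm h1⟩, rfl⟩
      have e2 : (S'.offDiag.filter fun p => u = p.2) = (S'.erase u).image fun a => (a, u) := by
        ext ⟨a, b⟩
        simp only [mem_filter, mem_offDiag, mem_image, mem_erase, Prod.mk.injEq]
        constructor
        · rintro ⟨⟨h1, h3, h4⟩, rfl⟩
          exact ⟨a, ⟨h4, h1⟩, rfl, rfl⟩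
        · rintro ⟨x, ⟨h1, h3⟩, rfl, rfl⟩
          exact ⟨⟨h3, hu, h1⟩, rfl⟩
      rw [e1, e2, card_image_of_injective _ fun a b h => (Prod.mk.inj h).2,
        card_image_of_injective _ fun a b h => (Prod.mk.inj h).1, card_erase_of_mem hu,
        Nat.cast_sub (by omega), one_div_mul_eq_div, div_eq_iff hpos.ne']
      simp only [if_pos hu]
      push_cast
      ring
    · rw [if_neg hu, filter_eq_empty_iff.2, filter_eq_empty_iff.2]
      · simp
      · exact fun p hp h => hu (h ▸ (mem_offDiag.1 hp).2.1)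
      · exact fun p hp h => hu (h ▸ (mem_offDiag.1 hp).1)

/-- Tensor product of two families at a cut vertex. -/
lemma Split.fam {S : Finset V} {v : V} {T₁ T₂ : Finset V} (h : Split G S v T₁ T₂)
    {d : V → ℝ} {a b : ℝ} (hab : a + b = d v) {ν : V → ℝ} {B₁ B₂ : ℝ} (hν : ν v = 1)
    (f1 : Fam G w (insert v T₁) (Function.update d v a) ν B₁)
    (f2 : Fam G w (insert v T₂) (Function.update d v b) (fun _ => 1) B₂) :
    Fam G w S d (fun u => if u ∈ T₂ then 1 else ν u) (B₁ + B₂) := by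
  obtain ⟨ι, _, g, g1, g2⟩ := f1
  obtain ⟨κ, _, k, k1, k2⟩ := f2
  have gv := (g2 v (mem_insert_self _ _)).trans hν
  have kv := k2 v (mem_insert_self _ _)
  choose z z1 z2 z3 using fun p : ι × κ => h.glue (w := w) d hab
    (x := fun u => k p.2 v * g p.1 u) (y := fun u => g p.1 v * k p.2 u) (mul_comm _ _)
  refine ⟨ι × κ, inferInstance, z, ?_, fun u hu => ?_⟩
  · simp only [z1, Q_smul]
    rw [sum_add_distrib, Fintype.sum_prod_type, Fintype.sum_prod_type_right]
    simp only [← sum_mul, kv, gv, one_mul]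
    exact add_le_add g1 k1
  · rcases h.cases hu with hu1 | hu2
    · have hn : u ∉ T₂ := by
        rcases mem_insert.1 hu1 with rfl | hs
        · exact h.n2
        · exact h.disj u hs
      simp only [z2 _ u hu1, mul_pow, if_neg hn]
      rw [Fintype.sum_prod_type]
      simp only [← sum_mul, kv, one_mul]
      exact g2 u hu1
    · simp only [z3 _ u (mem_insert_of_mem hu2), mul_pow, if_pos hu2]
      rw [Fintype.sum_prod_type_right]
      simp only [← sum_mul, gv, one_mul]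
      exact k2 u (mem_insert_of_mem hu2)

theorem ext_blk : ∀ S, Conn G S → Blk G S → 2 ≤ S.card → ∀ d, PSD G w S d →
    Fam G w S d (fun _ => 1) (df G w S d) := by
  refine conn_induction (fun S hne hS _ h2 d hd => ?_) ?_ ?_
  · have hk : (2 : ℝ) ≤ S.card := by exact_mod_cast h2
    refine (fam_clq hS Subset.rfl h2 hd).mono ?_ fun u hu => if_pos hu
    rw [div_le_iff₀' (by linarith)]
    exact clq_pv_le hne hS d
  · intro S v T₁ T₂ h _ _ ih1 ih2 hb _ d hd
    obtain ⟨a, b, hab, h1, h2⟩ := h.psd hd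
    exact (h.fam hab rfl (ih1 (hb.mono h.sub) h.two_le _ h1)
      (ih2 (hb.mono h.symm.sub) h.symm.two_le _ h2)).mono (h.df_eq d hab).ge fun u _ => by simp
  · intro S hS hc _ ih hb
    exact (not_blk hS hc (fun v hv => (ih v hv).1) hb).elim

omit [DecidableRel G.Adj] in
lemma Split.exists_adj {S : Finset V} {v : V} {T₁ T₂ : Finset V} (h : Split G S v T₁ T₂)
    (c1 : Conn G (insert v T₁)) : ∃ a ∈ T₁, G.Adj v a := by
  obtain ⟨a, ha, b, hb, hbT, hab⟩ := c1.2 T₁ (subset_insert _ _) h.ne1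
    fun e => h.n1 (e ▸ mem_insert_self v T₁)
  obtain rfl := (mem_insert.1 hb).resolve_right hbT
  exact ⟨a, ha, hab.symm⟩

/-- A family vanishing at a simplicial vertex of degree at least two. -/
theorem zero_blk (u : V) : ∀ S, Conn G S → Blk G S → u ∈ S →
    (∀ a ∈ S, ∀ b ∈ S, G.Adj u a → G.Adj u b → a ≠ b → G.Adj a b) →
    (∃ a ∈ S, ∃ b ∈ S, G.Adj u a ∧ G.Adj u b ∧ a ≠ b) → ∀ d, PSD G w S d →
    Fam G w S d (fun s => if s = u then 0 else 1) (2 * df G w S d) := by
  have key : ∀ S v T₁ T₂, Split G S v T₁ T₂ → Conn G (insert v T₂) → Blk G S → u ∈ T₁ →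
      (Blk G (insert v T₁) → u ∈ insert v T₁ →
        (∀ a ∈ insert v T₁, ∀ b ∈ insert v T₁, G.Adj u a → G.Adj u b → a ≠ b → G.Adj a b) →
        (∃ a ∈ insert v T₁, ∃ b ∈ insert v T₁, G.Adj u a ∧ G.Adj u b ∧ a ≠ b) →
        ∀ d, PSD G w (insert v T₁) d → Fam G w (insert v T₁) d (fun s => if s = u then 0 else 1)
          (2 * df G w (insert v T₁) d)) →
      (∀ a ∈ S, ∀ b ∈ S, G.Adj u a → G.Adj u b → a ≠ b → G.Adj a b) →
      (∃ a ∈ S, ∃ b ∈ S, G.Adj u a ∧ G.Adj u b ∧ a ≠ b) → ∀ d, PSD G w S d →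
      Fam G w S d (fun s => if s = u then 0 else 1) (2 * df G w S d) := by
    intro S v T₁ T₂ h c2 hb hu ih hcl ⟨x, hx, y, hy, hux, huy, hxy⟩ d hd
    obtain ⟨a, b, hab, h1, h2⟩ := h.psd hd
    have hvu : v ≠ u := fun e => h.n1 (e ▸ hu)
    have f1 := ih (hb.mono h.sub) (mem_insert_of_mem hu)
      (fun s hs t ht => hcl s (h.sub hs) t (h.sub ht))
      ⟨x, h.adj_mem hu hx hux, y, h.adj_mem hu hy huy, hux, huy, hxy⟩ _ h1
    have f2 := ext_blk _ c2 (hb.mono h.symm.sub) h.symm.two_le _ h2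
    refine (h.fam hab (if_neg hvu) f1 f2).mono ?_ fun s _ => ?_
    · rw [h.df_eq d hab]
      linarith [df_nonneg c2 h2]
    · by_cases hs : s ∈ T₂
      · have hsu : s ≠ u := fun e => h.disj u hu (e ▸ hs)
        rw [if_pos hs, if_neg hsu]
      · rw [if_neg hs]
  refine conn_induction (fun S hne hS _ hu _ hex d hd => ?_) ?_ ?_
  · obtain ⟨x, hx, y, hy, hux, huy, hxy⟩ := hex
    have h2 : 2 ≤ (S.erase u).card :=
      one_lt_card.2 ⟨x, mem_erase.2 ⟨hux.ne', hx⟩, y, mem_erase.2 ⟨huy.ne', hy⟩, hxy⟩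
    have hk : (2 : ℝ) ≤ (S.erase u).card := by exact_mod_cast h2
    have hk' : ((S.erase u).card : ℝ) + 1 = S.card := by exact_mod_cast card_erase_add_one hu
    refine (fam_clq hS (erase_subset u S) h2 hd).mono ?_ fun s hs => by simp [hs]
    rw [div_le_iff₀' (by linarith)]
    have h3 := clq_pv_le (w := w) hne hS d
    have h4 : 0 ≤ F G S (fun a b => Q G w S d (pv a b)) := F_nonneg fun _ _ _ _ _ => hd _
    have h5 : 0 ≤ df G w S d := by
      by_contra hneg
      have := mul_neg_of_pos_of_neg (show 0 < 2 * ((S.card : ℝ) - 1) by linarith) (not_le.1 hneg)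
      linarith
    nlinarith
  · intro S v T₁ T₂ h c1 c2 ih1 ih2 hb hu hcl hex d hd
    rcases (h.mem u).1 hu with rfl | hu1 | hu2
    · obtain ⟨a, ha, hua⟩ := h.exists_adj c1
      obtain ⟨b, hb', hub⟩ := h.symm.exists_adj c2
      exact (h.noadj a ha b hb' (hcl a (h.sub (mem_insert_of_mem ha)) b
        (h.symm.sub (mem_insert_of_mem hb')) hua hub fun e => h.disj a ha (e ▸ hb'))).elim
    · exact key S v T₁ T₂ h c2 hb hu1 ih1 hcl hex d hd
    · exact key S v T₂ T₁ h.symm c1 hb hu2 ih2 hcl hex d hd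
  · intro S hS hc _ ih hb
    exact (not_blk hS hc (fun v hv => (ih v hv).1) hb).elim

end Pool.Agent.P.MP_e55f1b_co
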