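import Pool.Agent.P.MP_e55f1b_co.Mech2

/-!
The gap theorem and the graphs showing that its order is optimal.
-/

open Finset Matrix

namespace Pool.Agent.P.MP_e55f1b_co

variable {V : Type} [Fintype V] [DecidableEq V] {G : SimpleGraph V} [DecidableRel G.Adj]

theorem main_gap (hG : G.Connected) (ht : ¬ G.IsTree) (hk : G ≠ ⊤) :
    (Fintype.card V : ℝ) - 1 + 1 / (10000 * (Fintype.card V : ℝ)) ≤
      ∑ i with (G.isHermitian_adjMatrix ℝ).eigenvalues i < 0,
        (G.isHermitian_adjMatrix ℝ).eigenvalues i ^ 2 := by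
  obtain ⟨X, Y, hX, hY, hXY, h0, htr⟩ := exists_parts (G.isHermitian_adjMatrix ℝ)
  rw [← htr]
  have hc := conn_univ hG
  have h0' : (Y * X).trace = 0 := by rw [trace_mul_comm, h0, trace_zero]
  have hfX : F G univ (fun u v => X u v) = (X * X).trace := by
    rw [F_trace hX, ← hXY, Matrix.sub_mul, trace_sub, h0', sub_zero]
  have hAY : (G.adjMatrix ℝ * Y).trace = - (Y * Y).trace := by
    rw [← hXY, Matrix.sub_mul, trace_sub, h0, trace_zero, zero_sub]
  have hfY : F G univ (fun u v => -1 * Y u v) = (Y * Y).trace := by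
    rw [F_mul, F_trace hY, hAY]
    ring
  have hsum : (X * X).trace + (Y * Y).trace = F G univ (fun _ _ => 1) := by
    have h1 : F G univ (fun _ _ => 1)
        = F G univ (fun u v => X u v) + F G univ (fun u v => -1 * Y u v) := by
      rw [← F_add]
      refine F_congr fun u _ v _ huv => ?_
      have := congrFun (congrFun hXY u) v
      simp only [Matrix.sub_apply, SimpleGraph.adjMatrix_apply, huv, if_true] at this
      linarith
    rw [h1, hfX, hfY]
  have hdf : df G (fun u v => X u v) univ (dg G X)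
      = (Y * Y).trace - ((Fintype.card V : ℝ) - 1) := by
    unfold df qq
    rw [sg_dg hX fun _ _ => rfl, hfX, card_univ]
    linarith
  have hn : (1 : ℝ) ≤ Fintype.card V := by
    have := hG.nonempty
    exact_mod_cast Fintype.card_pos
  by_contra hcon
  have hlt : df G (fun u v => X u v) univ (dg G X) < 1 / (10000 * (Fintype.card V : ℝ)) := by
    rw [hdf]; linarith
  by_cases hb : Blk G univ
  · have hle : 1 / (10000 * (Fintype.card V : ℝ)) ≤ 1 := by
      rw [div_le_one (by linarith)]; linarith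
    have H : St G X Y (1 / (10000 * (Fintype.card V : ℝ))) :=
      ⟨hX, hY, hXY, h0, hc, hb, hlt.le, le_of_eq (by field_simp), by
        simp only [sq]
        rw [← trace_mul_symm Y hY]
        linarith⟩
    by_cases htri : ∃ a b c, G.Adj a b ∧ G.Adj a c ∧ G.Adj b c
    · obtain ⟨a, b, c, hab, hac, hbc⟩ := htri
      refine hk (eq_top_of_tri hG hab hac hbc fun u x y z h1 h2 h3 h4 h5 => ?_)
      by_contra h6
      refine H.no_config h1 h4 (fun h => (mem_cls.1 h).elim h5 fun h => h6 h.2) ?_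
      have : 1 < (cls G u x).card :=
        one_lt_card.2 ⟨x, self_mem_cls u x, y, mem_cls.2 (Or.inr ⟨h2, h3⟩), h3.ne⟩
      unfold bt
      exact_mod_cast this
    · push Not at htri
      have := tri_blk univ hc hb fun a _ b _ c _ hab hac => htri a b c hab hac
      rw [F_one_univ, card_univ] at this
      apply ht
      rw [SimpleGraph.isTree_iff_connected_and_card]
      refine ⟨hG, ?_⟩
      rw [Nat.card_eq_fintype_card, Nat.card_eq_fintype_card, ← SimpleGraph.edgeFinset_card]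
      have h3 : (G.edgeFinset.card : ℝ) + 1 = Fintype.card V := by linarith
      exact_mod_cast h3
  · have h1 := gap_add hc hb (psd_dg (G := G) hX (w := fun u v => X u v) fun _ _ => rfl)
    have h3 : (3 : ℝ) ≤ Fintype.card V := by
      have := three_le_of_not_blk hb
      rw [card_univ] at this
      exact_mod_cast this
    rw [card_univ] at h1
    have h2 : 1 / (10000 * (Fintype.card V : ℝ)) ≤ 1 / (20 * ((Fintype.card V : ℝ) - 1)) :=
      one_div_le_one_div_of_le (by linarith) (by linarith)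
    unfold df at hlt
    linarith

/-- The negative square energy is at most the squared distance to a nonnegative matrix. -/
lemma neg_le_dist (a b : ℝ) (ha : 0 ≤ a) (hb : 0 ≤ b) (g h : V → ℝ) :
    (∑ i with (G.isHermitian_adjMatrix ℝ).eigenvalues i < 0,
      (G.isHermitian_adjMatrix ℝ).eigenvalues i ^ 2) ≤
      ∑ u, ∑ v, ((if G.Adj u v then 1 else 0) - a * (g u * g v) - b * (h u * h v)) ^ 2 := by
  obtain ⟨X, Y, hX, hY, hXY, h0, htr⟩ := exists_parts (G.isHermitian_adjMatrix ℝ)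
  rw [← htr, trace_mul_symm Y hY]
  have h1 : ∑ u, ∑ v, X u v * Y u v = 0 := by rw [← trace_mul_symm X hY, h0, trace_zero]
  have h2 : ∀ g : V → ℝ, 0 ≤ ∑ u, ∑ v, g u * g v * Y u v := by
    intro g
    have := hY.dotProduct_mulVec_nonneg g
    simp only [star_trivial, dotProduct, mulVec, mul_sum] at this
    exact this.trans (le_of_eq (sum_congr rfl fun u _ => sum_congr rfl fun v _ => by ring))
  have h3 : ∑ u, ∑ v, ((if G.Adj u v then 1 else 0) - a * (g u * g v) - b * (h u * h v)) ^ 2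
      = ∑ u, ∑ v, Y u v * Y u v + ∑ u, ∑ v, (X u v - a * (g u * g v) - b * (h u * h v)) ^ 2
        - 2 * ∑ u, ∑ v, X u v * Y u v + 2 * a * ∑ u, ∑ v, g u * g v * Y u v
        + 2 * b * ∑ u, ∑ v, h u * h v * Y u v := by
    simp only [mul_sum, ← sum_add_distrib, ← sum_sub_distrib]
    refine sum_congr rfl fun u _ => sum_congr rfl fun v _ => ?_
    have := congrFun (congrFun hXY u) v
    simp only [Matrix.sub_apply, SimpleGraph.adjMatrix_apply] at this
    rw [← this]
    ring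
  have h4 : 0 ≤ ∑ u, ∑ v, (X u v - a * (g u * g v) - b * (h u * h v)) ^ 2 :=
    sum_nonneg fun _ _ => sum_nonneg fun _ _ => sq_nonneg _
  have h5 := mul_nonneg ha (h2 g)
  have h6 := mul_nonneg hb (h2 h)
  linarith

/-- A triangle `1 2 3` joined by the edge `0 1` to the centre `0` of a star. -/
def tsAdj (i j : ℕ) : Prop :=
  (i = 0 ∧ (j = 1 ∨ 4 ≤ j)) ∨ (j = 0 ∧ (i = 1 ∨ 4 ≤ i)) ∨
    (i ≠ j ∧ 1 ≤ i ∧ i ≤ 3 ∧ 1 ≤ j ∧ j ≤ 3)

instance : DecidableRel tsAdj := fun i j => by unfold tsAdj; infer_instance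

/-- That graph on `Fin n`. -/
def ts (n : ℕ) : SimpleGraph (Fin n) where
  Adj i j := tsAdj i.1 j.1
  symm := ⟨fun i j h => by unfold tsAdj at *; omega⟩
  loopless := ⟨fun i h => by unfold tsAdj at h; omega⟩

instance (n : ℕ) : DecidableRel (ts n).Adj := fun i j => inferInstanceAs (Decidable (tsAdj i.1 j.1))

lemma ts_connected (k : ℕ) : (ts (k + 4)).Connected := by
  have h0 : ∀ v : Fin (k + 4), (ts (k + 4)).Reachable ⟨0, by omega⟩ v := by
    intro v
    have h1 : (ts (k + 4)).Adj ⟨0, by omega⟩ ⟨1, by omega⟩ := Or.inl ⟨rfl, Or.inl rfl⟩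
    by_cases a : v.1 = 0
    · have : v = ⟨0, by omega⟩ := Fin.ext a
      rw [this]
    by_cases b : v.1 = 1 ∨ 4 ≤ v.1
    · exact SimpleGraph.Adj.reachable (Or.inl ⟨rfl, b⟩)
    · refine h1.reachable.trans (SimpleGraph.Adj.reachable (Or.inr (Or.inr ?_)))
      simp only
      omega
  exact ⟨fun u v => (h0 u).symm.trans (h0 v)⟩

lemma ts_not_tree (k : ℕ) : ¬ (ts (k + 4)).IsTree := by
  intro h
  refine h.isAcyclic.cliqueFree le_rfl {⟨1, by omega⟩, ⟨2, by omega⟩, ⟨3, by omega⟩} ?_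
  rw [SimpleGraph.is3Clique_triple_iff]
  refine ⟨?_, ?_, ?_⟩ <;> exact Or.inr (Or.inr (by simp))

lemma ts_ne_top (k : ℕ) : ts (k + 4) ≠ ⊤ := by
  intro h
  have : (ts (k + 4)).Adj ⟨0, by omega⟩ ⟨2, by omega⟩ := by rw [h]; simp
  simp [ts, tsAdj] at this

lemma sum_four (k : ℕ) (φ : ℕ → ℝ) (c : ℝ) (h : ∀ i, 4 ≤ i → φ i = c) :
    ∑ i : Fin (k + 4), φ i.1 = φ 0 + φ 1 + φ 2 + φ 3 + k * c := by
  rw [Fin.sum_univ_eq_sum_range φ, add_comm k 4, sum_range_add,
    sum_congr rfl fun i (_ : i ∈ range k) => h (4 + i) (by omega)]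
  simp [sum_range_succ]

theorem ts_energy (k : ℕ) (hk : 1 ≤ k) :
    (∑ i with ((ts (k + 4)).isHermitian_adjMatrix ℝ).eigenvalues i < 0,
      ((ts (k + 4)).isHermitian_adjMatrix ℝ).eigenvalues i ^ 2) ≤
      ((k + 4 : ℕ) : ℝ) - 1 + 16 / ((k + 4 : ℕ) : ℝ) := by
  have hk' : (1 : ℝ) ≤ k := by exact_mod_cast hk
  obtain ⟨r, hr0, hr⟩ : ∃ r : ℝ, 0 < r ∧ r ^ 2 = k + 1 :=
    ⟨_, Real.sqrt_pos.2 (by linarith), Real.sq_sqrt (by linarith)⟩
  set g : ℕ → ℝ := fun i => if i = 0 then 0 else if i ≤ 3 then 1 else -1 / k with hg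
  set h : ℕ → ℝ := fun i => if i = 0 then r else if i = 1 ∨ 4 ≤ i then 1 else 0 with hh
  set φ : ℕ → ℕ → ℝ := fun i j =>
    ((if tsAdj i j then 1 else 0) - 2 / 3 * (g i * g j) - 1 / (2 * r) * (h i * h j)) ^ 2 with hφ
  refine (neg_le_dist (2 / 3) (1 / (2 * r)) (by norm_num) (by positivity) (fun i => g i.1)
    fun i => h i.1).trans ?_
  have g4 : ∀ i, 4 ≤ i → g i = -1 / k := fun i hi => by
    simp only [hg]; rw [if_neg (by omega), if_neg (by omega)]
  have h4 : ∀ i, 4 ≤ i → h i = 1 := fun i hi => by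
    simp only [hh]; rw [if_neg (by omega), if_pos (Or.inr hi)]
  have a4 : ∀ i j, 4 ≤ j → (tsAdj i j ↔ i = 0) := fun i j hj => by unfold tsAdj; omega
  have a4' : ∀ i j, 4 ≤ i → (tsAdj i j ↔ j = 0) := fun i j hj => by unfold tsAdj; omega
  have e1 : ∀ i, ∑ j : Fin (k + 4), φ i j.1 = φ i 0 + φ i 1 + φ i 2 + φ i 3 + k * φ i 4 :=
    fun i => sum_four k (φ i) _ fun j hj => by
      simp only [hφ, a4 i j hj, a4 i 4 le_rfl, g4 j hj, g4 4 le_rfl, h4 j hj, h4 4 le_rfl]
  have e2 : ∀ i j, 4 ≤ i → φ i j = φ 4 j := fun i j hi => by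
    simp only [hφ, a4' i j hi, a4' 4 j le_rfl, g4 i hi, g4 4 le_rfl, h4 i hi, h4 4 le_rfl]
  have e3 := sum_four k (fun i => φ i 0 + φ i 1 + φ i 2 + φ i 3 + k * φ i 4)
    (φ 4 0 + φ 4 1 + φ 4 2 + φ 4 3 + k * φ 4 4) fun i hi => by simp only [e2 i _ hi]
  have e4 : ∑ u : Fin (k + 4), ∑ v : Fin (k + 4), φ u.1 v.1
      = k + 3 + 8 / (3 * k) + 4 / (9 * k ^ 2) := by
    simp only [e1]
    rw [e3]
    have hk1 : (k : ℝ) = r ^ 2 - 1 := by linarith
    have hk0 : (k : ℝ) ≠ 0 := by linarith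
    simp only [hφ, hg, hh, tsAdj]
    norm_num
    field_simp
    rw [hk1]
    ring
  refine (le_of_eq e4).trans ?_
  push_cast
  have i1 : 4 / (9 * (k : ℝ) ^ 2) ≤ 4 / (9 * k) :=
    div_le_div_of_nonneg_left (by norm_num) (by linarith) (by nlinarith)
  have i2 : 8 / (3 * (k : ℝ)) + 4 / (9 * k) ≤ 16 / (k + 4) := by
    rw [div_add_div _ _ (by linarith) (by linarith), div_le_div_iff₀ (by positivity) (by linarith)]
    nlinarith
  linarith

end Pool.Agent.P.MP_e55f1b_co
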