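import Pool.Agent.P.MP_e55f1b_co.Blk

/-!
A gap of order `1 / n` in the main inequality for connected sets that are not block-like.
-/

open Finset

namespace Pool.Agent.P.MP_e55f1b_co

variable {V : Type*} [DecidableEq V] {G : SimpleGraph V} [DecidableRel G.Adj] {w : V → V → ℝ}

omit [DecidableRel G.Adj] in
lemma three_le_of_not_blk {S : Finset V} (h : ¬ Blk G S) : 3 ≤ S.card := by
  unfold Blk at h
  push Not at h
  obtain ⟨u, hu, a, ha, b, hb, hua, hub, hab, -⟩ := h
  have hsub : ({u, a, b} : Finset V) ⊆ S := by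
    intro x hx
    simp only [mem_insert, mem_singleton] at hx
    rcases hx with rfl | rfl | rfl <;> assumption
  have := card_le_card hsub
  rwa [card_eq_three.2 ⟨u, a, b, hua.ne, hub.ne, hab, rfl⟩] at this

lemma add_sq_le {f₁ f₂ p₁ p₂ s₁ s₂ : ℝ} (hp₁ : 0 ≤ p₁) (hp₂ : 0 ≤ p₂) (hs₁ : 0 ≤ s₁)
    (hs₂ : 0 ≤ s₂) (h₁ : f₁ ^ 2 ≤ p₁ * s₁) (h₂ : f₂ ^ 2 ≤ p₂ * s₂) :
    (f₁ + f₂) ^ 2 ≤ (p₁ + p₂) * (s₁ + s₂) := by
  have := sum_sq_le_sum_mul_sum_of_sq_le_mul (univ : Finset Bool)
    (r := fun i => if i then f₁ else f₂) (f := fun i => if i then p₁ else p₂)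
    (g := fun i => if i then s₁ else s₂)
    (by rintro (_ | _) - <;> simp [hp₁, hp₂]) (by rintro (_ | _) - <;> simp [hs₁, hs₂])
    (by rintro (_ | _) - <;> simp [h₁, h₂])
  simpa using this

lemma gap_split {S : Finset V} {v : V} {T₁ T₂ : Finset V} (h : Split G S v T₁ T₂)
    (c1 : Conn G (insert v T₁)) (c2 : Conn G (insert v T₂)) (hb : ¬ Blk G (insert v T₁))
    (ih : ∀ d, PSD G w (insert v T₁) d → F G (insert v T₁) w ^ 2 ≤
      (qq G (insert v T₁) - 1 / (20 * (((insert v T₁).card : ℝ) - 1))) * sg G w (insert v T₁) d)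
    {d : V → ℝ} (hd : PSD G w S d) :
    F G S w ^ 2 ≤ (qq G S - 1 / (20 * ((S.card : ℝ) - 1))) * sg G w S d := by
  obtain ⟨a, b, hab, h1, h2⟩ := h.psd hd
  have k3 : (3 : ℝ) ≤ (insert v T₁).card := by exact_mod_cast three_le_of_not_blk hb
  have klt : ((insert v T₁).card : ℝ) ≤ S.card := by exact_mod_cast h.card_lt.le
  have g1 : 1 / (20 * ((S.card : ℝ) - 1)) ≤ 1 / (20 * (((insert v T₁).card : ℝ) - 1)) :=
    one_div_le_one_div_of_le (by linarith) (by linarith)
  have g2 : 1 / (20 * (((insert v T₁).card : ℝ) - 1)) ≤ 1 := by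
    rw [div_le_one (by linarith)]; linarith
  have q1 := c1.one_le_qq h.two_le
  have := add_sq_le (by linarith) c2.qq_nonneg h1.sg_nonneg h2.sg_nonneg (ih _ h1) (ineq _ c2 _ h2)
  rw [h.F_eq, h.qq_eq, h.sg_eq d hab]
  refine this.trans (mul_le_mul_of_nonneg_right (by linarith) ?_)
  linarith [h1.sg_nonneg, h2.sg_nonneg]

lemma gap_alg {k q s T f B : ℝ} (hk : 3 ≤ k) (hq : 1 ≤ q) (hs : 0 ≤ s) (hBk : B ≤ k)
    (hq' : 0 ≤ (k - 2) * (q - 1) - (k - B) / (20 * (k - 2)))
    (h1 : f ^ 2 ≤ (q + k - 1) * (s - T))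
    (h2 : ((k - 2) * f) ^ 2 ≤
      ((k - 2) * (q - 1) - (k - B) / (20 * (k - 2))) * ((k - 2) * s + T))
    (hc : (B - 2) * (q + k - 1) ≤ 20 * (k - 2) * (k * (k - 1) - (q + k - 1))) :
    f ^ 2 ≤ (q - 1 / (20 * (k - 1))) * s := by
  have hk2 : 0 < k - 2 := by linarith
  have hk1 : 0 < k - 1 := by linarith
  obtain ⟨e, he⟩ : ∃ e, e = (k - B) / (20 * (k - 2)) / (k - 2) := ⟨_, rfl⟩
  obtain ⟨γ, hγ⟩ : ∃ γ, γ = 1 / (20 * (k - 1)) := ⟨_, rfl⟩
  have he0 : 0 ≤ e := by rw [he]; exact div_nonneg (div_nonneg (by linarith) (by linarith)) hk2.le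
  have he1 : (k - B) / (20 * (k - 2)) = (k - 2) * e := by rw [he]; field_simp
  have he2 : 20 * (k - 2) * ((k - 2) * e) = k - B := by rw [← he1]; field_simp
  have hγ0 : 0 ≤ γ := by rw [hγ]; positivity
  have hγ1 : 20 * ((k - 1) * γ) = 1 := by rw [hγ]; field_simp
  rw [he1] at hq' h2
  rw [← hγ]
  obtain ⟨p, hp⟩ : ∃ p, p = q - 1 - e := ⟨_, rfl⟩
  have e1 : (k - 2) * (q - 1) - (k - 2) * e = (k - 2) * p := by rw [hp]; ring
  rw [e1] at hq' h2
  have hp0 : 0 ≤ p := le_of_mul_le_mul_left (by simpa using hq') hk2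
  have h4 : (k - 2) * f ^ 2 ≤ p * ((k - 2) * s + T) := by
    refine le_of_mul_le_mul_left ?_ hk2
    calc (k - 2) * ((k - 2) * f ^ 2) = ((k - 2) * f) ^ 2 := by ring
      _ ≤ _ := h2
      _ = _ := by ring
  obtain ⟨M, hM⟩ : ∃ M, M = q + k - 1 := ⟨_, rfl⟩
  rw [← hM] at h1 hc
  have hM0 : 0 < M := by linarith
  have h5 := mul_le_mul_of_nonneg_left h4 hM0.le
  have h6 := mul_le_mul_of_nonneg_left h1 hp0
  have h7 : ((k - 2) * M + p) * f ^ 2 ≤ (k - 1) * p * M * s := by nlinarith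
  have h8 : M * ((k - 1) * γ - (k - 2) * e) ≤ k * (k - 1) - M := by
    refine le_of_mul_le_mul_left ?_ (show 0 < 20 * (k - 2) by linarith)
    have : 20 * (k - 2) * (M * ((k - 1) * γ - (k - 2) * e)) = (B - 2) * M := by
      have e2 : 20 * (k - 2) * (M * ((k - 1) * γ - (k - 2) * e))
          = M * ((k - 2) * (20 * ((k - 1) * γ)) - 20 * (k - 2) * ((k - 2) * e)) := by ring
      rw [e2, hγ1, he2]; ring
    rw [this]; exact hc
  have h9 : (k - 1) * p * M ≤ (q - γ) * ((k - 2) * M + p) := by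
    have e3 : q = M - k + 1 := by linarith
    have e4 : p = M - k - e := by linarith
    have e5 : (q - γ) * ((k - 2) * M + p) - (k - 1) * p * M
        = (k - 1 + γ) * (k + e) - M * (1 + ((k - 1) * γ - (k - 2) * e)) := by
      rw [e4, e3]; ring
    have e6 : k * (k - 1) ≤ (k - 1 + γ) * (k + e) := by nlinarith [mul_nonneg hγ0 he0]
    nlinarith
  have hD : 0 < (k - 2) * M + p := by positivity
  refine le_of_mul_le_mul_left ?_ hD
  have h10 := mul_le_mul_of_nonneg_right h9 hs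
  nlinarith

/-- The main inequality with a gap. -/
theorem gap_not_blk : ∀ S, Conn G S → ¬ Blk G S → ∀ d, PSD G w S d →
    F G S w ^ 2 ≤ (qq G S - 1 / (20 * ((S.card : ℝ) - 1))) * sg G w S d := by
  classical
  refine conn_induction (fun S _ hS hb => (hb hS.blk).elim) ?_ ?_
  · intro S v T₁ T₂ h c1 c2 ih1 ih2 hb d hd
    by_cases b1 : Blk G (insert v T₁)
    · have b2 : ¬ Blk G (insert v T₂) := fun b2 => hb (h.blk b1 b2)
      exact gap_split h.symm c2 c1 b2 (ih2 b2) hd
    · exact gap_split h c1 c2 b1 (ih1 b1) hd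
  · intro S hS hc h3 ih _ d hd
    have hk : (3 : ℝ) ≤ S.card := by exact_mod_cast h3
    have hcard : ∀ v ∈ S, ((S.erase v).card : ℝ) = S.card - 1 := fun v hv => by
      rw [card_erase_of_mem hv, Nat.cast_sub (by omega)]; simp
    set R := S.filter fun v => Blk G (S.erase v) with hR
    set γ : V → ℝ := fun v => if Blk G (S.erase v) then 0 else 1 / (20 * ((S.card : ℝ) - 2))
      with hγ
    have hnn : ∀ v ∈ S, 0 ≤ qq G (S.erase v) - γ v := by
      intro v hv
      by_cases hb : Blk G (S.erase v)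
      · simpa [hγ, hb] using (ih v hv).1.qq_nonneg
      · have q1 := (ih v hv).1.one_le_qq (by have := three_le_of_not_blk hb; omega)
        have : 1 / (20 * ((S.card : ℝ) - 2)) ≤ 1 := by rw [div_le_one (by linarith)]; linarith
        simp only [hγ, hb, if_false]
        linarith
    have hiv : ∀ v ∈ S, F G (S.erase v) w ^ 2 ≤ (qq G (S.erase v) - γ v) * sg G w (S.erase v) d := by
      intro v hv
      by_cases hb : Blk G (S.erase v)
      · simpa [hγ, hb] using ineq _ (ih v hv).1 d (hd.mono (erase_subset _ _))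
      · have := (ih v hv).2 hb d (hd.mono (erase_subset _ _))
        rw [hcard v hv, show (S.card : ℝ) - 1 - 1 = S.card - 2 by ring] at this
        simpa only [hγ, hb, if_false] using this
    have h1 := F_sq_le (G := G) S w
    have h2 := sum_sq_le_sum_mul_sum_of_sq_le_mul S (r := fun v => F G (S.erase v) w)
      (f := fun v => qq G (S.erase v) - γ v) (g := fun v => sg G w (S.erase v) d)
      hnn (fun v _ => (hd.mono (erase_subset _ _)).sg_nonneg) hiv
    have hq : ∑ v ∈ S, qq G (S.erase v) = (S.card - 2) * (qq G S - 1) := by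
      unfold qq
      rw [sum_add_distrib, sum_sub_distrib, F_sum_erase, sum_congr rfl hcard]
      simp only [sum_const, nsmul_eq_mul]
      ring
    have hg : ∑ v ∈ S, γ v = ((S.card : ℝ) - R.card) / (20 * ((S.card : ℝ) - 2)) := by
      have := card_filter_add_card_filter_not (s := S) fun v => Blk G (S.erase v)
      have h' : ((S.filter fun v => ¬ Blk G (S.erase v)).card : ℝ) = S.card - R.card := by
        rw [← this]; push_cast; ring
      simp only [hγ]
      rw [sum_ite, sum_const_zero, zero_add, sum_const, nsmul_eq_mul, h']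
      ring
    have hs : ∑ v ∈ S, sg G w (S.erase v) d = (S.card - 2) * sg G w S d + ∑ u ∈ S, d u := by
      unfold sg
      rw [sum_add_distrib, F_sum_erase,
        sum_congr rfl (g := fun v => ∑ u ∈ S, d u - d v) fun v hv => sum_erase_eq_sub hv,
        sum_sub_distrib, sum_const, nsmul_eq_mul]
      ring
    have hq0 := sum_nonneg hnn
    rw [sum_sub_distrib, hq, hg] at hq0
    rw [F_sum_erase, sum_sub_distrib, hq, hg, hs] at h2
    have hm : F G S (fun _ _ => 1) = qq G S + S.card - 1 := by unfold qq; ring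
    have he : F G S (fun u v => w u v ^ 2) = sg G w S d - ∑ u ∈ S, d u := by unfold sg; ring
    have hcount := count_lemma (R := R) hS hc (fun v hv => (ih v hv).1) h3 (filter_subset _ _)
      fun v hv => (mem_filter.1 hv).2
    rw [hm, he] at h1
    rw [hm] at hcount
    exact gap_alg hk (hS.one_le_qq (by omega)) hd.sg_nonneg
      (by exact_mod_cast card_le_card (filter_subset _ _)) hq0 h1 h2 hcount

/-- The gap in additive form. -/
lemma gap_add {S : Finset V} (hS : Conn G S) (hb : ¬ Blk G S) {d : V → ℝ} (hd : PSD G w S d) :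
    1 / (20 * ((S.card : ℝ) - 1)) ≤ qq G S + sg G w S d - 2 * F G S w := by
  have h1 := gap_not_blk S hS hb d hd
  have h3 := three_le_of_not_blk hb
  have k3 : (3 : ℝ) ≤ S.card := by exact_mod_cast h3
  have h2 := hS.one_le_qq (by omega)
  have g2 : 1 / (20 * ((S.card : ℝ) - 1)) ≤ 1 := by rw [div_le_one (by linarith)]; linarith
  have h4 := hd.sg_nonneg
  generalize 1 / (20 * ((S.card : ℝ) - 1)) = γ at *
  have : 2 * F G S w ≤ (qq G S - γ) + sg G w S d := by
    refine abs_le_of_sq_le_sq' ?_ (by linarith) |>.2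
    nlinarith [sq_nonneg (qq G S - γ - sg G w S d)]
  linarith

end Pool.Agent.P.MP_e55f1b_co
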