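import Pool.Agent.P.MP_e55f1b_co.Basic

/-!
The quadratic form supported on the edges and the diagonal, and the main inequality
`f ^ 2 ≤ q * σ` for connected vertex sets, with `q = 2 m - n + 1`.
-/

open Finset

namespace Pool.Agent.P.MP_e55f1b_co

variable {V : Type*} [DecidableEq V] (G : SimpleGraph V) [DecidableRel G.Adj] (w : V → V → ℝ)

/-- The quadratic form with diagonal `d` and entries `w u v ^ 2` on the edges. -/
noncomputable def Q (S : Finset V) (d x : V → ℝ) : ℝ :=
  ∑ u ∈ S, d u * x u ^ 2 + F G S (fun u v => w u v ^ 2 * (x u * x v))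

/-- Nonnegativity of the form. -/
def PSD (S : Finset V) (d : V → ℝ) : Prop := ∀ x, 0 ≤ Q G w S d x

/-- The number `2 m - n + 1`. -/
noncomputable def qq (S : Finset V) : ℝ := F G S (fun _ _ => 1) - S.card + 1

/-- The sum of all entries. -/
noncomputable def sg (S : Finset V) (d : V → ℝ) : ℝ :=
  ∑ u ∈ S, d u + F G S (fun u v => w u v ^ 2)

variable {G w}

omit [DecidableEq V] in
lemma Q_congr {S : Finset V} {d x y : V → ℝ} (h : ∀ u ∈ S, x u = y u) :
    Q G w S d x = Q G w S d y := by
  unfold Q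
  congr 1
  · exact sum_congr rfl fun u hu => by rw [h u hu]
  · exact F_congr fun u hu v hv _ => by rw [h u hu, h v hv]

omit [DecidableEq V] in
lemma Q_smul (S : Finset V) (d x : V → ℝ) (c : ℝ) :
    Q G w S d (fun u => c * x u) = c ^ 2 * Q G w S d x := by
  unfold Q
  rw [mul_add, ← F_mul, mul_sum]
  congr 1
  · exact sum_congr rfl fun u _ => by ring
  · exact F_congr fun u _ v _ _ => by ring

omit [DecidableEq V] in
lemma Q_one (S : Finset V) (d : V → ℝ) : Q G w S d (fun _ => 1) = sg G w S d := by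
  simp [Q, sg]

omit [DecidableEq V] in
lemma Q_zero (S : Finset V) (d : V → ℝ) : Q G w S d (fun _ => 0) = 0 := by
  simp [Q, F]

lemma Q_restrict {S T : Finset V} (hT : T ⊆ S) (d x : V → ℝ) :
    Q G w S d (fun u => if u ∈ T then x u else 0) = Q G w T d x := by
  unfold Q F
  congr 1
  · rw [← sum_subset hT fun u _ hu => by simp [hu]]
    exact sum_congr rfl fun u hu => by simp [hu]
  · rw [← sum_subset hT fun u _ hu => by simp [hu]]
    refine sum_congr rfl fun u hu => ?_
    rw [← sum_subset hT fun v _ hv => by simp [hv]]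
    exact sum_congr rfl fun v hv => by simp [hu, hv]

lemma PSD.mono {S T : Finset V} {d : V → ℝ} (h : PSD G w S d) (hT : T ⊆ S) : PSD G w T d :=
  fun x => Q_restrict (G := G) (w := w) hT d x ▸ h _

omit [DecidableEq V] in
lemma PSD.sg_nonneg {S : Finset V} {d : V → ℝ} (h : PSD G w S d) : 0 ≤ sg G w S d :=
  Q_one (G := G) (w := w) S d ▸ h _

lemma PSD.d_nonneg {S : Finset V} {d : V → ℝ} (h : PSD G w S d) {u : V} (hu : u ∈ S) :
    0 ≤ d u := by
  have := (h.mono (singleton_subset_iff.2 hu)).sg_nonneg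
  simpa [sg, F] using this

/-- The vector `e a - e b`. -/
def pv (a b : V) : V → ℝ := fun u => if u ∈ ({a, b} : Finset V) then (if u = a then 1 else -1) else 0

lemma Q_pv {S : Finset V} (d : V → ℝ) {a b : V} (ha : a ∈ S) (hb : b ∈ S) (hab : G.Adj a b) :
    Q G w S d (pv a b) = d a + d b - (w a b ^ 2 + w b a ^ 2) := by
  have hne := hab.ne
  unfold pv
  rw [Q_restrict (by intro x hx; simp only [mem_insert, mem_singleton] at hx; rcases hx with rfl | rfl <;> assumption)]
  simp [Q, F, sum_pair hne, hab, hab.symm, hne.symm]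
  ring

lemma Split.Q_eq {S : Finset V} {v : V} {T₁ T₂ : Finset V} (h : Split G S v T₁ T₂)
    (d x : V → ℝ) {a b : ℝ} (hab : a + b = d v) :
    Q G w S d x = Q G w (insert v T₁) (Function.update d v a) x
      + Q G w (insert v T₂) (Function.update d v b) x := by
  unfold Q
  rw [h.F_eq, h.sum, sum_insert h.n1, sum_insert h.n2, Function.update_self, Function.update_self,
    sum_congr rfl (f := fun u => Function.update d v a u * x u ^ 2) (g := fun u => d u * x u ^ 2)
      (s₁ := T₁) fun u hu => by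
        rw [Function.update_of_ne (ne_of_mem_of_not_mem hu h.n1)],
    sum_congr rfl (f := fun u => Function.update d v b u * x u ^ 2) (g := fun u => d u * x u ^ 2)
      (s₁ := T₂) fun u hu => by
        rw [Function.update_of_ne (ne_of_mem_of_not_mem hu h.n2)], ← hab]
  ring

lemma Q_update {T : Finset V} {v : V} (hv : v ∉ T) (d x : V → ℝ) (a : ℝ) :
    Q G w (insert v T) (Function.update d v a) x
      = Q G w (insert v T) (Function.update d v 0) x + a * x v ^ 2 := by
  unfold Q
  rw [sum_insert hv, sum_insert hv, Function.update_self, Function.update_self,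
    sum_congr rfl (f := fun u => Function.update d v a u * x u ^ 2)
      (g := fun u => Function.update d v 0 u * x u ^ 2)
      (s₁ := T) fun u hu => by
        rw [Function.update_of_ne (ne_of_mem_of_not_mem hu hv),
          Function.update_of_ne (ne_of_mem_of_not_mem hu hv)]]
  ring

/-- Gluing two vectors that agree at the cut vertex. -/
lemma Split.glue {S : Finset V} {v : V} {T₁ T₂ : Finset V} (h : Split G S v T₁ T₂)
    (d : V → ℝ) {a b : ℝ} (hab : a + b = d v) {x y : V → ℝ} (hxy : x v = y v) :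
    ∃ g : V → ℝ, Q G w S d g = Q G w (insert v T₁) (Function.update d v a) x
      + Q G w (insert v T₂) (Function.update d v b) y ∧
      (∀ u ∈ insert v T₁, g u = x u) ∧ ∀ u ∈ insert v T₂, g u = y u := by
  have h1 : ∀ u ∈ insert v T₁, (if u ∈ T₂ then y u else x u) = x u := by
    intro u hu
    rcases mem_insert.1 hu with rfl | hu
    · exact if_neg h.n2
    · exact if_neg (h.disj u hu)
  have h2 : ∀ u ∈ insert v T₂, (if u ∈ T₂ then y u else x u) = y u := by
    intro u hu
    rcases mem_insert.1 hu with rfl | hu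
    · rw [if_neg h.n2, hxy]
    · exact if_pos hu
  refine ⟨fun u => if u ∈ T₂ then y u else x u, ?_, h1, h2⟩
  rw [h.Q_eq d _ hab, Q_congr h1, Q_congr h2]

lemma Split.psd_aux {S : Finset V} {v : V} {T₁ T₂ : Finset V} (h : Split G S v T₁ T₂)
    {d : V → ℝ} (hd : PSD G w S d) {a : ℝ}
    (ha : ∀ x : V → ℝ, x v = 1 → 0 ≤ Q G w (insert v T₁) (Function.update d v 0) x + a) :
    PSD G w (insert v T₁) (Function.update d v a) := by
  intro x
  by_cases hx : x v = 0
  · obtain ⟨g, hg, -, -⟩ := h.glue (w := w) d (a := a) (b := d v - a) (by ring) (x := x)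
      (y := fun _ => 0) hx
    rw [Q_zero, add_zero] at hg
    exact hg ▸ hd g
  · have h1 := ha (fun u => (x v)⁻¹ * x u) (inv_mul_cancel₀ hx)
    rw [Q_smul] at h1
    rw [Q_update h.n1]
    have h2 : 0 < x v ^ 2 := by positivity
    have h3 := mul_nonneg h2.le h1
    have h4 : x v ^ 2 * ((x v)⁻¹ ^ 2 * Q G w (insert v T₁) (Function.update d v 0) x + a)
        = Q G w (insert v T₁) (Function.update d v 0) x + a * x v ^ 2 := by
      field_simp
    rwa [h4] at h3

/-- A nonnegative form splits at a cut vertex into two nonnegative forms. -/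
lemma Split.psd {S : Finset V} {v : V} {T₁ T₂ : Finset V} (h : Split G S v T₁ T₂)
    {d : V → ℝ} (hd : PSD G w S d) : ∃ a b : ℝ, a + b = d v ∧
      PSD G w (insert v T₁) (Function.update d v a) ∧
      PSD G w (insert v T₂) (Function.update d v b) := by
  obtain ⟨a, ha1, ha2⟩ := exists_between_of_forall_le
    (s := {r : ℝ | ∃ x : V → ℝ, x v = 1 ∧ r = - Q G w (insert v T₁) (Function.update d v 0) x})
    (t := {r : ℝ | ∃ y : V → ℝ, y v = 1 ∧
      r = d v + Q G w (insert v T₂) (Function.update d v 0) y})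
    ⟨_, fun _ => 1, rfl, rfl⟩ ⟨_, fun _ => 1, rfl, rfl⟩ (by
      rintro _ ⟨x, hx, rfl⟩ _ ⟨y, hy, rfl⟩
      obtain ⟨g, hg, -, -⟩ := h.glue (w := w) d (a := 0) (b := d v) (by ring) (x := x)
        (y := y) (hx.trans hy.symm)
      have := hd g
      rw [hg, Q_update h.n2 d y (d v), hy] at this
      linarith)
  refine ⟨a, d v - a, by ring, h.psd_aux hd fun x hx => ?_, h.symm.psd_aux hd fun y hy => ?_⟩
  · have := ha1 ⟨x, hx, rfl⟩
    linarith
  · have := ha2 ⟨y, hy, rfl⟩
    linarith

lemma Split.qq_eq {S : Finset V} {v : V} {T₁ T₂ : Finset V} (h : Split G S v T₁ T₂) :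
    qq G S = qq G (insert v T₁) + qq G (insert v T₂) := by
  unfold qq
  rw [h.F_eq]
  linarith [h.card]

lemma Split.sg_eq {S : Finset V} {v : V} {T₁ T₂ : Finset V} (h : Split G S v T₁ T₂)
    (d : V → ℝ) {a b : ℝ} (hab : a + b = d v) :
    sg G w S d = sg G w (insert v T₁) (Function.update d v a)
      + sg G w (insert v T₂) (Function.update d v b) := by
  rw [← Q_one, ← Q_one, ← Q_one, h.Q_eq d _ hab]

omit [DecidableEq V] in
lemma Conn.one_le_qq {S : Finset V} (hS : Conn G S) (h2 : 2 ≤ S.card) : 1 ≤ qq G S := by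
  unfold qq
  linarith [card_le_F_one hS h2]

omit [DecidableEq V] in
lemma Conn.qq_nonneg {S : Finset V} (hS : Conn G S) : 0 ≤ qq G S := by
  by_cases h2 : 2 ≤ S.card
  · linarith [hS.one_le_qq h2]
  · have h1 : S.card = 1 := by have := hS.1.card_pos; omega
    have := F_nonneg (G := G) (S := S) (φ := fun _ _ => 1) fun _ _ _ _ _ => zero_le_one
    unfold qq
    rw [h1]
    simpa using this

omit [DecidableEq V] in
lemma F_swap (S : Finset V) (φ : V → V → ℝ) : F G S (fun u v => φ v u) = F G S φ := by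
  unfold F
  rw [sum_comm]
  refine sum_congr rfl fun u _ => sum_congr rfl fun v _ => ?_
  simp only [G.adj_comm]

lemma F_left_clq {S : Finset V} (hS : Clq G S) (d : V → ℝ) :
    F G S (fun u _ => d u) = (S.card - 1) * ∑ u ∈ S, d u := by
  unfold F
  rw [mul_sum]
  refine sum_congr rfl fun u hu => ?_
  rw [← add_sum_erase _ _ hu, if_neg G.irrefl, zero_add,
      sum_congr rfl (g := fun _ => d u) fun v hv =>
        if_pos (hS u hu v (mem_of_mem_erase hv) (ne_of_mem_erase hv).symm)]
  rw [sum_const, card_erase_of_mem hu, nsmul_eq_mul, Nat.cast_sub (card_pos.2 ⟨u, hu⟩)]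
  simp

/-- Summing the form over all vectors `e a - e b` in a clique. -/
lemma F_pv_clq {S : Finset V} (hS : Clq G S) (d : V → ℝ) :
    F G S (fun a b => Q G w S d (pv a b))
      = 2 * ((S.card - 1) * ∑ u ∈ S, d u - F G S (fun u v => w u v ^ 2)) := by
  rw [F_congr (ψ := fun a b => (d a + d b) + (-1) * (w a b ^ 2 + w b a ^ 2))
    fun a ha b hb hab => by rw [Q_pv d ha hb hab]; ring]
  rw [F_add, F_mul, F_add, F_add, F_swap S (fun u _ => d u), F_swap S (fun u v => w u v ^ 2),
    F_left_clq hS]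
  ring

lemma ineq_clq {S : Finset V} (hne : S.Nonempty) (hS : Clq G S) {d : V → ℝ}
    (hd : PSD G w S d) : F G S w ^ 2 ≤ qq G S * sg G w S d := by
  have h1 := F_sq_le (G := G) S w
  have h2 : 0 ≤ F G S (fun a b => Q G w S d (pv a b)) := F_nonneg fun _ _ _ _ _ => hd _
  rw [F_pv_clq hS] at h2
  have hk : (1 : ℝ) ≤ S.card := by exact_mod_cast hne.card_pos
  unfold qq sg
  rw [F_one_clq hS] at h1 ⊢
  have h3 := mul_nonneg (sub_nonneg.2 hk) h2
  nlinarith

/-- The averaging step. -/
lemma ineq_avg {S : Finset V} (hS : Conn G S) (h3 : 3 ≤ S.card) {d : V → ℝ}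
    (hd : PSD G w S d)
    (ih : ∀ v ∈ S, Conn G (S.erase v) ∧
      F G (S.erase v) w ^ 2 ≤ qq G (S.erase v) * sg G w (S.erase v) d) :
    ∃ D : ℝ, 0 < D ∧ D * F G S w ^ 2
      ≤ (D * qq G S - (S.card * (S.card - 1) - F G S (fun _ _ => 1))) * sg G w S d := by
  have h1 := F_sq_le (G := G) S w
  have h2 := sum_sq_le_sum_mul_sum_of_sq_le_mul S (r := fun v => F G (S.erase v) w)
    (f := fun v => qq G (S.erase v)) (g := fun v => sg G w (S.erase v) d)
    (fun v hv => (ih v hv).1.qq_nonneg) (fun v _ => (hd.mono (erase_subset _ _)).sg_nonneg)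
    (fun v hv => (ih v hv).2)
  have hk : (3 : ℝ) ≤ S.card := by exact_mod_cast h3
  have hq : ∑ v ∈ S, qq G (S.erase v) = (S.card - 2) * (qq G S - 1) := by
    unfold qq
    rw [sum_add_distrib, sum_sub_distrib, F_sum_erase,
      sum_congr rfl (g := fun _ => (S.card : ℝ) - 1) fun v hv => by
        rw [card_erase_of_mem hv, Nat.cast_sub (by omega)]; simp]
    simp only [sum_const, nsmul_eq_mul]
    ring
  have hs : ∑ v ∈ S, sg G w (S.erase v) d = (S.card - 2) * sg G w S d + ∑ u ∈ S, d u := by
    unfold sg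
    rw [sum_add_distrib, F_sum_erase,
      sum_congr rfl (g := fun v => ∑ u ∈ S, d u - d v) fun v hv => sum_erase_eq_sub hv,
      sum_sub_distrib, sum_const, nsmul_eq_mul]
    ring
  rw [F_sum_erase, hq, hs] at h2
  have hq1 := hS.one_le_qq (by omega)
  have hm : F G S (fun _ _ => 1) = qq G S + S.card - 1 := by unfold qq; ring
  have he : F G S (fun u v => w u v ^ 2) = sg G w S d - ∑ u ∈ S, d u := by unfold sg; ring
  rw [hm, he] at h1
  rw [hm]
  generalize (S.card : ℝ) = k at *
  generalize qq G S = q at *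
  generalize sg G w S d = s at *
  generalize ∑ u ∈ S, d u = T at *
  generalize F G S w = f at *
  have h4 : (k - 2) * f ^ 2 ≤ (q - 1) * ((k - 2) * s + T) := by
    have hk2 : 0 < k - 2 := by linarith
    refine le_of_mul_le_mul_left ?_ hk2
    calc (k - 2) * ((k - 2) * f ^ 2) = ((k - 2) * f) ^ 2 := by ring
      _ ≤ _ := h2
      _ = _ := by ring
  refine ⟨(k - 2) * (q + k - 1) + (q - 1), by nlinarith, ?_⟩
  have h5 := mul_le_mul_of_nonneg_left h4 (show 0 ≤ q + k - 1 by linarith)
  have h6 := mul_le_mul_of_nonneg_left h1 (show 0 ≤ q - 1 by linarith)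
  nlinarith

/-- The main inequality. -/
theorem ineq : ∀ S, Conn G S → ∀ d, PSD G w S d → F G S w ^ 2 ≤ qq G S * sg G w S d := by
  refine conn_induction (fun S hne hS d hd => ineq_clq hne hS hd) ?_ ?_
  · intro S v T₁ T₂ h c1 c2 ih1 ih2 d hd
    obtain ⟨a, b, hab, h1, h2⟩ := h.psd hd
    have i1 := ih1 _ h1
    have i2 := ih2 _ h2
    rw [h.F_eq, h.qq_eq, h.sg_eq d hab]
    have := sum_sq_le_sum_mul_sum_of_sq_le_mul (univ : Finset Bool)
      (r := fun i => if i then F G (insert v T₁) w else F G (insert v T₂) w)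
      (f := fun i => if i then qq G (insert v T₁) else qq G (insert v T₂))
      (g := fun i => if i then sg G w (insert v T₁) (Function.update d v a)
        else sg G w (insert v T₂) (Function.update d v b))
      (by rintro (_ | _) - <;> simp [c1.qq_nonneg, c2.qq_nonneg])
      (by rintro (_ | _) - <;> simp [h1.sg_nonneg, h2.sg_nonneg])
      (by rintro (_ | _) - <;> simp [i1, i2])
    simpa using this
  · intro S hS hc h3 ih d hd
    obtain ⟨D, hD, h⟩ := ineq_avg hS h3 hd fun v hv =>
      ⟨(ih v hv).1, (ih v hv).2 d (hd.mono (erase_subset _ _))⟩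
    have h1 := F_one_lt hc
    have h2 := hd.sg_nonneg
    refine le_of_mul_le_mul_left ?_ hD
    nlinarith

/-- The inequality in additive form. -/
lemma ineq_add {S : Finset V} (hS : Conn G S) {d : V → ℝ} (hd : PSD G w S d) :
    2 * F G S w ≤ qq G S + sg G w S d := by
  have h1 := ineq S hS d hd
  have h2 := hS.qq_nonneg
  have h3 := hd.sg_nonneg
  refine abs_le_of_sq_le_sq' ?_ (by linarith) |>.2
  nlinarith [sq_nonneg (qq G S - sg G w S d)]

end Pool.Agent.P.MP_e55f1b_co
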