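import Pool.Agent.P.MP_e55f1b_co.Equality

/-!
The positive and negative parts of the adjacency matrix and the final argument.
-/

open Finset Matrix

namespace Pool.Agent.P.MP_e55f1b_co

variable {V : Type*} [Fintype V] [DecidableEq V]

/-- Jordan decomposition of a real symmetric matrix. -/
lemma exists_parts {A : Matrix V V ℝ} (hA : A.IsHermitian) :
    ∃ X Y : Matrix V V ℝ, X.PosSemidef ∧ Y.PosSemidef ∧ X - Y = A ∧ X * Y = 0 ∧
      (Y * Y).trace = ∑ i with hA.eigenvalues i < 0, hA.eigenvalues i ^ 2 := by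
  set U : Matrix V V ℝ := (hA.eigenvectorUnitary : Matrix V V ℝ) with hU
  have h1 : star U * U = 1 := Unitary.coe_star_mul_self _
  have hs : A = U * diagonal hA.eigenvalues * star U := by
    have := hA.spectral_theorem
    rw [Unitary.conjStarAlgAut_apply] at this
    simpa using this
  have hmul : ∀ f g : V → ℝ, (U * diagonal f * star U) * (U * diagonal g * star U)
      = U * diagonal (fun i => f i * g i) * star U := by
    intro f g
    calc (U * diagonal f * star U) * (U * diagonal g * star U)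
        = U * (diagonal f * (star U * U) * diagonal g) * star U := by
          simp only [Matrix.mul_assoc]
      _ = _ := by rw [h1, Matrix.mul_one, diagonal_mul_diagonal]
  refine ⟨U * diagonal (fun i => max (hA.eigenvalues i) 0) * star U,
    U * diagonal (fun i => max (-hA.eigenvalues i) 0) * star U, ?_, ?_, ?_, ?_, ?_⟩
  · exact (PosSemidef.diagonal fun i => le_max_right _ _).mul_mul_conjTranspose_same U
  · exact (PosSemidef.diagonal fun i => le_max_right _ _).mul_mul_conjTranspose_same U
  · rw [← Matrix.sub_mul, ← Matrix.mul_sub, diagonal_sub]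
    conv_rhs => rw [hs]
    congr 3
    ext i
    exact max_zero_sub_eq_self _
  · rw [hmul]
    have : (fun i => max (hA.eigenvalues i) 0 * max (-hA.eigenvalues i) 0) = fun _ => 0 := by
      ext i
      rcases le_total (hA.eigenvalues i) 0 with h | h
      · rw [max_eq_right h, zero_mul]
      · rw [max_eq_right (neg_nonpos.2 h), mul_zero]
    rw [this]
    simp
  · rw [hmul, trace_mul_cycle, h1, Matrix.one_mul, trace_diagonal, sum_filter]
    refine sum_congr rfl fun i _ => ?_
    split_ifs with h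
    · rw [max_eq_left (neg_nonneg.2 h.le)]; ring
    · rw [max_eq_right (neg_nonpos.2 (not_lt.1 h)), mul_zero]

variable {G : SimpleGraph V} [DecidableRel G.Adj]

omit [DecidableEq V] [Fintype V] in
lemma symm_of_psd {Z : Matrix V V ℝ} (hZ : Z.PosSemidef) (u v : V) : Z v u = Z u v := by
  simpa using hZ.isHermitian.apply u v

omit [DecidableEq V] in
lemma trace_mul_symm (B : Matrix V V ℝ) {Z : Matrix V V ℝ} (hZ : Z.PosSemidef) :
    (B * Z).trace = ∑ u, ∑ v, B u v * Z u v := by
  simp only [trace, Matrix.diag, mul_apply]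
  exact sum_congr rfl fun u _ => sum_congr rfl fun v _ => by rw [symm_of_psd hZ]

variable (G) in
/-- The diagonal obtained by moving the mass of the non-edges. -/
noncomputable def dg (Z : Matrix V V ℝ) (u : V) : ℝ := ∑ v, if G.Adj u v then 0 else Z u v ^ 2

omit [DecidableEq V] in
lemma Q_dg {Z : Matrix V V ℝ} (hZ : Z.PosSemidef) {w : V → V → ℝ}
    (hw : ∀ u v, w u v ^ 2 = Z u v ^ 2) (x : V → ℝ) :
    2 * Q G w univ (dg G Z) x = 2 * (x ⬝ᵥ (Z ⊙ Z) *ᵥ x)
      + ∑ u, ∑ v, if G.Adj u v then 0 else Z u v ^ 2 * (x u - x v) ^ 2 := by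
  have hsw : ∑ u, ∑ v, (if G.Adj u v then 0 else Z u v ^ 2 * x v ^ 2)
      = ∑ u, ∑ v, (if G.Adj u v then 0 else Z u v ^ 2 * x u ^ 2) := by
    rw [sum_comm]
    refine sum_congr rfl fun u _ => sum_congr rfl fun v _ => ?_
    simp only [G.adj_comm, symm_of_psd hZ u v]
  have h1 : ∑ u, dg G Z u * x u ^ 2
      = ∑ u, ∑ v, (if G.Adj u v then 0 else Z u v ^ 2 * x u ^ 2) := by
    refine sum_congr rfl fun u _ => ?_
    rw [dg, sum_mul]
    exact sum_congr rfl fun v _ => by split_ifs <;> simp
  have h2 : 2 * ∑ u, dg G Z u * x u ^ 2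
      = ∑ u, ∑ v, (if G.Adj u v then 0 else Z u v ^ 2 * x u ^ 2)
        + ∑ u, ∑ v, (if G.Adj u v then 0 else Z u v ^ 2 * x v ^ 2) := by
    rw [hsw, h1]; ring
  unfold Q F
  rw [mul_add, h2]
  simp only [dotProduct, mulVec, hadamard_apply, mul_sum, ← sum_add_distrib, hw]
  refine sum_congr rfl fun u _ => sum_congr rfl fun v _ => ?_
  split_ifs <;> ring

omit [DecidableEq V] [Fintype V] in
lemma lap_nonneg (Z : Matrix V V ℝ) (x : V → ℝ) (u v : V) :
    0 ≤ if G.Adj u v then 0 else Z u v ^ 2 * (x u - x v) ^ 2 := by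
  split_ifs <;> positivity

omit [DecidableEq V] in
lemma had_nonneg {Z : Matrix V V ℝ} (hZ : Z.PosSemidef) (x : V → ℝ) :
    0 ≤ x ⬝ᵥ (Z ⊙ Z) *ᵥ x := by
  simpa using (hZ.hadamard hZ).dotProduct_mulVec_nonneg x

omit [DecidableEq V] in
lemma psd_dg {Z : Matrix V V ℝ} (hZ : Z.PosSemidef) {w : V → V → ℝ}
    (hw : ∀ u v, w u v ^ 2 = Z u v ^ 2) : PSD G w univ (dg G Z) := by
  intro x
  have h1 := Q_dg (G := G) hZ hw x
  have h2 := had_nonneg hZ x
  have h3 : 0 ≤ ∑ u, ∑ v, if G.Adj u v then 0 else Z u v ^ 2 * (x u - x v) ^ 2 :=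
    sum_nonneg fun u _ => sum_nonneg fun v _ => lap_nonneg Z x u v
  linarith

omit [DecidableEq V] in
lemma ker_dg {Z : Matrix V V ℝ} (hZ : Z.PosSemidef) {g : V → ℝ}
    (hg : Q G (fun u v => Z u v) univ (dg G Z) g = 0) {u v : V} (huv : ¬ G.Adj u v)
    (hne : g u ≠ g v) : Z u v = 0 := by
  have h1 := Q_dg (G := G) hZ (w := fun u v => Z u v) (fun _ _ => rfl) g
  have h2 := had_nonneg hZ g
  have h3 : ∀ u, 0 ≤ ∑ v, if G.Adj u v then 0 else Z u v ^ 2 * (g u - g v) ^ 2 :=
    fun u => sum_nonneg fun v _ => lap_nonneg Z g u v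
  have h4 : ∑ u, ∑ v, (if G.Adj u v then 0 else Z u v ^ 2 * (g u - g v) ^ 2) = 0 :=
    le_antisymm (by linarith) (sum_nonneg fun u _ => h3 u)
  have h5 := (sum_eq_zero_iff_of_nonneg fun u _ => h3 u).1 h4 u (mem_univ _)
  have h6 := (sum_eq_zero_iff_of_nonneg fun v _ => lap_nonneg Z g u v).1 h5 v (mem_univ _)
  rw [if_neg huv] at h6
  rcases mul_eq_zero.1 h6 with h | h
  · exact pow_eq_zero_iff two_ne_zero |>.1 h
  · exact (hne (sub_eq_zero.1 (pow_eq_zero_iff two_ne_zero |>.1 h))).elim

omit [DecidableEq V] in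
lemma sg_dg {Z : Matrix V V ℝ} (hZ : Z.PosSemidef) {w : V → V → ℝ}
    (hw : ∀ u v, w u v ^ 2 = Z u v ^ 2) : sg G w univ (dg G Z) = (Z * Z).trace := by
  rw [trace_mul_symm Z hZ]
  unfold sg dg F
  simp only [← sum_add_distrib, hw]
  refine sum_congr rfl fun u _ => sum_congr rfl fun v _ => ?_
  split_ifs <;> ring

omit [DecidableEq V] in
lemma F_trace {Z : Matrix V V ℝ} (hZ : Z.PosSemidef) :
    F G univ (fun u v => Z u v) = (G.adjMatrix ℝ * Z).trace := by
  rw [trace_mul_symm _ hZ]
  unfold F
  refine sum_congr rfl fun u _ => sum_congr rfl fun v _ => ?_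
  simp [SimpleGraph.adjMatrix_apply]

omit [DecidableEq V] [DecidableRel G.Adj] in
lemma conn_univ (hG : G.Connected) : Conn G univ := by
  have := hG.nonempty
  refine ⟨univ_nonempty, fun T _ ⟨a, ha⟩ hT => ?_⟩
  by_contra hc
  push Not at hc
  apply hT
  refine eq_univ_of_forall fun b => ?_
  obtain ⟨p⟩ := hG.preconnected a b
  induction p with
  | nil => exact ha
  | cons h p ih =>
    apply ih
    by_contra hn
    exact hc _ ha _ (mem_univ _) hn h

omit [DecidableEq V] in
lemma F_one_univ : F G univ (fun _ _ => 1) = 2 * G.edgeFinset.card := by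
  have := G.sum_degrees_eq_twice_card_edges
  have h2 : (∑ v, (G.degree v : ℝ)) = 2 * G.edgeFinset.card := by exact_mod_cast this
  rw [← h2]
  unfold F
  refine sum_congr rfl fun u _ => ?_
  rw [sum_boole, ← G.card_neighborFinset_eq_degree, G.neighborFinset_eq_filter]

omit [DecidableEq V] [DecidableRel G.Adj] [Fintype V] in
/-- A connected graph with a triangle in which triangles absorb neighbours is complete. -/
lemma eq_top_of_tri (hG : G.Connected) {a b c : V} (hab : G.Adj a b) (hac : G.Adj a c)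
    (hbc : G.Adj b c)
    (H : ∀ u x y z, G.Adj u x → G.Adj u y → G.Adj x y → G.Adj u z → z ≠ x → G.Adj x z) :
    G = ⊤ := by
  have htri : ∀ x, G.Adj a x → ∃ t, G.Adj x t ∧ G.Adj a t := by
    intro x hx
    by_cases hxb : x = b
    · exact ⟨c, hxb ▸ hbc, hac⟩
    · exact ⟨b, (H a b c x hab hac hbc hx hxb).symm, hab⟩
  have hall : ∀ x, x = a ∨ G.Adj a x := by
    intro x
    have key : ∀ {s t : V} (_ : G.Walk s t), (s = a ∨ G.Adj a s) → (t = a ∨ G.Adj a t) := by
      intro s t p
      induction p with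
      | nil => exact id
      | @cons s s' t h p ih =>
        intro hs
        apply ih
        rcases hs with rfl | hs
        · exact Or.inr h
        · obtain ⟨r, h1, h2⟩ := htri s hs
          by_cases hs' : s' = a
          · exact Or.inl hs'
          · exact Or.inr (H s a r s' hs.symm h1 h2 h hs')
    obtain ⟨p⟩ := hG.preconnected a x
    exact key p (Or.inl rfl)
  ext x y
  simp only [SimpleGraph.top_adj]
  refine ⟨fun h => h.ne, fun hxy => ?_⟩
  rcases hall x with rfl | hx
  · exact (hall y).resolve_left (Ne.symm hxy)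
  · rcases hall y with rfl | hy
    · exact hx.symm
    · obtain ⟨r, h1, h2⟩ := htri x hx
      exact H a x r y hx h2 h1 hy (Ne.symm hxy)

/-- In the equality case a triangle absorbs the neighbours of its vertices. -/
lemma absorb {X Y : Matrix V V ℝ} (hX : X.PosSemidef) (hXY : X - Y = G.adjMatrix ℝ)
    (h0 : X * Y = 0) (hg : Good G (fun u v => X u v) univ (dg G X)) {u x y z : V}
    (hux : G.Adj u x) (huy : G.Adj u y) (hxy : G.Adj x y) (huz : G.Adj u z) (hzx : z ≠ x) :
    G.Adj x z := by
  by_contra hn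
  let C : V → Prop := Relation.ReflTransGen (fun s t => G.Adj s t ∧ s ≠ u ∧ t ≠ u) x
  have hCx : C x := Relation.ReflTransGen.refl
  have hCu : ∀ t, C t → t ≠ u := by
    intro t ht
    induction ht with
    | refl => exact hux.ne'
    | tail _ h _ => exact h.2.2
  have hCnb : ∀ t, C t → G.Adj u t → t = x ∨ G.Adj x t := by
    intro t ht hut
    by_contra hc
    push Not at hc
    obtain ⟨P, h1, h2, h3⟩ := hg.blk u (mem_univ _) x (mem_univ _) t (mem_univ _) hux hut
      (Ne.symm hc.1) hc.2
    have : ∀ s, C s → P s := by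
      intro s hs
      induction hs with
      | refl => exact h1
      | tail _ h ih => exact h3 _ (mem_univ _) _ (mem_univ _) h.2.1 h.2.2 h.1 ih
    exact h2 (this t ht)
  have hCz : ¬ C z := fun h => (hCnb z h huz).elim hzx hn
  have hstep : ∀ s t, C s → G.Adj s t → t ≠ u → C t := fun s t hs hst htu =>
    Relation.ReflTransGen.tail hs ⟨hst, hCu s hs, htu⟩
  have hcross : ∀ s t, C s → ¬ C t → G.Adj s t → ∃ c, G.Adj s c ∧ G.Adj t c := by
    intro s t hs ht hst
    have htu : t = u := by
      by_contra hc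
      exact ht (hstep s t hs hst hc)
    subst htu
    rcases hCnb s hs hst.symm with rfl | h
    · exact ⟨y, hxy, huy⟩
    · exact ⟨x, h.symm, hux⟩
  have hzero : ∀ s t, C s → ¬ C t → t ≠ u → X s t = 0 := by
    intro s t hs ht htu
    obtain ⟨g, h1, h2, h3⟩ := hg.sep C (fun a _ b _ hab hP => by
      by_cases ha : C a
      · obtain ⟨c, h1, h2⟩ := hcross a b ha (hP.1 ha) hab
        exact ⟨c, mem_univ _, h1, h2⟩
      · have hb : C b := by
          by_contra hb
          exact ha (hP.2 hb)
        obtain ⟨c, h1, h2⟩ := hcross b a hb ha hab.symm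
        exact ⟨c, mem_univ _, h2, h1⟩) s (mem_univ _) t (mem_univ _) hs ht
    refine ker_dg hX h1 (fun hst => ht (hstep s t hs hst htu)) ?_
    rw [h2, h3]
    exact one_ne_zero
  have hY : ∀ s t, Y s t = X s t - G.adjMatrix ℝ s t := by
    intro s t
    rw [← hXY]
    simp
  have h1 : (X * Y) x z = X x u * Y u z := by
    rw [mul_apply]
    refine sum_eq_single u (fun t _ htu => ?_) (fun h => (h (mem_univ _)).elim)
    by_cases ht : C t
    · have : ¬ G.Adj t z := fun h => hCz (hstep t z ht h huz.ne')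
      rw [hY, hzero t z ht hCz huz.ne']
      simp [this]
    · rw [hzero x t hCx ht htu, zero_mul]
  have h2 := (hg.val x (mem_univ _) u (mem_univ _) hux.symm).1
  have h3 := (hg.val u (mem_univ _) z (mem_univ _) huz).2
  rw [h0, hY] at h1
  simp only [Matrix.zero_apply, SimpleGraph.adjMatrix_apply, huz, if_true] at h1 h2 h3
  nlinarith

theorem main (hG : G.Connected) :
    (∑ i with (G.isHermitian_adjMatrix ℝ).eigenvalues i < 0,
      (G.isHermitian_adjMatrix ℝ).eigenvalues i ^ 2) = (Fintype.card V : ℝ) - 1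
      ↔ G.IsTree ∨ G = ⊤ := by
  obtain ⟨X, Y, hX, hY, hXY, h0, htr⟩ := exists_parts (G.isHermitian_adjMatrix ℝ)
  rw [← htr]
  have hc := conn_univ hG
  have h0' : (Y * X).trace = 0 := by rw [trace_mul_comm, h0, trace_zero]
  have hfX : F G univ (fun u v => X u v) = (X * X).trace := by
    rw [F_trace hX, ← hXY, Matrix.sub_mul, trace_sub, h0', sub_zero]
  have hAY : (G.adjMatrix ℝ * Y).trace = - (Y * Y).trace := by
    rw [← hXY, Matrix.sub_mul, trace_sub, h0, trace_zero, zero_sub]
  have hfY : F G univ (fun u v => -1 * Y u v) = (Y * Y).trace := by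
    rw [F_mul, F_trace hY, hAY]
    ring
  have hsum : (X * X).trace + (Y * Y).trace = F G univ (fun _ _ => 1) := by
    have h1 : F G univ (fun _ _ => 1)
        = F G univ (fun u v => X u v) + F G univ (fun u v => -1 * Y u v) := by
      rw [← F_add]
      refine F_congr fun u _ v _ huv => ?_
      have := congrFun (congrFun hXY u) v
      simp only [Matrix.sub_apply, SimpleGraph.adjMatrix_apply, huv, if_true] at this
      linarith
    rw [h1, hfX, hfY]
  have iX := ineq_add hc (psd_dg (G := G) hX (w := fun u v => X u v) fun _ _ => rfl)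
  have iY := ineq_add hc (psd_dg (G := G) hY (w := fun u v => -1 * Y u v) fun _ _ => by ring)
  rw [sg_dg hX fun _ _ => rfl, hfX] at iX
  rw [sg_dg hY fun _ _ => by ring, hfY] at iY
  have hq : qq G univ = F G univ (fun _ _ => 1) - Fintype.card V + 1 := by
    simp [qq]
  constructor
  · intro h
    by_cases h2 : 2 ≤ Fintype.card V
    · have hg : Good G (fun u v => X u v) univ (dg G X) :=
        good_of_eq univ hc _ (psd_dg hX fun _ _ => rfl) (by simpa using h2) (by
          rw [sg_dg hX fun _ _ => rfl, hfX]; linarith)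
      by_cases htri : ∃ a b c, G.Adj a b ∧ G.Adj a c ∧ G.Adj b c
      · obtain ⟨a, b, c, hab, hac, hbc⟩ := htri
        exact Or.inr (eq_top_of_tri hG hab hac hbc fun u x y z h1 h2 h3 h4 h5 =>
          absorb hX hXY h0 hg h1 h2 h3 h4 h5)
      · left
        push Not at htri
        have := hg.tri fun a _ b _ c _ hab hac => htri a b c hab hac
        rw [F_one_univ, card_univ] at this
        rw [SimpleGraph.isTree_iff_connected_and_card]
        refine ⟨hG, ?_⟩
        rw [Nat.card_eq_fintype_card, Nat.card_eq_fintype_card, ← SimpleGraph.edgeFinset_card]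
        have h3 : (G.edgeFinset.card : ℝ) + 1 = Fintype.card V := by linarith
        exact_mod_cast h3
    · right
      have : Subsingleton V := Fintype.card_le_one_iff_subsingleton.1 (by omega)
      exact Subsingleton.elim _ _
  · rintro (h | h)
    · have h1 := h.card_edgeFinset
      have h3 : (G.edgeFinset.card : ℝ) + 1 = Fintype.card V := by exact_mod_cast h1
      rw [F_one_univ] at hsum hq
      linarith
    · have hclq : Clq G univ := fun a _ b _ hab => by rw [h]; exact hab
      refine le_antisymm ?_ (by linarith)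
      have hn : (0 : ℝ) < Fintype.card V := by
        have := hG.nonempty
        exact_mod_cast Fintype.card_pos
      obtain ⟨n, hndef⟩ : ∃ n : ℝ, n = Fintype.card V := ⟨_, rfl⟩
      rw [← hndef] at hn ⊢
      have h1 : 0 ≤ ∑ u, ∑ v, Y u v := by
        simpa [dotProduct, mulVec] using hY.dotProduct_mulVec_nonneg fun _ => 1
      have h2 : 0 ≤ ∑ u, ∑ v, ((n - 1) - n * G.adjMatrix ℝ u v - n * Y u v) ^ 2 :=
        sum_nonneg fun _ _ => sum_nonneg fun _ _ => sq_nonneg _
      have h3 : ∑ u, ∑ v, ((n - 1) - n * G.adjMatrix ℝ u v - n * Y u v) ^ 2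
          = (n - 1) ^ 2 * ∑ _u : V, ∑ _v : V, (1 : ℝ)
            + (n ^ 2 - 2 * n * (n - 1)) * F G univ (fun _ _ => 1)
            - 2 * n * (n - 1) * ∑ u, ∑ v, Y u v
            + 2 * n ^ 2 * (G.adjMatrix ℝ * Y).trace + n ^ 2 * (Y * Y).trace := by
        rw [trace_mul_symm _ hY, trace_mul_symm _ hY]
        unfold F
        simp only [mul_sum, ← sum_add_distrib, ← sum_sub_distrib]
        refine sum_congr rfl fun u _ => sum_congr rfl fun v _ => ?_
        simp only [SimpleGraph.adjMatrix_apply]
        split_ifs <;> ring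
      have hn1 : 1 ≤ n := by
        have := hG.nonempty
        have : 1 ≤ Fintype.card V := Fintype.card_pos
        rw [hndef]
        exact_mod_cast this
      rw [h3, hAY, F_one_clq hclq, card_univ] at h2
      simp only [sum_const, card_univ, nsmul_eq_mul, mul_one] at h2
      rw [← hndef] at h2
      have h4 : 0 ≤ n * (n - 1) * ∑ u, ∑ v, Y u v :=
        mul_nonneg (mul_nonneg hn.le (by linarith)) h1
      have h5 : n ^ 2 * (Y * Y).trace ≤ n ^ 2 * (n - 1) := by nlinarith
      exact le_of_mul_le_mul_left h5 (by positivity)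

end Pool.Agent.P.MP_e55f1b_co
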