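import Pool.Agent.P.MP_e55f1b_co.Sep

/-!
First mechanism: the relation `X Y = 0` tested against two blocks at a common vertex.
-/

open Finset Matrix

namespace Pool.Agent.P.MP_e55f1b_co

variable {V : Type} [Fintype V] [DecidableEq V] {G : SimpleGraph V} [DecidableRel G.Adj]
  {X Y : Matrix V V ℝ} {ε : ℝ}

omit [DecidableEq V] in
lemma St.orth (H : St G X Y ε) (K B : Finset V) :
    ∑ t, (∑ s ∈ K, X s t) * ∑ s ∈ B, Y t s = 0 := by
  simp only [sum_mul_sum]
  rw [sum_comm]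
  refine sum_eq_zero fun s _ => ?_
  rw [sum_comm]
  refine sum_eq_zero fun s' _ => ?_
  have := congrFun (congrFun H.h0 s) s'
  rwa [mul_apply] at this

omit [DecidableEq V] in
/-- `|X p| ≤ |A p|` -/
lemma St.pos_le (H : St G X Y ε) (K : Finset V) :
    ∑ t, (∑ s ∈ K, X s t) ^ 2 ≤ ∑ t, ((K.filter fun s => G.Adj s t).card : ℝ) ^ 2 := by
  have h1 := H.orth K K
  have h2 : ∀ t, ((K.filter fun s => G.Adj s t).card : ℝ) = ∑ s ∈ K, X s t - ∑ s ∈ K, Y t s := by
    intro t
    rw [← sum_boole, ← sum_sub_distrib]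
    refine sum_congr rfl fun s _ => ?_
    rw [symm_of_psd H.hY, H.Y_eq]
    ring
  have h3 : ∑ t, ((K.filter fun s => G.Adj s t).card : ℝ) ^ 2 = ∑ t, (∑ s ∈ K, X s t) ^ 2
      - 2 * ∑ t, (∑ s ∈ K, X s t) * ∑ s ∈ K, Y t s + ∑ t, (∑ s ∈ K, Y t s) ^ 2 := by
    rw [mul_sum, ← sum_sub_distrib, ← sum_add_distrib]
    exact sum_congr rfl fun t _ => by rw [h2]; ring
  have h4 : 0 ≤ ∑ t, (∑ s ∈ K, Y t s) ^ 2 := sum_nonneg fun _ _ => sq_nonneg _
  linarith

lemma cls_count (hb : Blk G univ) {u x : V} (hux : G.Adj u x) :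
    ∑ t, (((cls G u x).filter fun s => G.Adj s t).card : ℝ) ^ 2 ≤
      (bt G u x + 1) * bt G u x ^ 2 + Fintype.card V := by
  have h1 : ∀ t, (((cls G u x).filter fun s => G.Adj s t).card : ℝ) ^ 2 ≤
      (if t ∈ insert u (cls G u x) then bt G u x ^ 2 else 0) + 1 := by
    intro t
    split_ifs with ht
    · have : (((cls G u x).filter fun s => G.Adj s t).card : ℝ) ≤ bt G u x := by
        unfold bt; exact_mod_cast card_filter_le _ _
      nlinarith [Nat.cast_nonneg (α := ℝ) ((cls G u x).filter fun s => G.Adj s t).card]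
    · have h2 : ((cls G u x).filter fun s => G.Adj s t).card ≤ 1 := by
        rw [card_le_one]
        intro a ha b hb'
        by_contra hab
        obtain ⟨ha, hat⟩ := mem_filter.1 ha
        obtain ⟨hb', hbt⟩ := mem_filter.1 hb'
        have htu : u ≠ t := fun e => ht (e ▸ mem_insert_self _ _)
        have hua := adj_of_mem_cls hux ha
        have hut : G.Adj u t := hb.dia (mem_univ a) (mem_univ _) (mem_univ _) (mem_univ b)
          hua.symm hat htu (Ne.symm hab) (adj_of_mem_cls hux hb') hbt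
        exact ht (mem_insert_of_mem (cls_eq hb hux ha ▸ mem_cls.2 (Or.inr ⟨hut, hat⟩)))
      have h3 : (((cls G u x).filter fun s => G.Adj s t).card : ℝ) ≤ 1 := by exact_mod_cast h2
      nlinarith [Nat.cast_nonneg (α := ℝ) ((cls G u x).filter fun s => G.Adj s t).card]
  refine (sum_le_sum fun t _ => h1 t).trans ?_
  rw [sum_add_distrib, sum_ite_mem, univ_inter, sum_const, sum_const, card_univ, nsmul_eq_mul,
    nsmul_eq_mul, mul_one]
  have : ((insert u (cls G u x)).card : ℝ) ≤ bt G u x + 1 := by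
    unfold bt; exact_mod_cast card_insert_le _ _
  have := mul_le_mul_of_nonneg_right this (sq_nonneg (bt G u x))
  linarith

lemma sum_cv (hb : Blk G univ) {u x : V} (hux : G.Adj u x) :
    ∑ s ∈ cls G u x, cv G univ u s = bt G u x * (bt G u x / (bt G u x + 1)) := by
  rw [sum_congr rfl (g := fun _ => bt G u x / (bt G u x + 1)) fun s hs => by
    rw [cv_eq, bt_congr hb hux hs], sum_const, nsmul_eq_mul]
  rfl

lemma mech1_alg {α β n ε P R S₁ S₂ : ℝ} (hα : 2 ≤ α) (hβ : 1 ≤ β) (hβα : β ≤ α)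
    (hαβ : α * β ≤ 20 * n) (hε : 0 ≤ ε) (hs : n * ε ≤ 1 / 10000)
    (hP : α * (α / (α + 1)) - 1 / 100 ≤ P) (hR : β - β * (β / (β + 1)) - 1 / 100 ≤ R)
    (hPR : P * R = S₁ + S₂) (h1 : S₁ ^ 2 ≤ ((α + 1) * α ^ 2 + n) * (β * (4 * ε)))
    (h2 : S₂ ^ 2 ≤ α * (4 * ε) * (β * n)) : False := by
  have hn : 0 ≤ n := by nlinarith
  have p1 : 2 / 3 ≤ α / (α + 1) := by rw [le_div_iff₀ (by linarith)]; linarith
  have p2 : 66 / 100 * α ≤ P := by nlinarith
  have r1 : β - β * (β / (β + 1)) = β / (β + 1) := by field_simp; ring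
  have r2 : 1 / 2 ≤ β / (β + 1) := by rw [le_div_iff₀ (by linarith)]; linarith
  have r3 : 49 / 100 ≤ R := by linarith
  have q1 : 32 / 100 * α ≤ P * R := by nlinarith
  have q2 : (32 / 100 * α) ^ 2 ≤ (P * R) ^ 2 := pow_le_pow_left₀ (by linarith) q1 2
  have q3 : (P * R) ^ 2 ≤ 2 * (S₁ ^ 2 + S₂ ^ 2) := by rw [hPR]; nlinarith [sq_nonneg (S₁ - S₂)]
  have q4 : S₁ ^ 2 + S₂ ^ 2 ≤ 4 * ε * ((α + 1) * (β * (α ^ 2 + n))) := by nlinarith
  have q5 : β * (α ^ 2 + n) ≤ 21 * n * α := by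
    have := mul_le_mul_of_nonneg_left hαβ (show 0 ≤ α by linarith)
    have := mul_le_mul_of_nonneg_right hβα hn
    nlinarith
  have q6 : (α + 1) * (β * (α ^ 2 + n)) ≤ (3 / 2 * α) * (21 * n * α) :=
    mul_le_mul (by linarith) q5 (by positivity) (by linarith)
  have q7 := mul_le_mul_of_nonneg_left q6 (show 0 ≤ 4 * ε by linarith)
  have q8 := mul_le_mul_of_nonneg_right hs (sq_nonneg α)
  nlinarith

/-- Two blocks at a common vertex, the larger with at least three vertices, are both large. -/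
lemma St.mech1 (H : St G X Y ε) {u x z : V} (hux : G.Adj u x) (huz : G.Adj u z)
    (hz : z ∉ cls G u x) (hα : 2 ≤ bt G u x) (hβα : bt G u z ≤ bt G u x) :
    20 * (Fintype.card V : ℝ) < bt G u x * bt G u z := by
  by_contra hcon
  have hcard : 1 < (cls G u x).card := by
    have : (2 : ℝ) ≤ (cls G u x).card := hα
    exact_mod_cast (show (1 : ℝ) < (cls G u x).card by linarith)
  obtain ⟨y, hy, hyx⟩ := exists_mem_ne hcard x
  obtain ⟨huy, hxy⟩ := (mem_cls.1 hy).resolve_left hyx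
  obtain ⟨C, D, hsp, hC, hE⟩ := H.sep hux huy hxy huz hz
  have hKC : cls G u x ⊆ C := fun s hs => (hC s (adj_of_mem_cls hux hs)).2 hs
  have hBD : cls G u z ⊆ D := by
    intro s hs
    have hus := adj_of_mem_cls huz hs
    rcases (hsp.mem s).1 (mem_univ _) with h | h | h
    · exact (hus.ne' h).elim
    · refine (hz ?_).elim
      rw [← cls_eq H.hb hux ((hC s hus).1 h), cls_eq H.hb huz hs]
      exact self_mem_cls u z
    · exact h
  have h0 := H.orth (cls G u x) (cls G u z)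
  rw [hsp.sum] at h0
  have e1 := abs_le.1 (H.eta (u := u) (T := cls G u x) (fun s hs => adj_of_mem_cls hux hs)
    (a := fun _ => 1) fun _ _ => by simp)
  have e2 := abs_le.1 (H.eta (u := u) (T := cls G u z) (fun s hs => adj_of_mem_cls huz hs)
    (a := fun _ => 1) fun _ _ => by simp)
  simp only [one_mul, sum_sub_distrib] at e1 e2
  rw [sum_cv H.hb hux] at e1
  rw [sum_cv H.hb huz] at e2
  have e3 : ∑ s ∈ cls G u x, X s u = ∑ s ∈ cls G u x, X u s :=
    sum_congr rfl fun s _ => symm_of_psd H.hX u s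
  have e4 : ∑ s ∈ cls G u z, Y u s = ∑ s ∈ cls G u z, X u s - bt G u z := by
    rw [sum_congr rfl (g := fun s => X u s - 1) fun s hs => by
      rw [H.Y_eq, if_pos (adj_of_mem_cls huz hs)], sum_sub_distrib, sum_const, nsmul_eq_mul, mul_one]
    rfl
  have hε := H.eps_nonneg
  have hb0 : 0 ≤ bt G u z := by linarith [one_le_bt (G := G) u z]
  have a1 : ∑ t ∈ C, (∑ s ∈ cls G u x, X s t) ^ 2 ≤
      (bt G u x + 1) * bt G u x ^ 2 + Fintype.card V :=
    (sum_le_sum_of_subset_of_nonneg (subset_univ C) fun _ _ _ => sq_nonneg _).trans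
      ((H.pos_le _).trans (cls_count H.hb hux))
  have a2 : ∑ t ∈ C, (∑ s ∈ cls G u z, Y t s) ^ 2 ≤ bt G u z * (4 * ε) := by
    refine le_trans ?_ (mul_le_mul_of_nonneg_left hE hb0)
    rw [mul_sum]
    refine sum_le_sum fun t ht => sq_sum_le_card_mul_sum_sq.trans
      (mul_le_mul_of_nonneg_left ?_ hb0)
    refine le_trans (le_of_eq (sum_congr rfl fun s hs => ?_))
      (sum_le_sum_of_subset_of_nonneg hBD fun _ _ _ => sq_nonneg _)
    rw [H.Y_eq, if_neg (hsp.noadj t ht s (hBD hs)), sub_zero]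
  have a3 : ∑ t ∈ D, (∑ s ∈ cls G u x, X s t) ^ 2 ≤ bt G u x * (4 * ε) := by
    refine le_trans ?_ (mul_le_mul_of_nonneg_left hE (by linarith))
    rw [sum_comm, mul_sum]
    exact sum_le_sum fun t _ => sq_sum_le_card_mul_sum_sq.trans (mul_le_mul_of_nonneg_left
      (sum_le_sum_of_subset_of_nonneg hKC fun _ _ _ => sq_nonneg _) (by linarith))
  have a4 : ∑ t ∈ D, (∑ s ∈ cls G u z, Y t s) ^ 2 ≤ bt G u z * Fintype.card V := by
    refine (sum_le_sum_of_subset_of_nonneg (subset_univ D) fun _ _ _ => sq_nonneg _).trans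
      (le_trans ?_ (mul_le_mul_of_nonneg_left H.hY2 hb0))
    rw [mul_sum]
    exact sum_le_sum fun t _ => sq_sum_le_card_mul_sum_sq.trans (mul_le_mul_of_nonneg_left
      (sum_le_sum_of_subset_of_nonneg (subset_univ _) fun _ _ _ => sq_nonneg _) hb0)
  have c1 := (sum_mul_sq_le_sq_mul_sq C (fun t => ∑ s ∈ cls G u x, X s t)
    fun t => ∑ s ∈ cls G u z, Y t s).trans
    (mul_le_mul a1 a2 (sum_nonneg fun _ _ => sq_nonneg _) (by positivity))
  have c2 := (sum_mul_sq_le_sq_mul_sq D (fun t => ∑ s ∈ cls G u x, X s t)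
    fun t => ∑ s ∈ cls G u z, Y t s).trans
    (mul_le_mul a3 a4 (sum_nonneg fun _ _ => sq_nonneg _) (by positivity))
  refine mech1_alg hα (one_le_bt u z) hβα (not_lt.1 hcon) hε H.hs
    (P := ∑ s ∈ cls G u x, X s u) (R := -∑ s ∈ cls G u z, Y u s) (by rw [e3]; linarith)
    (by rw [e4]; linarith) (by linarith) c1 c2

end Pool.Agent.P.MP_e55f1b_co
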