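import Pool.Agent.P.MP_e55f1b_co.Mech1

/-!
Second mechanism: when all blocks are large, the diagonal of `X` at a cut vertex is too large.
-/

open Finset Matrix

namespace Pool.Agent.P.MP_e55f1b_co

variable {V : Type} [Fintype V] [DecidableEq V] (G : SimpleGraph V) [DecidableRel G.Adj]

/-- The neighbours of `u`. -/
def nb (u : V) : Finset V := univ.filter fun t => G.Adj u t

/-- The number of blocks at `u`. -/
noncomputable def rho (u : V) : ℝ := ∑ t ∈ nb G u, 1 / bt G u t

variable {G} {X Y : Matrix V V ℝ} {ε : ℝ}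

omit [DecidableEq V] in
lemma mem_nb {u t : V} : t ∈ nb G u ↔ G.Adj u t := by simp [nb]

lemma bt_pos (u t : V) : 0 < bt G u t := by linarith [one_le_bt (G := G) u t]

lemma cls_sub_nb {u x : V} (hux : G.Adj u x) : cls G u x ⊆ nb G u :=
  fun _ hs => mem_nb.2 (adj_of_mem_cls hux hs)

lemma sum_cls_inv (hb : Blk G univ) {u x : V} (hux : G.Adj u x) :
    ∑ s ∈ cls G u x, 1 / bt G u s = 1 := by
  rw [sum_congr rfl (g := fun _ => 1 / bt G u x) fun s hs => by rw [bt_congr hb hux hs],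
    sum_const, nsmul_eq_mul]
  exact mul_one_div_cancel (bt_pos u x).ne'

lemma not_mem_cls_symm (hb : Blk G univ) {u x z : V} (huz : G.Adj u z) (hz : z ∉ cls G u x) :
    x ∉ cls G u z := fun h => hz (cls_eq hb huz h ▸ self_mem_cls u z)

lemma two_le_rho (hb : Blk G univ) {u x z : V} (hux : G.Adj u x) (huz : G.Adj u z)
    (hz : z ∉ cls G u x) : 2 ≤ rho G u := by
  have hd : Disjoint (cls G u x) (cls G u z) := disjoint_left.2 fun s h1 h2 => hz (by
    rw [← cls_eq hb hux h1, cls_eq hb huz h2]; exact self_mem_cls u z)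
  have h1 : ∑ s ∈ cls G u x ∪ cls G u z, 1 / bt G u s ≤ rho G u :=
    sum_le_sum_of_subset_of_nonneg (union_subset (cls_sub_nb hux) (cls_sub_nb huz))
      fun s _ _ => (one_div_pos.2 (bt_pos u s)).le
  rw [sum_union hd, sum_cls_inv hb hux, sum_cls_inv hb huz] at h1
  linarith

lemma St.big (H : St G X Y ε) {u x z : V} (hux : G.Adj u x) (huz : G.Adj u z)
    (hz : z ∉ cls G u x) (h2 : 2 ≤ bt G u x) :
    20 * (Fintype.card V : ℝ) < bt G u x * bt G u z := by
  rcases le_total (bt G u z) (bt G u x) with h | h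
  · exact H.mech1 hux huz hz h2 h
  · rw [mul_comm (bt G u x)]
    exact H.mech1 huz hux (not_mem_cls_symm H.hb huz hz) (h2.trans h) h

lemma St.diag_le (H : St G X Y ε) (t : V) : X t t ^ 2 ≤ rho G t + 1 / 100 := by
  have h1 : ∑ s, X t s * Y s t = 0 := by
    have := congrFun (congrFun H.h0 t) t
    rwa [mul_apply] at this
  have h2 : ∑ s, X t s * Y s t = ∑ s, X t s ^ 2 - ∑ s ∈ nb G t, X t s := by
    rw [nb, sum_filter, ← sum_sub_distrib]
    refine sum_congr rfl fun s _ => ?_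
    rw [symm_of_psd H.hY, H.Y_eq]
    split_ifs <;> ring
  have h3 : ∑ s ∈ insert t (nb G t), X t s ^ 2 ≤ ∑ s, X t s ^ 2 :=
    sum_le_sum_of_subset_of_nonneg (subset_univ _) fun _ _ _ => sq_nonneg _
  rw [sum_insert (by simp [nb])] at h3
  have h4 := (abs_le.1 (H.eta (u := t) (T := nb G t) (fun s hs => mem_nb.1 hs)
    (a := fun s => 1 - 2 * cv G univ t s) fun s _ => by
      have := bt_pos (G := G) t s
      have p1 : 0 ≤ cv G univ t s := by rw [cv_eq]; positivity
      have p2 : cv G univ t s ≤ 1 := by rw [cv_eq, div_le_one (by linarith)]; linarith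
      rw [abs_le]; constructor <;> linarith)).2
  have h5 : ∑ s ∈ nb G t, (X t s - X t s ^ 2) ≤
      ∑ s ∈ nb G t, (1 / bt G t s + (1 - 2 * cv G univ t s) * (X t s - cv G univ t s)) := by
    refine sum_le_sum fun s _ => ?_
    have hp := bt_pos (G := G) t s
    have p1 : cv G univ t s - cv G univ t s ^ 2 ≤ 1 / bt G t s := by
      have : cv G univ t s - cv G univ t s ^ 2 = bt G t s / (bt G t s + 1) ^ 2 := by
        rw [cv_eq]; field_simp; ring
      rw [this, div_le_div_iff₀ (by positivity) hp]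
      nlinarith
    nlinarith [sq_nonneg (X t s - cv G univ t s)]
  rw [sum_sub_distrib, sum_add_distrib] at h5
  unfold rho
  linarith

lemma St.cross (H : St G X Y ε) {u t : V} (hut : G.Adj u t) (h2 : 2 ≤ bt G u t) :
    ∑ s ∈ nb G u, (if s ∈ cls G u t then 0 else X t s ^ 2) ≤ 4 * ε := by
  by_cases hex : ∃ z, G.Adj u z ∧ z ∉ cls G u t
  · obtain ⟨z, huz, hz⟩ := hex
    have hcard : 1 < (cls G u t).card := by
      have : (2 : ℝ) ≤ (cls G u t).card := h2
      exact_mod_cast (show (1 : ℝ) < (cls G u t).card by linarith)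
    obtain ⟨y, hy, hyx⟩ := exists_mem_ne hcard t
    obtain ⟨huy, hxy⟩ := (mem_cls.1 hy).resolve_left hyx
    obtain ⟨C, D, hsp, hC, hE⟩ := H.sep hut huy hxy huz hz
    refine le_trans ?_ ((single_le_sum (f := fun s => ∑ s' ∈ D, X s s' ^ 2)
      (fun _ _ => sum_nonneg fun _ _ => sq_nonneg _) ((hC t hut).2 (self_mem_cls u t))).trans hE)
    rw [sum_ite, sum_const_zero, zero_add]
    refine sum_le_sum_of_subset_of_nonneg (fun s hs => ?_) fun _ _ _ => sq_nonneg _
    obtain ⟨hs1, hs2⟩ := mem_filter.1 hs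
    have hus := mem_nb.1 hs1
    rcases (hsp.mem s).1 (mem_univ _) with h | h | h
    · exact (hus.ne' h).elim
    · exact (hs2 ((hC s hus).1 h)).elim
    · exact h
  · push Not at hex
    rw [sum_eq_zero fun s hs => if_pos (hex s (mem_nb.1 hs))]
    linarith [H.eps_nonneg]

omit [DecidableEq V] in
lemma psd_test [DecidableEq V] (hX : X.PosSemidef) (u : V) (T : Finset V) (y : V → ℝ) :
    2 * ∑ t ∈ T, y t * X u t ≤ X u u + ∑ t ∈ T, ∑ s ∈ T, y t * y s * X t s := by
  have h1 := hX.dotProduct_mulVec_nonneg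
    (fun s => (if s = u then 1 else 0) - if s ∈ T then y s else 0)
  have h2 : ∑ t ∈ T, y t * X t u = ∑ t ∈ T, y t * X u t :=
    sum_congr rfl fun t _ => by rw [symm_of_psd hX]
  have h3 : ∀ t, ∑ s, X t s * ((if s = u then 1 else 0) - if s ∈ T then y s else 0)
      = X t u - ∑ s ∈ T, y s * X t s := by
    intro t
    simp only [mul_sub, sum_sub_distrib, mul_ite, mul_one, mul_zero, sum_ite_eq', mem_univ,
      if_true, sum_ite_mem, univ_inter]
    congr 1
    exact sum_congr rfl fun s _ => mul_comm _ _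
  simp only [star_trivial, dotProduct, mulVec, h3] at h1
  simp only [sub_mul, sum_sub_distrib, ite_mul, one_mul, zero_mul, sum_ite_eq', mem_univ,
    if_true, sum_ite_mem, univ_inter] at h1
  simp only [mul_sub, sum_sub_distrib, mul_sum, ← mul_assoc] at h1
  linarith

/-- A vertex with at least two blocks, all of them large, whose neighbours have no more blocks. -/
lemma St.mech2_aux (H : St G X Y ε) {u : V} (hρ : 2 ≤ rho G u)
    (h2 : ∀ t, G.Adj u t → 2 ≤ bt G u t) (hsq : ∑ t ∈ nb G u, (1 / bt G u t) ^ 2 ≤ 1 / 10)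
    (hmax : ∀ t, G.Adj u t → rho G t ≤ rho G u) : False := by
  obtain ⟨x, hx0, hx⟩ : ∃ x : ℝ, 0 ≤ x ∧ x ^ 2 = rho G u + 1 / 100 :=
    ⟨_, Real.sqrt_nonneg _, Real.sq_sqrt (by linarith)⟩
  have hdiag : ∀ t, rho G t ≤ rho G u → X t t ≤ x := fun t ht =>
    (abs_le_of_sq_le_sq' (by linarith [H.diag_le t]) hx0).2
  have hy0 : ∀ t, 0 ≤ 1 / bt G u t := fun t => (one_div_pos.2 (bt_pos u t)).le
  have h1 := psd_test H.hX u (nb G u) fun t => 1 / bt G u t
  -- the linear term
  have l1 := (abs_le.1 (H.eta (u := u) (T := nb G u) (fun s hs => mem_nb.1 hs)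
    (a := fun s => 1 / bt G u s) fun s _ => by
      rw [abs_of_nonneg (hy0 s), div_le_one (bt_pos u s)]; exact one_le_bt u s)).1
  have l2 : ∑ t ∈ nb G u, (1 / bt G u t - (1 / bt G u t) ^ 2
      + 1 / bt G u t * (X u t - cv G univ u t)) ≤ ∑ t ∈ nb G u, 1 / bt G u t * X u t := by
    refine sum_le_sum fun t _ => ?_
    have hp := bt_pos (G := G) u t
    have : 1 / bt G u t * cv G univ u t - (1 / bt G u t - (1 / bt G u t) ^ 2)
        = 1 / (bt G u t ^ 2 * (bt G u t + 1)) := by rw [cv_eq]; field_simp; ring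
    have p2 : 0 ≤ 1 / (bt G u t ^ 2 * (bt G u t + 1)) := by positivity
    linarith
  rw [sum_add_distrib, sum_sub_distrib] at l2
  -- the quadratic term
  set η : V → V → ℝ := fun t s =>
    if G.Adj t s then X t s - cv G univ t s else if s ∈ cls G u t then 0 else X t s with hη
  have q1 : ∀ t ∈ nb G u, ∀ s ∈ nb G u, X t s ≤
      (if s = t then x else 0) + (if s ∈ cls G u t then 1 else 0) + η t s := by
    intro t ht s hs
    by_cases hst : s = t
    · subst hst
      simp only [hη, if_true, self_mem_cls, G.irrefl, if_false]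
      linarith [hdiag s (hmax s (mem_nb.1 hs))]
    by_cases hadj : G.Adj t s
    · have p1 : cv G univ t s ≤ 1 := by
        have := bt_pos (G := G) t s
        rw [cv_eq, div_le_one (by linarith)]; linarith
      simp only [hη, if_neg hst, if_pos hadj, if_pos (mem_cls.2 (Or.inr ⟨mem_nb.1 hs, hadj⟩))]
      linarith
    · have p1 : s ∉ cls G u t := fun h => (mem_cls.1 h).elim hst fun h => hadj h.2
      simp only [hη, if_neg hst, if_neg hadj, if_neg p1]
      linarith
  have q2 : ∑ t ∈ nb G u, ∑ s ∈ nb G u, 1 / bt G u t * (1 / bt G u s) * X t s ≤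
      ∑ t ∈ nb G u, (x * (1 / bt G u t) ^ 2 + 1 / bt G u t
        + ∑ s ∈ nb G u, 1 / bt G u t * (1 / bt G u s) * η t s) := by
    refine sum_le_sum fun t ht => (sum_le_sum fun s hs =>
      mul_le_mul_of_nonneg_left (q1 t ht s hs) (mul_nonneg (hy0 t) (hy0 s))).trans (le_of_eq ?_)
    simp only [mul_add, sum_add_distrib, mul_ite, mul_zero, mul_one, sum_ite_eq', ht, if_true,
      sum_ite_mem, inter_eq_right.2 (cls_sub_nb (mem_nb.1 ht)), ← mul_sum,
      sum_cls_inv H.hb (mem_nb.1 ht)]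
    ring
  have q3 : ∑ t ∈ nb G u, ∑ s ∈ nb G u, η t s ^ 2 ≤ ε + Fintype.card V * (4 * ε) := by
    have p1 : ∑ t ∈ nb G u, ∑ s ∈ nb G u, η t s ^ 2 ≤
        ∑ t ∈ nb G u, (∑ s, (if G.Adj t s then (X t s - cv G univ t s) ^ 2 else 0) + 4 * ε) := by
      refine sum_le_sum fun t ht => le_trans ?_ (add_le_add
        (sum_le_sum_of_subset_of_nonneg (subset_univ (nb G u)) fun s _ _ => by
          split_ifs <;> positivity) (H.cross (mem_nb.1 ht) (h2 t (mem_nb.1 ht))))
      rw [← sum_add_distrib]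
      refine sum_le_sum fun s _ => ?_
      simp only [hη]
      split_ifs <;> nlinarith [sq_nonneg (X t s)]
    rw [sum_add_distrib, sum_const, nsmul_eq_mul] at p1
    have p2 : ((nb G u).card : ℝ) ≤ Fintype.card V := by exact_mod_cast card_le_univ _
    have p3 := mul_le_mul_of_nonneg_right p2 (show 0 ≤ 4 * ε by linarith [H.eps_nonneg])
    have p4 := (sum_le_sum_of_subset_of_nonneg (subset_univ (nb G u)) fun t _ _ =>
      sum_nonneg fun s _ => by split_ifs <;> positivity).trans H.val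
    linarith
  have q4 : ∑ t ∈ nb G u, ∑ s ∈ nb G u, 1 / bt G u t * (1 / bt G u s) * η t s ≤ 1 / 100 := by
    have p1 := sum_mul_sq_le_sq_mul_sq (nb G u ×ˢ nb G u)
      (fun p => 1 / bt G u p.1 * (1 / bt G u p.2)) fun p => η p.1 p.2
    rw [sum_product, sum_product, sum_product] at p1
    simp only [mul_pow, ← sum_mul_sum] at p1
    have n1 : (1 : ℝ) ≤ Fintype.card V := (one_le_bt u u).trans (bt_le (G := G) u u)
    have p2 : ε ≤ Fintype.card V * ε := le_mul_of_one_le_left H.eps_nonneg n1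
    have p3 : 0 ≤ ∑ t ∈ nb G u, (1 / bt G u t) ^ 2 := sum_nonneg fun _ _ => sq_nonneg _
    have p4 := mul_le_mul (mul_le_mul hsq hsq p3 (by norm_num)) (q3.trans (show _ ≤ 5 / 10000 by
      linarith [H.hs])) (sum_nonneg fun _ _ => sum_nonneg fun _ _ => sq_nonneg _) (by norm_num)
    exact (abs_le_of_sq_le_sq' (by linarith) (by norm_num)).2
  rw [sum_add_distrib, sum_add_distrib, ← mul_sum] at q2
  have f1 := hdiag u le_rfl
  have f2 := mul_le_mul_of_nonneg_left hsq hx0
  have f3 : rho G u ≤ 11 / 10 * x + 23 / 100 := by unfold rho; linarith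
  nlinarith

/-- No configuration of two blocks at a vertex, one with at least three vertices. -/
theorem St.no_config (H : St G X Y ε) {u₀ x₀ z₀ : V} (h1 : G.Adj u₀ x₀) (h2 : G.Adj u₀ z₀)
    (h3 : z₀ ∉ cls G u₀ x₀) (h4 : 2 ≤ bt G u₀ x₀) : False := by
  classical
  obtain ⟨u, hu, hmax⟩ := exists_max_image (univ.filter fun u => ∃ x, G.Adj u x ∧ 2 ≤ bt G u x)
    (rho G) ⟨u₀, mem_filter.2 ⟨mem_univ _, x₀, h1, h4⟩⟩
  obtain ⟨x, hux, hx⟩ := (mem_filter.1 hu).2
  have hρ : 2 ≤ rho G u :=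
    (two_le_rho H.hb h1 h2 h3).trans (hmax u₀ (mem_filter.2 ⟨mem_univ _, x₀, h1, h4⟩))
  obtain ⟨z, huz, hz⟩ : ∃ z, G.Adj u z ∧ z ∉ cls G u x := by
    by_contra hno
    push Not at hno
    have : nb G u = cls G u x := Subset.antisymm (fun s hs => hno s (mem_nb.1 hs)) (cls_sub_nb hux)
    rw [rho, this, sum_cls_inv H.hb hux] at hρ
    norm_num at hρ
  have hbig : ∀ t, G.Adj u t → 20 ≤ bt G u t := by
    intro t ht
    by_cases htx : t ∈ cls G u x
    · have p1 := H.big hux huz hz hx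
      rw [bt_congr H.hb hux htx]
      nlinarith [bt_le (G := G) u z, bt_pos (G := G) u z]
    · have p1 := H.big hux ht htx hx
      nlinarith [bt_le (G := G) u x, bt_pos (G := G) u x]
  refine H.mech2_aux hρ (fun t ht => by linarith [hbig t ht]) ?_ fun t ht =>
    hmax t (mem_filter.2 ⟨mem_univ _, u, ht.symm, by rw [bt_comm]; linarith [hbig t ht]⟩)
  obtain ⟨t₀, ht₀, hmin⟩ := exists_min_image (nb G u) (bt G u) ⟨x, mem_nb.2 hux⟩
  have hut₀ := mem_nb.1 ht₀
  have n1 : (1 : ℝ) ≤ Fintype.card V := (one_le_bt u u).trans (bt_le (G := G) u u)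
  rw [← sum_sdiff (cls_sub_nb hut₀)]
  have p1 : ∑ t ∈ cls G u t₀, (1 / bt G u t) ^ 2 ≤ ∑ t ∈ cls G u t₀, 1 / 20 * (1 / bt G u t) := by
    refine sum_le_sum fun t ht => ?_
    rw [sq]
    exact mul_le_mul_of_nonneg_right
      (one_div_le_one_div_of_le (by norm_num) (hbig t (adj_of_mem_cls hut₀ ht)))
      (one_div_pos.2 (bt_pos u t)).le
  rw [← mul_sum, sum_cls_inv H.hb hut₀] at p1
  have p2 : ∑ t ∈ nb G u \ cls G u t₀, (1 / bt G u t) ^ 2 ≤
      (nb G u \ cls G u t₀).card • (1 / (20 * (Fintype.card V : ℝ))) := by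
    refine sum_le_card_nsmul _ _ _ fun t ht => ?_
    obtain ⟨ht1, ht2⟩ := mem_sdiff.1 ht
    have p3 := H.big hut₀ (mem_nb.1 ht1) ht2 (by linarith [hbig t₀ hut₀])
    rw [div_pow, one_pow]
    refine one_div_le_one_div_of_le (by linarith) ?_
    nlinarith [hmin t ht1, bt_pos (G := G) u t]
  have p4 : ((nb G u \ cls G u t₀).card : ℝ) ≤ Fintype.card V := by exact_mod_cast card_le_univ _
  have p5 : (Fintype.card V : ℝ) * (1 / (20 * (Fintype.card V : ℝ))) = 1 / 20 := by field_simp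
  rw [nsmul_eq_mul] at p2
  have p6 := mul_le_mul_of_nonneg_right p4 (show 0 ≤ 1 / (20 * (Fintype.card V : ℝ)) by positivity)
  linarith

end Pool.Agent.P.MP_e55f1b_co
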