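import Pool.Agent.P.MP_e55f1b_co.Fam
import Pool.Agent.P.MP_e55f1b_co.Main

/-!
Block graphs with a small deficit: the positive part of the adjacency matrix is small across a cut
vertex.
-/

open Finset Matrix

namespace Pool.Agent.P.MP_e55f1b_co

variable {V : Type} [Fintype V] [DecidableEq V] (G : SimpleGraph V) [DecidableRel G.Adj]

/-- The standing hypotheses. -/
structure St (X Y : Matrix V V ℝ) (ε : ℝ) : Prop where
  hX : X.PosSemidef
  hY : Y.PosSemidef
  hXY : X - Y = G.adjMatrix ℝ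
  h0 : X * Y = 0
  hc : Conn G univ
  hb : Blk G univ
  he : df G (fun u v => X u v) univ (dg G X) ≤ ε
  hs : (Fintype.card V : ℝ) * ε ≤ 1 / 10000
  hY2 : ∑ u, ∑ v, Y u v ^ 2 ≤ Fintype.card V

/-- The part of the block through the edge `u t` other than `u`. -/
def cls (u t : V) : Finset V := univ.filter fun s => s = t ∨ (G.Adj u s ∧ G.Adj t s)

/-- The size of that part. -/
noncomputable def bt (u t : V) : ℝ := (cls G u t).card

variable {G}

lemma mem_cls {u t s : V} : s ∈ cls G u t ↔ s = t ∨ (G.Adj u s ∧ G.Adj t s) := by simp [cls]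

lemma self_mem_cls (u t : V) : t ∈ cls G u t := mem_cls.2 (Or.inl rfl)

lemma adj_of_mem_cls {u t s : V} (h : G.Adj u t) (hs : s ∈ cls G u t) : G.Adj u s := by
  rcases mem_cls.1 hs with rfl | hs
  · exact h
  · exact hs.1

lemma bt_eq (u t : V) : bt G u t = cn G univ u t + 1 := by
  have : cls G u t = insert t (univ.filter fun c => G.Adj u c ∧ G.Adj t c) := by
    ext s; simp [cls]
  unfold bt cn
  rw [this, card_insert_of_notMem (by simp)]
  push_cast
  ring

lemma one_le_bt (u t : V) : 1 ≤ bt G u t := by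
  rw [bt_eq]; linarith [Nat.cast_nonneg (α := ℝ) (cn G univ u t)]

lemma bt_le (u t : V) : bt G u t ≤ Fintype.card V := by
  unfold bt; exact_mod_cast card_le_univ _

lemma cv_eq (u t : V) : cv G univ u t = bt G u t / (bt G u t + 1) := by
  unfold cv; rw [bt_eq, add_assoc]; norm_num

lemma cls_adj (hb : Blk G univ) {u t s s' : V} (h : G.Adj u t) (hs : s ∈ cls G u t)
    (hs' : s' ∈ cls G u t) (hne : s ≠ s') : G.Adj s s' := by
  rcases mem_cls.1 hs with rfl | ⟨h1, h2⟩ <;> rcases mem_cls.1 hs' with rfl | ⟨h3, h4⟩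
  · exact (hne rfl).elim
  · exact h4
  · exact h2.symm
  · exact hb.dia (mem_univ _) (mem_univ _) (mem_univ _) (mem_univ t) h1 h3 hne h.ne' h2.symm h4

lemma cls_sub (hb : Blk G univ) {u t s : V} (h : G.Adj u t) (hs : s ∈ cls G u t) :
    cls G u t ⊆ cls G u s := by
  intro x hx
  by_cases hxs : x = s
  · exact mem_cls.2 (Or.inl hxs)
  · exact mem_cls.2 (Or.inr ⟨adj_of_mem_cls h hx, cls_adj hb h hs hx (Ne.symm hxs)⟩)

lemma cls_eq (hb : Blk G univ) {u t s : V} (h : G.Adj u t) (hs : s ∈ cls G u t) :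
    cls G u s = cls G u t :=
  Subset.antisymm (cls_sub hb (adj_of_mem_cls h hs) (cls_sub hb h hs (self_mem_cls u t)))
    (cls_sub hb h hs)

lemma bt_congr (hb : Blk G univ) {u t s : V} (h : G.Adj u t) (hs : s ∈ cls G u t) :
    bt G u s = bt G u t := by
  unfold bt; rw [cls_eq hb h hs]

lemma bt_comm (u t : V) : bt G u t = bt G t u := by
  rw [bt_eq, bt_eq]
  unfold cn
  simp only [and_comm]

variable {X Y : Matrix V V ℝ} {ε : ℝ}

omit [DecidableEq V] in
lemma St.psd (H : St G X Y ε) : PSD G (fun u v => X u v) univ (dg G X) :=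
  psd_dg H.hX fun _ _ => rfl

lemma St.eps_nonneg (H : St G X Y ε) : 0 ≤ ε := (df_nonneg H.hc H.psd).trans H.he

omit [DecidableEq V] in
lemma St.Y_eq (H : St G X Y ε) (s t : V) : Y s t = X s t - if G.Adj s t then 1 else 0 := by
  have := congrFun (congrFun H.hXY s) t
  simp only [Matrix.sub_apply, SimpleGraph.adjMatrix_apply] at this
  linarith

lemma St.val (H : St G X Y ε) :
    ∑ a, ∑ b, (if G.Adj a b then (X a b - cv G univ a b) ^ 2 else 0) ≤ ε :=
  (val_blk univ H.hc H.hb _ H.psd).trans H.he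

lemma St.val_row (H : St G X Y ε) {u : V} {T : Finset V} (hT : ∀ s ∈ T, G.Adj u s) :
    ∑ s ∈ T, (X u s - cv G univ u s) ^ 2 ≤ ε := by
  refine le_trans ?_ ((single_le_sum (f := fun a => ∑ b,
    (if G.Adj a b then (X a b - cv G univ a b) ^ 2 else 0))
    (fun a _ => sum_nonneg fun b _ => by split_ifs <;> positivity) (mem_univ u)).trans H.val)
  rw [sum_congr rfl (g := fun b => if G.Adj u b then (X u b - cv G univ u b) ^ 2 else 0)
    fun s hs => (if_pos (hT s hs)).symm]
  exact sum_le_sum_of_subset_of_nonneg (subset_univ _) fun b _ _ => by split_ifs <;> positivity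

lemma St.eta (H : St G X Y ε) {u : V} {T : Finset V} (hT : ∀ s ∈ T, G.Adj u s) {a : V → ℝ}
    (ha : ∀ s ∈ T, |a s| ≤ 1) : |∑ s ∈ T, a s * (X u s - cv G univ u s)| ≤ 1 / 100 := by
  have h1 := sum_mul_sq_le_sq_mul_sq T a fun s => X u s - cv G univ u s
  have h2 : ∑ s ∈ T, a s ^ 2 ≤ Fintype.card V := by
    refine (sum_le_card_nsmul _ _ 1 fun s hs => ?_).trans ?_
    · exact (sq_le_one_iff_abs_le_one _).2 (ha s hs)
    · rw [nsmul_eq_mul, mul_one]; exact_mod_cast card_le_univ _
  have h3 := mul_le_mul h2 (H.val_row hT) (sum_nonneg fun _ _ => sq_nonneg _) (by positivity)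
  refine abs_le_of_sq_le_sq' ?_ (by norm_num) |> abs_le.2
  linarith [H.hs]

/-- The entries of `X` across a cut vertex are small. -/
lemma St.sep (H : St G X Y ε) {u t y z : V} (hut : G.Adj u t) (huy : G.Adj u y) (hty : G.Adj t y)
    (huz : G.Adj u z) (hz : z ∉ cls G u t) :
    ∃ C D : Finset V, Split G univ u C D ∧ (∀ s, G.Adj u s → (s ∈ C ↔ s ∈ cls G u t)) ∧
      ∑ s ∈ C, ∑ s' ∈ D, X s s' ^ 2 ≤ 4 * ε := by
  classical
  let R : V → Prop := Relation.ReflTransGen (fun s s' => G.Adj s s' ∧ s ≠ u ∧ s' ≠ u) t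
  have hRu : ∀ s, R s → s ≠ u := by
    intro s hs
    induction hs with
    | refl => exact hut.ne'
    | tail _ h _ => exact h.2.2
  have hstep : ∀ s s', R s → G.Adj s s' → s' ≠ u → R s' := fun s s' hs hss hsu =>
    Relation.ReflTransGen.tail hs ⟨hss, hRu s hs, hsu⟩
  have hnb : ∀ s, G.Adj u s → (R s ↔ s ∈ cls G u t) := by
    intro s hus
    refine ⟨fun hs => ?_, fun hs => ?_⟩
    · by_contra hc
      rw [mem_cls] at hc
      push Not at hc
      obtain ⟨P, h1, h2, h3⟩ := H.hb u (mem_univ _) t (mem_univ _) s (mem_univ _) hut hus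
        (Ne.symm hc.1) (hc.2 hus)
      have : ∀ s, R s → P s := by
        intro s hs
        induction hs with
        | refl => exact h1
        | tail _ h ih => exact h3 _ (mem_univ _) _ (mem_univ _) h.2.1 h.2.2 h.1 ih
      exact h2 (this s hs)
    · rcases mem_cls.1 hs with rfl | hs
      · exact Relation.ReflTransGen.refl
      · exact hstep t s Relation.ReflTransGen.refl hs.2 hus.ne'
  have hsp : Split G univ u (univ.filter R) (univ.filter fun s => ¬ R s ∧ s ≠ u) :=
    ⟨fun h => hRu u (mem_filter.1 h).2 rfl, fun h => (mem_filter.1 h).2.2 rfl,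
      fun a ha hb => (mem_filter.1 hb).2.1 (mem_filter.1 ha).2,
      fun x => by simp only [mem_univ, mem_filter, true_and, true_iff]; tauto,
      ⟨t, mem_filter.2 ⟨mem_univ _, Relation.ReflTransGen.refl⟩⟩,
      ⟨z, mem_filter.2 ⟨mem_univ _, fun h => hz ((hnb z huz).1 h), huz.ne'⟩⟩,
      fun a ha b hb hab => (mem_filter.1 hb).2.1
        (hstep a b (mem_filter.1 ha).2 hab (mem_filter.1 hb).2.2)⟩
  have hC : ∀ s, G.Adj u s → (s ∈ univ.filter R ↔ s ∈ cls G u t) := fun s hs => by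
    rw [← hnb s hs]; simp
  refine ⟨_, _, hsp, hC, ?_⟩
  generalize univ.filter R = C at hsp hC
  generalize (univ.filter fun s => ¬ R s ∧ s ≠ u) = D at hsp
  obtain ⟨a, b, hab, h1, h2⟩ := hsp.psd H.psd
  have hin : ∀ s ∈ insert u C, G.Adj u s → s ∈ cls G u t := fun s hs hus =>
    (hC s hus).1 ((mem_insert.1 hs).resolve_left hus.ne')
  obtain ⟨ι, _, g, g1, g2⟩ := zero_blk u _ (hsp.conn H.hc) (H.hb.mono (subset_univ _))
    (mem_insert_self _ _)
    (fun s hs s' hs' p1 p2 p3 => cls_adj H.hb hut (hin s hs p1) (hin s' hs' p2) p3)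
    ⟨t, mem_insert_of_mem ((hC t hut).2 (self_mem_cls u t)), y,
      mem_insert_of_mem ((hC y huy).2 (mem_cls.2 (Or.inr ⟨huy, hty⟩))), hut, huy, hty.ne⟩ _ h1
  have gu : ∀ i, g i u = 0 := by
    intro i
    have := g2 u (mem_insert_self _ _)
    simp only [if_true] at this
    exact pow_eq_zero_iff two_ne_zero |>.1
      ((sum_eq_zero_iff_of_nonneg fun _ _ => sq_nonneg _).1 this i (mem_univ _))
  have key : ∀ i, ∑ s ∈ C, ∑ s' ∈ D, X s s' ^ 2 * g i s ^ 2 ≤
      2 * Q G (fun u v => X u v) (insert u C) (Function.update (dg G X) u a) (g i) := by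
    intro i
    obtain ⟨k, k1, k2, k3⟩ := hsp.glue (w := fun u v => X u v) (dg G X) hab (x := g i)
      (y := fun _ => 0) (gu i)
    rw [Q_zero, add_zero] at k1
    have h3 := Q_dg (G := G) H.hX (w := fun u v => X u v) (fun _ _ => rfl) k
    have h4 := had_nonneg H.hX k
    have h5 : ∑ s ∈ C, ∑ s' ∈ D, X s s' ^ 2 * g i s ^ 2 ≤
        ∑ s, ∑ s', if G.Adj s s' then 0 else X s s' ^ 2 * (k s - k s') ^ 2 := by
      refine le_trans (sum_le_sum fun s hs => ?_) (sum_le_sum_of_subset_of_nonneg (subset_univ C)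
        fun s _ _ => sum_nonneg fun s' _ => lap_nonneg X k s s')
      refine le_trans (le_of_eq (sum_congr rfl fun s' hs' => ?_))
        (sum_le_sum_of_subset_of_nonneg (subset_univ D) fun s' _ _ => lap_nonneg X k s s')
      rw [if_neg (hsp.noadj s hs s' hs'), k2 s (mem_insert_of_mem hs),
        k3 s' (mem_insert_of_mem hs'), sub_zero]
    rw [← k1]
    linarith
  have h6 := sum_le_sum fun i (_ : i ∈ univ) => key i
  rw [← mul_sum, sum_comm] at h6
  have h7 : ∑ s ∈ C, ∑ i, ∑ s' ∈ D, X s s' ^ 2 * g i s ^ 2 = ∑ s ∈ C, ∑ s' ∈ D, X s s' ^ 2 := by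
    refine sum_congr rfl fun s hs => ?_
    have hsu : s ≠ u := fun e => hsp.n1 (e ▸ hs)
    have := g2 s (mem_insert_of_mem hs)
    simp only [if_neg hsu] at this
    simp only [← sum_mul]
    rw [← mul_sum, this, mul_one]
  have h8 := hsp.df_eq (w := fun u v => X u v) (dg G X) hab
  have h9 := df_nonneg (hsp.symm.conn H.hc) h2
  have h10 := H.he
  rw [h7] at h6
  linarith

end Pool.Agent.P.MP_e55f1b_co
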